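import Pool.Agent.Lib.MP_6ff8d9_an_h99.Local
import Pool.Agent.Lib.MP_6ff8d9_an_h22.Rows
import Pool.Agent.Lib.MP_6ff8d9_an_h42.M5

/-!
# LOCAL for rational functions
-/

open Metric Filter Topology MvPolynomial
open scoped ComplexConjugate

namespace Pool.Agent.Lib.MP_6ff8d9_an.H99

open Pool.Agent.Lib.MP_6ff8d9_an.H22

noncomputable section

variable {n : ℕ}

lemma hasFDerivAt_eval (p : MvPolynomial (Fin n) ℂ) (z : Fin n → ℂ) :
    HasFDerivAt (fun z : Fin n → ℂ => eval z p)
      (∑ j, (eval z (pderiv j p)) •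
        (ContinuousLinearMap.proj (R := ℂ) (φ := fun _ : Fin n => ℂ) j)) z := by
  induction p using MvPolynomial.induction_on with
  | C a =>
    have h1 : HasFDerivAt (𝕜 := ℂ) (fun z : Fin n → ℂ => eval z (C a : MvPolynomial (Fin n) ℂ))
        (0 : (Fin n → ℂ) →L[ℂ] ℂ) z := by
      simp only [eval_C]
      exact hasFDerivAt_const _ _
    refine h1.congr_fderiv ?_
    ext1 v
    simp [sum_apply]
  | add p q hp hq =>
    simp only [map_add (eval _)]
    refine (hp.add hq).congr_fderiv ?_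
    ext1 v
    simp [sum_apply, add_mul, Finset.sum_add_distrib]
  | mul_X p i hp =>
    have h1 : HasFDerivAt (fun z : Fin n → ℂ => z i)
        (ContinuousLinearMap.proj (R := ℂ) (φ := fun _ : Fin n => ℂ) i) z :=
      (ContinuousLinearMap.proj (R := ℂ) (φ := fun _ : Fin n => ℂ) i).hasFDerivAt
    have h2 := hp.mul h1
    simp only [map_mul, eval_X]
    refine h2.congr_fderiv ?_
    ext1 v
    simp only [add_apply, smul_apply, sum_apply,
      ContinuousLinearMap.proj_apply, smul_eq_mul, Derivation.leibniz, map_add, map_mul, eval_X]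
    rw [Finset.mul_sum]
    have h3 : ∀ j : Fin n, (eval z p * eval z (pderiv j (X i : MvPolynomial (Fin n) ℂ)) +
        z i * eval z (pderiv j p)) * v j =
        eval z p * (eval z (pderiv j (X i : MvPolynomial (Fin n) ℂ)) * v j) +
          z i * (eval z (pderiv j p) * v j) := fun j => by ring
    rw [Finset.sum_congr rfl fun j _ => h3 j, Finset.sum_add_distrib, ← Finset.mul_sum]
    congr 1
    rw [Finset.sum_eq_single i]
    · rw [pderiv_X_self, map_one, one_mul]
    · intro j _ hj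
      rw [pderiv_X_of_ne (Ne.symm hj), map_zero, zero_mul, mul_zero]
    · intro h; exact absurd (Finset.mem_univ _) h

lemma contDiff_eval' (p : MvPolynomial (Fin n) ℂ) {N : WithTop ℕ∞} :
    ContDiff ℂ N fun z : Fin n → ℂ => eval z p := by
  induction p using MvPolynomial.induction_on with
  | C a => simp only [eval_C]; exact contDiff_const
  | add p q hp hq =>
    simp only [map_add]
    exact hp.add hq
  | mul_X p i hp =>
    simp only [map_mul, eval_X]
    exact hp.mul (contDiff_apply ℂ ℂ i)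

lemma continuous_eval' (p : MvPolynomial (Fin n) ℂ) : Continuous fun z : Fin n → ℂ => eval z p :=
  (contDiff_eval' p (N := 0)).continuous

/-- the map `W / r` -/
def Ps (P Q : MvPolynomial (Fin n) ℂ) (z : Fin n → ℂ) : Fin n → ℂ :=
  fun j => eval z (Wr P Q j) / eval z (Rr P Q)

lemma star_Ps (P Q : MvPolynomial (Fin n) ℂ) (z : Fin n → ℂ) : star (Ps P Q z) = rfl' P Q z := rfl

lemma eval_Rr (P Q : MvPolynomial (Fin n) ℂ) (z : Fin n → ℂ) :
    eval z (Rr P Q) = ∑ j, z j * eval z (Wr P Q j) := by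
  simp [Rr, map_sum, map_mul]

/-- the derivative of `P/Q` -/
lemma fderiv_fr {P Q : MvPolynomial (Fin n) ℂ} {z : Fin n → ℂ} (hQ : eval z Q ≠ 0)
    (v : Fin n → ℂ) : DifferentiableAt ℂ (fr P Q) z ∧
    fderiv ℂ (fr P Q) z v = (∑ j, eval z (Wr P Q j) * v j) / eval z Q ^ 2 := by
  have h1 := hasFDerivAt_eval P z
  have h2 := hasFDerivAt_eval Q z
  have h3 : HasFDerivAt (fun z => eval z P * (eval z Q)⁻¹)
      ((eval z P) • (-(eval z Q ^ 2)⁻¹ • (∑ j, (eval z (pderiv j Q)) •
        (ContinuousLinearMap.proj (R := ℂ) (φ := fun _ : Fin n => ℂ) j))) +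
      (eval z Q)⁻¹ • (∑ j, (eval z (pderiv j P)) •
        (ContinuousLinearMap.proj (R := ℂ) (φ := fun _ : Fin n => ℂ) j))) z := by
    have h4 : HasFDerivAt (fun z => (eval z Q)⁻¹)
        (-(eval z Q ^ 2)⁻¹ • (∑ j, (eval z (pderiv j Q)) •
        (ContinuousLinearMap.proj (R := ℂ) (φ := fun _ : Fin n => ℂ) j))) z :=
      (hasDerivAt_inv hQ).comp_hasFDerivAt z h2
    exact h1.mul h4
  have h4 : fr P Q = fun z => eval z P * (eval z Q)⁻¹ := by
    funext z
    exact div_eq_mul_inv _ _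
  rw [← h4] at h3
  refine ⟨h3.differentiableAt, ?_⟩
  rw [h3.fderiv]
  simp only [add_apply, smul_apply, sum_apply,
    ContinuousLinearMap.proj_apply, smul_eq_mul, Wr, map_sub, map_mul]
  rw [eq_div_iff (pow_ne_zero 2 hQ)]
  have h5 : ∑ j, (eval z Q * eval z (pderiv j P) - eval z P * eval z (pderiv j Q)) * v j =
      eval z Q * ∑ j, eval z (pderiv j P) * v j - eval z P * ∑ j, eval z (pderiv j Q) * v j := by
    rw [Finset.mul_sum, Finset.mul_sum, ← Finset.sum_sub_distrib]
    exact Finset.sum_congr rfl fun j _ => by ring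
  rw [h5]
  field_simp
  ring

/-- contact facts for a rational function -/
theorem contact_of {P Q : MvPolynomial (Fin n) ℂ} (hA : Adm P Q) (hD : Dual P Q) {m : Fin n → ℂ}
    (hm : m ∈ Ct P Q) (h1 : ∀ j, eval m (Wr P Q j) = conj (m j) * eval m (Rr P Q))
    {b : ℝ} (hb : 0 < b) (h2 : eval m (Rr P Q) = b * (eval m P * eval m Q)) :
    Contact (fr P Q) (Ps P Q) m ∧
      (∀ᶠ z in 𝓝 m, fr P Q z * conj (fr P Q (star (Ps P Q z))) = 1) := by
  have hQ : eval m Q ≠ 0 := hA.Qne m (le_of_eq hm.1)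
  have hP : eval m P ≠ 0 := by
    rw [← norm_pos_iff, hm.2]
    exact norm_pos_iff.2 hQ
  have hR : eval m (Rr P Q) ≠ 0 := by
    rw [h2]
    exact mul_ne_zero (by exact_mod_cast hb.ne') (mul_ne_zero hP hQ)
  have nQ : ∀ᶠ z in 𝓝 m, eval z Q ≠ 0 := (continuous_eval' Q).continuousAt.eventually_ne hQ
  have nR : ∀ᶠ z in 𝓝 m, eval z (Rr P Q) ≠ 0 :=
    (continuous_eval' (Rr P Q)).continuousAt.eventually_ne hR
  have hcd : ∀ {N : WithTop ℕ∞}, ContDiffAt ℂ N (Ps P Q) m := by
    intro N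
    rw [contDiffAt_pi]
    intro j
    exact (contDiff_eval' _).contDiffAt.div (contDiff_eval' _).contDiffAt hR
  have hfix : star (Ps P Q m) = m := by
    funext j
    show conj (eval m (Wr P Q j) / eval m (Rr P Q)) = m j
    rw [h1, mul_div_assoc, div_self hR, mul_one, Complex.conj_conj]
  have hσt : Tendsto (fun z => star (Ps P Q z)) (𝓝 m) (𝓝 m) := by
    have h3 : ContinuousAt (fun z => star (Ps P Q z)) m := (hcd (N := 0)).continuousAt.star
    have h4 := h3.tendsto
    rwa [hfix] at h4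
  have nrefl : ∀ᶠ z in 𝓝 m, fr P Q z * conj (fr P Q (star (Ps P Q z))) = 1 := by
    filter_upwards [nQ, nR, hσt.eventually nQ] with z h3 h4 h5
    have h6 := (hD.2 z h4).1
    rw [← star_Ps] at h6
    unfold fr
    rw [map_div₀]
    have h7 : conj (eval (star (Ps P Q z)) Q) ≠ 0 := (map_ne_zero _).2 h5
    rw [div_mul_div_comm, h6, div_self (mul_ne_zero h3 h7)]
  refine ⟨⟨?_, ?_, hcd, hfix, ?_, ?_, ?_, ?_⟩, nrefl⟩
  · unfold fr
    rw [norm_div, hm.2, div_self (norm_ne_zero_iff.2 hQ)]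
  · exact (contDiff_eval' _).contDiffAt.div (contDiff_eval' _).contDiffAt hQ
  · filter_upwards [nR, hσt.eventually nR] with z h4 h5
    funext j
    show conj (eval (star (Ps P Q z)) (Wr P Q j) / eval (star (Ps P Q z)) (Rr P Q)) = z j
    have h6 := (hD.2 z h4).2 j
    rw [← star_Ps] at h6
    rw [h6, mul_div_assoc, div_self h5, mul_one, Complex.conj_conj]
  · filter_upwards [nR] with z h4
    have h5 : ∑ j, z j * Ps P Q z j = (∑ j, z j * eval z (Wr P Q j)) / eval z (Rr P Q) := by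
      rw [Finset.sum_div]
      refine Finset.sum_congr rfl fun j _ => ?_
      unfold Ps
      ring
    rw [h5, ← eval_Rr, div_self h4]
  · filter_upwards [nQ, nR] with z h3 h4
    have h5 : fderiv ℂ (fr P Q) z z = eval z (Rr P Q) / eval z Q ^ 2 := by
      rw [(fderiv_fr h3 z).2, eval_Rr]
      congr 1
      exact Finset.sum_congr rfl fun j _ => mul_comm _ _
    refine ⟨by rw [h5]; exact div_ne_zero h4 (pow_ne_zero 2 h3), fun v => ?_⟩
    rw [h5, (fderiv_fr h3 v).2, div_mul_eq_mul_div, Finset.mul_sum]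
    congr 1
    refine Finset.sum_congr rfl fun j _ => ?_
    unfold Ps
    field_simp
  · filter_upwards [nrefl] with z h3 h4
    rw [h4, Complex.mul_conj, Complex.normSq_eq_norm_sq] at h3
    have h5 : ‖fr P Q z‖ ^ 2 = 1 := by exact_mod_cast h3
    nlinarith [norm_nonneg (fr P Q z)]

lemma convex_Bn (n : ℕ) : Convex ℝ (Bn n) := by
  have h1 : Bn n = ((WithLp.linearEquiv 2 ℂ (Fin n → ℂ)).symm.restrictScalars ℝ).toLinearMap ⁻¹'
      (ball (0 : Cn n) 1) := by
    ext z
    rw [Set.mem_preimage]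
    exact (Hom.M5.mem_ball_iff (WithLp.toLp 2 z)).symm
  rw [h1]
  exact (convex_ball (0 : Cn n) 1).linear_preimage _

/-- identity theorem on a convex open subset of `ℂⁿ` -/
theorem ident {U : Set (Fin n → ℂ)} (hU : IsOpen U) (hUc : Convex ℝ U) {A : (Fin n → ℂ) → ℂ}
    (hA : DifferentiableOn ℂ A U) {z₁ : Fin n → ℂ} (hz₁ : z₁ ∈ U)
    (h0 : ∀ᶠ z in 𝓝 z₁, A z = 0) : ∀ z ∈ U, A z = 0 := by
  intro z hz
  set S : Set ℂ := {l | z₁ + l • (z - z₁) ∈ U} with hS
  have hcont : Continuous fun l : ℂ => z₁ + l • (z - z₁) := by fun_prop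
  have hSo : IsOpen S := hU.preimage hcont
  have hSc : Convex ℝ S := by
    intro a ha b hb s t hs ht hst
    have h1 := hUc ha hb hs ht hst
    show z₁ + (s • a + t • b) • (z - z₁) ∈ U
    convert h1 using 1
    have h2 : z₁ = s • z₁ + t • z₁ := by rw [← add_smul, hst, one_smul]
    nth_rewrite 1 [h2]
    rw [add_smul, smul_assoc, smul_assoc, smul_add, smul_add]
    abel
  have hφ : DifferentiableOn ℂ (fun l : ℂ => A (z₁ + l • (z - z₁))) S := by
    intro l hl
    have h1 : DifferentiableAt ℂ A (z₁ + l • (z - z₁)) := (hA _ hl).differentiableAt (hU.mem_nhds hl)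
    have h2 : DifferentiableAt ℂ (fun l : ℂ => z₁ + l • (z - z₁)) l := by fun_prop
    exact (h1.comp l h2).differentiableWithinAt
  have h0S : (0 : ℂ) ∈ S := by
    show z₁ + (0 : ℂ) • (z - z₁) ∈ U
    rwa [zero_smul, add_zero]
  have h1S : (1 : ℂ) ∈ S := by
    show z₁ + (1 : ℂ) • (z - z₁) ∈ U
    rwa [one_smul, add_sub_cancel]
  have hev : (fun l : ℂ => A (z₁ + l • (z - z₁))) =ᶠ[𝓝 0] 0 := by
    have h1 : Tendsto (fun l : ℂ => z₁ + l • (z - z₁)) (𝓝 0) (𝓝 z₁) := by
      have := hcont.tendsto 0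
      simpa using this
    exact h1.eventually h0
  have h1 := (hφ.analyticOnNhd hSo).eqOn_zero_of_preconnected_of_eventuallyEq_zero
    hSc.isPreconnected h0S hev h1S
  have h2 : A (z₁ + (1 : ℂ) • (z - z₁)) = 0 := h1
  rwa [one_smul, add_sub_cancel] at h2

/-- row LOCAL -/
theorem local_of (hCon : CONTACT) : LOCAL := by
  intro n P Q hA hD m hm hne k hk hkre
  obtain ⟨h1, b, hb, h2⟩ := hCon n P Q hA m hm
  obtain ⟨hC, -⟩ := contact_of hA hD hm h1 hb h2
  have hQ : eval m Q ≠ 0 := hA.Qne m (le_of_eq hm.1)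
  have hP : eval m P ≠ 0 := by
    rw [← norm_pos_iff, hm.2]
    exact norm_pos_iff.2 hQ
  have hR : eval m (Rr P Q) ≠ 0 := by
    rw [h2]
    exact mul_ne_zero (by exact_mod_cast hb.ne') (mul_ne_zero hP hQ)
  have hF1 : fr P Q m ≠ 1 := by
    intro h
    unfold fr at h
    rw [div_eq_one_iff_eq hQ] at h
    exact hne h
  have hlt : ∀ z : Fin n → ℂ, ∑ i, ‖z i‖ ^ 2 < 1 → ‖fr P Q z‖ < 1 := by
    intro z hz
    have h3 := hA.lt z hz
    unfold fr
    rw [norm_div, div_lt_one ((norm_nonneg _).trans_lt h3)]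
    exact h3
  have hkre' : ∀ z ∈ Bl n, |(k z).re| ≤ ((1 + fr P Q z) / (1 - fr P Q z)).re := by
    intro z hz
    have h3 := hkre z hz
    have h4 : eval z Q ≠ 0 := hA.Qne z (le_of_lt hz)
    have h5 : (1 + fr P Q z) / (1 - fr P Q z) =
        (eval z Q + eval z P) / (eval z Q - eval z P) := by
      unfold fr
      have h6 : 1 + eval z P / eval z Q = (eval z Q + eval z P) / eval z Q := by field_simp
      have h7 : 1 - eval z P / eval z Q = (eval z Q - eval z P) / eval z Q := by field_simp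
      rw [h6, h7, div_div_div_cancel_right₀ h4]
    rw [h5]
    exact h3
  obtain ⟨z₁, hz₁, hev⟩ := hC.local_step hF1 hlt hk hkre'
    ((continuous_eval' (Rr P Q)).continuousAt.eventually_ne hR)
  have hdir : ∀ i : Fin n, DifferentiableOn ℂ (fun z => fderiv ℂ k z (Pi.single i 1)) (Bn n) :=
    fun i => Pool.Agent.K708.Hd.fderiv_holo (isOpen_Bl n) hk (Pi.single i 1 : Fin n → ℂ)
  intro z hz i j
  have h3 := ident (isOpen_Bl n) (convex_Bn n)
    (A := fun z => eval z (Wr P Q j) * fderiv ℂ k z (Pi.single i 1) -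
      eval z (Wr P Q i) * fderiv ℂ k z (Pi.single j 1)) ?_ hz₁ ?_ z hz
  · exact sub_eq_zero.1 h3
  · have h4 : ∀ p : MvPolynomial (Fin n) ℂ, DifferentiableOn ℂ (fun z : Fin n → ℂ => eval z p)
        (Bn n) := fun p => ((contDiff_eval' p (N := 1)).differentiable (by norm_num)).differentiableOn
    exact ((h4 _).mul (hdir i)).sub ((h4 _).mul (hdir j))
  · filter_upwards [hev] with x hx
    have h4 := hx.2 i j
    have h5 : eval x (Rr P Q) ≠ 0 := hx.1
    unfold Ps at h4
    rw [div_mul_eq_mul_div, div_mul_eq_mul_div, div_left_inj' h5] at h4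
    exact sub_eq_zero.2 h4

end

end Pool.Agent.Lib.MP_6ff8d9_an.H99
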