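import Pool.Agent.Lib.MP_6ff8d9_an_h99.Leaf
import Pool.Agent.Lib.MP_6ff8d9_an_h22.Asm

/-!
# (Sec) and (Loc)
-/

open Metric Filter Topology MvPolynomial
open scoped ComplexConjugate

namespace Pool.Agent.Lib.MP_6ff8d9_an.H99

open Pool.Agent.Lib.MP_6ff8d9_an.H22

noncomputable section

/-- row LOC -/
theorem loc_row (hCon : CONTACT) : LOC := by
  intro n P Q hA hD k hk hW m hm
  obtain ⟨ε, hε, L, hL, ⟨δ, hδ, h1⟩, -⟩ := loc_of hCon P Q hA hD k hk hW hm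
  exact ⟨δ, hδ, ε, hε, L, hL, h1⟩

/-- row SEC -/
theorem sec_row (hCon : CONTACT) : SEC := by
  intro n P Q hA hD m hm δ hδ
  obtain ⟨hC, hQ, hR, hlt, hFd, ⟨a⟩⟩ := setup hCon hA hD hm
  obtain ⟨ε₁, hε₁, h1⟩ := lift_of hCon n P Q hA hD m hm δ hδ
  have hF0 : fr P Q m ≠ 0 := by
    intro h
    have := hC.norm1
    rw [h, norm_zero] at this
    exact zero_ne_one this
  have hΘt : Tendsto a.Θ (𝓝 0) (𝓝 m) := by
    have := a.dΘ.hasFDerivAt.continuousAt.tendsto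
    rwa [a.Θ0] at this
  have hsu : Tendsto (fun s : ℂ => s • a.u) (𝓝 0) (𝓝 0) := by
    have h1 : Continuous fun s : ℂ => s • a.u := by fun_prop
    have := h1.tendsto 0
    simpa using this
  obtain ⟨r, hr, hline⟩ := hC.line_in_ball a
  have hs1 : ∀ᶠ s : ℂ in 𝓝 0, ‖s‖ < r := by
    have := (continuous_norm.tendsto (0 : ℂ)).eventually_lt_const
      (show ‖(0 : ℂ)‖ < r by rw [norm_zero]; exact hr)
    exact this
  have h2 := ((sc_tendsto hF0).eventually (hs1.and ((hsu.eventually a.expF).and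
    (hsu.eventually (hΘt.eventually (ball_mem_nhds m hδ)))))).and (eventually_ne_nhds hF0)
  obtain ⟨ε₂, hε₂, h3⟩ := Metric.eventually_nhds_iff_ball.1 h2
  refine ⟨min ε₁ ε₂, by positivity, ?_, fun c hc hcd => h1 c hc (hcd.trans_le (min_le_left _ _))⟩
  intro w hw
  obtain ⟨⟨e1, e2, e3⟩, e4⟩ := h3 w (ball_subset_ball (min_le_right _ _) hw.1)
  refine ⟨_, hline _ e1 (sc_im_pos hC.norm1 e4 (by simpa using hw.2)), e3, ?_⟩
  rw [e2, map_smul, a.ℓu, smul_eq_mul, mul_one, exp_sc hF0 e4]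

end

end Pool.Agent.Lib.MP_6ff8d9_an.H99
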