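import Pool.Agent.Lib.MP_6ff8d9_an_h11.Rows
import Pool.Agent.Lib.MP_6ff8d9_an_h99.SecLoc
import Pool.Agent.Lib.MP_6ff8d9_an_h1.Contact
import Pool.Agent.Lib.MP_6ff8d9_an_h82.Glue
import Pool.Agent.Lib.MP_6ff8d9_an_h22.Asm2
import Pool.Agent.Lib.MP_6ff8d9_an_h22.Ext
import Pool.Agent.Lib.MP_6ff8d9_an_h42.M5

/-!
# MP_6ff8d9 PERRON: row NONE

Under duality `{P = Q}` meets the sphere.
-/

open Metric Filter Topology MvPolynomial
open scoped ComplexConjugate

namespace Pool.Agent.Lib.MP_6ff8d9_an.H99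

open Pool.Agent.Lib.MP_6ff8d9_an
open Pool.Agent.Lib.MP_6ff8d9_an.H22

noncomputable section

variable {n : ℕ} {P Q : MvPolynomial (Fin n) ℂ}

theorem Wr_scale (P Q : MvPolynomial (Fin n) ℂ) (M : ℂ) (j : Fin n) :
    Wr P (C M * Q) j = C M * Wr P Q j := by
  unfold Wr
  rw [pderiv_C_mul]
  ring

theorem Rr_scale (P Q : MvPolynomial (Fin n) ℂ) (M : ℂ) :
    Rr P (C M * Q) = C M * Rr P Q := by
  unfold Rr
  rw [Finset.mul_sum]
  refine Finset.sum_congr rfl fun j _ => ?_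
  rw [Wr_scale]
  ring

theorem isCompact_cb (n : ℕ) : IsCompact {z : Fin n → ℂ | ∑ i, ‖z i‖ ^ 2 ≤ 1} := by
  refine Metric.isCompact_of_isClosed_isBounded ?_ ?_
  · exact isClosed_le (by fun_prop) continuous_const
  · refine (isBounded_closedBall (x := (0 : Fin n → ℂ)) (r := 1)).subset fun z hz => ?_
    rw [mem_closedBall_zero_iff, pi_norm_le_iff_of_nonneg zero_le_one]
    exact fun i => norm_coord_le hz i

/-- the contact set is not empty -/
theorem contact_nonempty (hA : Adm P Q) (hD : Dual P Q) : ∃ m, m ∈ Ct P Q := by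
  -- the maximum of `|f|` on the closed ball
  obtain ⟨m, hmK, hmax⟩ := (isCompact_cb n).exists_isMaxOn
    (f := fun z => ‖fr P Q z‖) ⟨0, by simp⟩
    (fun z hz => (diffAt_fr (hA.Qne z hz)).continuousAt.continuousWithinAt.norm)
  have hmax' : ∀ z : Fin n → ℂ, ∑ i, ‖z i‖ ^ 2 ≤ 1 → ‖fr P Q z‖ ≤ ‖fr P Q m‖ := fun z hz =>
    hmax hz
  set M : ℝ := ‖fr P Q m‖ with hM
  have hM0 : 0 < M := by
    rcases (norm_nonneg (fr P Q m)).lt_or_eq with h | h
    · exact h
    · exfalso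
      have hP : P = 0 := by
        refine Pool.Agent.Lib.MP_6ff8d9_an.Hom.M5.eq_zero_of_ball P fun z hz => ?_
        have h1 := hmax' z hz.le
        rw [hM, ← h, norm_le_zero_iff] at h1
        have h2 := hA.Qne z hz.le
        unfold fr at h1
        rw [div_eq_zero_iff] at h1
        exact h1.resolve_right h2
      apply hD.1
      unfold Rr Wr
      rw [hP]
      simp
  -- Schwarz
  have hF0 : fr P Q 0 = 0 := by
    unfold fr
    rw [hA.zero, zero_div]
  have hlt : ∀ z : Fin n → ℂ, ∑ i, ‖z i‖ ^ 2 < 1 → ‖fr P Q z‖ < M := by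
    intro z hz
    have h0 : (WithLp.toLp 2 z : Cn n) ∈ ball (0 : Cn n) 1 := toLp_mem hz
    have h1 : DifferentiableOn ℂ (fun z : Cn n => fr P Q (fun i => z i) / (M : ℂ))
        (ball 0 1) := by
      intro w hw
      have hw' := (mem_ball_iff_Bn w).1 hw
      have h2 : DifferentiableAt ℂ (fr P Q) (fun i => w i) := diffAt_fr (hA.Qne _ (le_of_lt hw'))
      have h3 : DifferentiableAt ℂ (fun z : Cn n => (fun i => z i : Fin n → ℂ)) w :=
        ((PiLp.continuousLinearEquiv 2 ℂ (fun _ : Fin n => ℂ))).differentiableAt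
      have h4 : DifferentiableAt ℂ (fun z : Cn n => fr P Q (fun i => z i)) w :=
        DifferentiableAt.comp (g := fr P Q) w h2 h3
      simp only [div_eq_mul_inv]
      exact (h4.mul_const ((M : ℂ)⁻¹)).differentiableWithinAt
    have h2 : Set.MapsTo (fun z : Cn n => fr P Q (fun i => z i) / (M : ℂ)) (ball 0 1)
        (closedBall 0 1) := by
      intro w hw
      have hw' := (mem_ball_iff_Bn w).1 hw
      rw [mem_closedBall_zero_iff, norm_div, Complex.norm_real, Real.norm_of_nonneg hM0.le,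
        div_le_one hM0]
      exact hmax' _ (le_of_lt hw')
    have h3 : fr P Q (fun i => (0 : Cn n) i) / (M : ℂ) = 0 := by
      have : (fun i => (0 : Cn n) i : Fin n → ℂ) = 0 := rfl
      rw [this, hF0, zero_div]
    have h4 := Complex.norm_le_norm_of_mapsTo_ball h1 h2 h3 (mem_ball_zero_iff.1 h0)
    change ‖fr P Q z / (M : ℂ)‖ ≤ _ at h4
    rw [norm_div, Complex.norm_real, Real.norm_of_nonneg hM0.le] at h4
    have h6 := h4.trans_lt (mem_ball_zero_iff.1 h0)
    rwa [div_lt_one hM0] at h6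
  have hm1 : ∑ i, ‖m i‖ ^ 2 = 1 := by
    refine le_antisymm hmK ?_
    by_contra hcon
    exact lt_irrefl _ (hlt m (not_le.1 hcon))
  have hMc : (M : ℂ) ≠ 0 := by exact_mod_cast hM0.ne'
  have hev : ∀ z : Fin n → ℂ, eval z (C (M : ℂ) * Q) = M * eval z Q := by
    intro z
    rw [map_mul, eval_C]
  have hnorm : ∀ z : Fin n → ℂ, ‖eval z (C (M : ℂ) * Q)‖ = M * ‖eval z Q‖ := by
    intro z
    rw [hev, norm_mul, Complex.norm_real, Real.norm_of_nonneg hM0.le]
  have hA' : Adm P (C (M : ℂ) * Q) := by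
    refine ⟨⟨?_, ?_, hA.zero⟩, ?_⟩
    · intro z hz
      have h1 := hlt z hz
      have h2 : 0 < ‖eval z Q‖ := norm_pos_iff.2 (hA.Qne z hz.le)
      unfold fr at h1
      rw [norm_div, div_lt_iff₀ h2] at h1
      rw [hnorm]
      exact h1
    · intro z hz
      have h1 := hmax' z hz
      have h2 : 0 < ‖eval z Q‖ := norm_pos_iff.2 (hA.Qne z hz)
      unfold fr at h1
      rw [norm_div, div_le_iff₀ h2] at h1
      rw [hnorm]
      exact h1
    · intro z hz
      rw [hev]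
      exact mul_ne_zero hMc (hA.Qne z hz)
  have hQm : eval m Q ≠ 0 := hA.Qne m hmK
  have hPM : ‖eval m P‖ = M * ‖eval m Q‖ := by
    have h2 : 0 < ‖eval m Q‖ := norm_pos_iff.2 hQm
    rw [hM]
    unfold fr
    rw [norm_div, div_mul_cancel₀ _ h2.ne']
  have hmC : m ∈ Ct P (C (M : ℂ) * Q) := ⟨hm1, by rw [hnorm, hPM]⟩
  obtain ⟨h1, b, hb, h2⟩ := H1R.contact_row n P (C (M : ℂ) * Q) hA' m hmC
  rw [Rr_scale] at h1 h2
  simp only [Wr_scale, map_mul, eval_C] at h1 h2
  have hPm : eval m P ≠ 0 := by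
    rw [← norm_pos_iff, hPM]
    exact mul_pos hM0 (norm_pos_iff.2 hQm)
  have hR : eval m (Rr P Q) ≠ 0 := by
    intro h0
    rw [h0, mul_zero] at h2
    have hb' : (b : ℂ) ≠ 0 := by exact_mod_cast hb.ne'
    exact (mul_ne_zero hb' (mul_ne_zero hPm (mul_ne_zero hMc hQm))) h2.symm
  have hW : ∀ j, eval m (Wr P Q j) = conj (m j) * eval m (Rr P Q) := by
    intro j
    have h3 := h1 j
    apply mul_left_cancel₀ hMc
    rw [h3]
    ring
  have hs : rfl' P Q m = m := by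
    funext j
    unfold rfl'
    rw [hW j, mul_div_assoc, div_self hR, mul_one, Complex.conj_conj]
  have h4 := (hD.2 m hR).1
  rw [hs, Complex.mul_conj, Complex.mul_conj, Complex.normSq_eq_norm_sq,
    Complex.normSq_eq_norm_sq] at h4
  refine ⟨m, hm1, ?_⟩
  have h5 : ‖eval m P‖ ^ 2 = ‖eval m Q‖ ^ 2 := by exact_mod_cast h4
  exact (pow_left_inj₀ (norm_nonneg _) (norm_nonneg _) two_ne_zero).1 h5

/-- `f` maps the contact set onto the circle -/
theorem contact_surj (hA : Adm P Q) (hD : Dual P Q) :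
    ∀ c : ℂ, ‖c‖ = 1 → ∃ x ∈ Ct P Q, fr P Q x = c := by
  obtain ⟨m, hm⟩ := contact_nonempty hA hD
  have hc0 : ‖fr P Q m‖ = 1 := norm_fr_Ct hA hm
  intro c hc
  have hcomp : IsCompact (fr P Q '' Ct P Q) := by
    refine (isCompact_Ct P Q).image_of_continuousOn fun z hz => ?_
    exact (diffAt_fr (hA.Qne z (le_of_eq hz.1))).continuousAt.continuousWithinAt
  have hind := Rat.H82.sphere_preconn.induction₂
    (fun a b : ℂ => ((∃ x ∈ Ct P Q, fr P Q x = a) ↔ ∃ x ∈ Ct P Q, fr P Q x = b)) ?_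
    (fun a b c _ _ _ h1 h2 => h1.trans h2) (fun a b _ _ h1 => h1.symm)
    (x := fr P Q m) (y := c) (by simpa using hc0) (by simpa using hc)
  · exact hind.1 ⟨m, hm, rfl⟩
  · intro a ha
    rw [mem_sphere_zero_iff_norm] at ha
    by_cases h : ∃ x ∈ Ct P Q, fr P Q x = a
    · obtain ⟨x, hx, hxa⟩ := h
      obtain ⟨δ, hδ, h1⟩ := lift_of H1R.contact_row n P Q hA hD x hx 1 one_pos
      have e1 : ∀ᶠ c' in 𝓝[sphere (0 : ℂ) 1] a, dist c' a < δ :=
        mem_nhdsWithin_of_mem_nhds (ball_mem_nhds _ hδ)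
      filter_upwards [self_mem_nhdsWithin, e1] with b h0 h3
      rw [mem_sphere_zero_iff_norm] at h0
      obtain ⟨y, hy1, -, hy2⟩ := h1 b h0 (by rw [hxa]; exact h3)
      exact ⟨fun _ => ⟨y, hy1, hy2⟩, fun _ => ⟨x, hx, hxa⟩⟩
    · have h2 : (fr P Q '' Ct P Q)ᶜ ∈ 𝓝 a := hcomp.isClosed.isOpen_compl.mem_nhds h
      filter_upwards [mem_nhdsWithin_of_mem_nhds h2] with b hb
      exact ⟨fun h' => absurd h' h, fun h' => absurd h' hb⟩

/-- row NONE -/
theorem none_row : H11.NONE := by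
  intro n P Q hA hD
  obtain ⟨m, hm, h1⟩ := contact_surj hA hD 1 (by simp)
  refine ⟨WithLp.toLp 2 m, ?_, ?_⟩
  · rw [EuclideanSpace.norm_eq]
    rw [Real.sqrt_eq_one]
    exact hm.1
  · have h2 := hA.Qne m (le_of_eq hm.1)
    unfold fr at h1
    rw [div_eq_one_iff_eq h2] at h1
    exact h1

end

end Pool.Agent.Lib.MP_6ff8d9_an.H99
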