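import Pool.Agent.Lib.MP_6ff8d9_an_h11.Rows

/-!
# MP_6ff8d9 PERRON: row SPLIT

The two barriers coming from a splitting of `{f = 1}` in the sphere.
-/

open Metric Filter Topology MvPolynomial InnerProductSpace Real

namespace Pool.Agent.Lib.MP_6ff8d9_an.H99

open Pool.Agent.Lib.MP_6ff8d9_an
open Pool.Agent.Lib.MP_6ff8d9_an.H11

noncomputable section

/-- `Re (1+c)/(1-c)` -/
def qq (c : ℂ) : ℝ := ((1 + c) / (1 - c)).re

theorem one_sub_ne {c : ℂ} (hc : ‖c‖ < 1) : 1 - c ≠ 0 := by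
  intro h
  have h1 : c = 1 := (sub_eq_zero.1 h).symm
  rw [h1, norm_one] at hc
  exact lt_irrefl _ hc

theorem qq_eq {c : ℂ} (hc : ‖c‖ < 1) : qq c = (1 - ‖c‖ ^ 2) / ‖1 - c‖ ^ 2 := by
  have h1 : ‖1 - c‖ ^ 2 ≠ 0 := pow_ne_zero _ (norm_ne_zero_iff.2 (one_sub_ne hc))
  unfold qq
  rw [Complex.div_re, ← Complex.sq_norm (1 - c)] 
  rw [← add_div]
  congr 1
  rw [Complex.sq_norm, Complex.normSq_apply]
  simp
  ring

theorem qq_nonneg {c : ℂ} (hc : ‖c‖ < 1) : 0 ≤ qq c := by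
  rw [qq_eq hc]
  have : ‖c‖ ^ 2 ≤ 1 := pow_le_one₀ (norm_nonneg _) hc.le
  exact div_nonneg (by linarith) (by positivity)

theorem qq_le {c : ℂ} (hc : ‖c‖ < 1) {η : ℝ} (hη : 0 < η) (h : η ≤ ‖1 - c‖) :
    qq c ≤ 2 / η := by
  have h1 : qq c ≤ ‖(1 + c) / (1 - c)‖ := Complex.re_le_norm _
  have h2 : ‖1 + c‖ ≤ 2 := by
    have := norm_add_le (1 : ℂ) c
    rw [norm_one] at this
    linarith
  rw [norm_div] at h1
  exact h1.trans (div_le_div₀ (by norm_num) h2 hη h)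

theorem qq_diff : DifferentiableOn ℂ (fun c : ℂ => (1 + c) / (1 - c)) (ball 0 1) := by
  intro c hc
  have hc' : ‖c‖ < 1 := by simpa using hc
  have h1 : DifferentiableAt ℂ (fun c : ℂ => 1 + c) c := by fun_prop
  have h2 : DifferentiableAt ℂ (fun c : ℂ => 1 - c) c := by fun_prop
  exact (h1.div h2 (one_sub_ne hc')).differentiableWithinAt

theorem qq_cont : ContinuousOn qq (ball 0 1) :=
  Complex.continuous_re.comp_continuousOn qq_diff.continuousOn

theorem closedBall_sub {c : ℂ} (hc : ‖c‖ < 1) {r : ℝ} (hr : |r| < 1 - ‖c‖) :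
    closedBall c |r| ⊆ ball 0 1 := by
  intro w hw
  rw [mem_closedBall, dist_eq_norm] at hw
  rw [mem_ball_zero_iff]
  have h1 : ‖w‖ ≤ ‖w - c‖ + ‖c‖ := by
    have := norm_add_le (w - c) c
    simpa using this
  linarith

theorem qq_mean {c : ℂ} (hc : ‖c‖ < 1) {r : ℝ} (hr : |r| < 1 - ‖c‖) :
    circleAverage qq c r = qq c := by
  have hh : HarmonicOnNhd qq (closedBall c |r|) := by
    intro w hw
    have hw' : w ∈ ball (0 : ℂ) 1 := closedBall_sub hc hr hw
    have h1 : AnalyticAt ℂ (fun c : ℂ => (1 + c) / (1 - c)) w :=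
      qq_diff.analyticAt (isOpen_ball.mem_nhds hw')
    exact h1.harmonicAt_re
  exact hh.circleAverage_eq

theorem ev_r {c : ℂ} (hc : ‖c‖ < 1) : ∀ᶠ r : ℝ in 𝓝[>] 0, |r| < 1 - ‖c‖ := by
  have h : Tendsto (fun r : ℝ => |r|) (𝓝[>] 0) (𝓝 0) := by
    have : Tendsto (fun r : ℝ => |r|) (𝓝 0) (𝓝 |0|) := continuous_abs.tendsto 0
    rw [abs_zero] at this
    exact this.mono_left nhdsWithin_le_nhds
  exact h (Iio_mem_nhds (by linarith))

theorem ci_of {U : ℂ → ℝ} {c : ℂ} {r : ℝ} (h : ContinuousOn U (ball 0 1)) (hc : ‖c‖ < 1)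
    (hr : |r| < 1 - ‖c‖) : CircleIntegrable U c r := by
  apply ContinuousOn.circleIntegrable'
  exact h.mono (sphere_subset_closedBall.trans (closedBall_sub hc hr))

theorem supM_qq : SupM qq (ball 0 1) := by
  refine ⟨qq_cont, fun c hc => ?_⟩
  rw [mem_ball_zero_iff] at hc
  filter_upwards [ev_r hc] with r hr
  exact (qq_mean hc hr).le

theorem subM_zero (s : Set ℂ) : SubM (fun _ => (0 : ℝ)) s := by
  refine ⟨continuousOn_const, fun c _ => ?_⟩
  filter_upwards with r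
  rw [circleAverage_const]

theorem supM_min (C : ℝ) : SupM (fun c => min (qq c) C) (ball 0 1) := by
  have hcont : ContinuousOn (fun c => min (qq c) C) (ball 0 1) :=
    continuous_min.comp_continuousOn (qq_cont.prodMk continuousOn_const)
  refine ⟨hcont, fun c hc => ?_⟩
  rw [mem_ball_zero_iff] at hc
  filter_upwards [ev_r hc] with r hr
  refine le_min ?_ ?_
  · rw [← qq_mean hc hr]
    exact circleAverage_mono (ci_of hcont hc hr) (ci_of qq_cont hc hr)
      (fun x _ => min_le_left _ _)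
  · have h1 : circleAverage (fun _ : ℂ => C) c r = C := circleAverage_const _ _ _
    have h2 : circleAverage (fun c => min (qq c) C) c r ≤ circleAverage (fun _ : ℂ => C) c r :=
      circleAverage_mono (ci_of hcont hc hr) (ci_of continuousOn_const hc hr)
        (fun x _ => min_le_right _ _)
    rwa [h1] at h2

theorem subM_max (C : ℝ) : SubM (fun c => max (qq c - C) 0) (ball 0 1) := by
  have hcont : ContinuousOn (fun c => max (qq c - C) 0) (ball 0 1) :=
    continuous_max.comp_continuousOn ((qq_cont.sub continuousOn_const).prodMk continuousOn_const)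
  have hc2 : ContinuousOn (fun c => qq c - C) (ball 0 1) := qq_cont.sub continuousOn_const
  refine ⟨hcont, fun c hc => ?_⟩
  rw [mem_ball_zero_iff] at hc
  filter_upwards [ev_r hc] with r hr
  have h0 : circleAverage (fun _ : ℂ => C) c r = C := circleAverage_const _ _ _
  refine max_le ?_ ?_
  · have h1 : circleAverage (fun x => qq x - C) c r = qq c - C := by
      rw [circleAverage_fun_sub (ci_of qq_cont hc hr) (ci_of continuousOn_const hc hr),
        qq_mean hc hr, h0]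
    rw [← h1]
    exact circleAverage_mono (ci_of hc2 hc hr) (ci_of hcont hc hr) (fun x _ => le_max_left _ _)
  · exact circleAverage_nonneg_of_nonneg (fun x _ => le_max_right _ _)

theorem supM_mono {U : ℂ → ℝ} {s t : Set ℂ} (h : SupM U t) (hst : s ⊆ t) : SupM U s :=
  ⟨h.1.mono hst, fun c hc => h.2 c (hst hc)⟩

theorem subM_mono {U : ℂ → ℝ} {s t : Set ℂ} (h : SubM U t) (hst : s ⊆ t) : SubM U s :=
  ⟨h.1.mono hst, fun c hc => h.2 c (hst hc)⟩

theorem ball_sub' {c : ℂ} : ball c (1 - ‖c‖) ⊆ ball 0 1 := by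
  intro w hw
  rw [mem_ball, dist_eq_norm] at hw
  rw [mem_ball_zero_iff]
  have h1 : ‖w‖ ≤ ‖w - c‖ + ‖c‖ := by
    have := norm_add_le (w - c) c
    simpa using this
  linarith

variable {n : ℕ} {f : Cn n → ℂ} {CV : Set ℂ}

theorem sit_diffAt (h : Sit n f CV) {z : Cn n} (hz : ‖z‖ ≤ 1) : DifferentiableAt ℂ f z := by
  obtain ⟨Ω, hΩ, hsub, hd⟩ := h.an
  exact hd.differentiableAt (hΩ.mem_nhds (hsub (by simpa using hz)))

theorem sit_cont (h : Sit n f CV) : ContinuousOn f (closedBall 0 1) := fun z hz =>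
  (sit_diffAt h (by simpa using hz)).continuousAt.continuousWithinAt

theorem sit_schwarz (h : Sit n f CV) {z : Cn n} (hz : ‖z‖ < 1) : ‖f z‖ ≤ ‖z‖ := by
  refine Complex.norm_le_norm_of_mapsTo_ball (R := 1) ?_ ?_ h.zero hz
  · intro w hw
    exact (sit_diffAt h (by simpa using (mem_ball_zero_iff.1 hw).le)).differentiableWithinAt
  · intro w hw
    exact mem_closedBall_zero_iff.2 (h.lt w (mem_ball_zero_iff.1 hw)).le

/-- the piecewise functions -/
theorem exists_sep (h : Sit n f CV)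
    (hnc : ¬ IsPreconnected {z : Cn n | ‖z‖ = 1 ∧ f z = 1}) :
    ∃ (U U' : Set (Cn n)) (p p' : Cn n) (C : ℝ), IsOpen U ∧ IsOpen U' ∧ Disjoint U U' ∧
      0 ≤ C ∧ p ∈ U ∧ p' ∈ U' ∧ (‖p‖ = 1 ∧ f p = 1) ∧ (‖p'‖ = 1 ∧ f p' = 1) ∧
      ∀ z : Cn n, ‖z‖ < 1 → z ∉ U → z ∉ U' → qq (f z) < C := by
  rw [isPreconnected_closed_iff] at hnc
  push Not at hnc
  obtain ⟨t, t', ht, ht', hsub, ⟨p, hp, hpt⟩, ⟨p', hp', hpt'⟩, hemp⟩ := hnc
  have hZc : IsCompact {z : Cn n | ‖z‖ = 1 ∧ f z = 1} := by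
    have h1 : IsCompact (sphere (0 : Cn n) 1) := isCompact_sphere _ _
    have h2 : ContinuousOn f (sphere (0 : Cn n) 1) :=
      (sit_cont h).mono sphere_subset_closedBall
    have h3 := h2.preimage_isClosed_of_isClosed h1.isClosed (isClosed_singleton (x := (1 : ℂ)))
    have h4 : sphere (0 : Cn n) 1 ∩ f ⁻¹' {1} = {z : Cn n | ‖z‖ = 1 ∧ f z = 1} := by
      ext z
      simp
    rw [← h4]
    exact h1.of_isClosed_subset h3 Set.inter_subset_left
  have hA : IsCompact ({z : Cn n | ‖z‖ = 1 ∧ f z = 1} ∩ t) := hZc.inter_right ht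
  have hA' : IsCompact ({z : Cn n | ‖z‖ = 1 ∧ f z = 1} ∩ t') := hZc.inter_right ht'
  have hdis : Disjoint ({z : Cn n | ‖z‖ = 1 ∧ f z = 1} ∩ t)
      ({z : Cn n | ‖z‖ = 1 ∧ f z = 1} ∩ t') := by
    rw [Set.disjoint_iff]
    rintro z ⟨⟨h1, h2⟩, ⟨_, h3⟩⟩
    have : z ∈ {z : Cn n | ‖z‖ = 1 ∧ f z = 1} ∩ (t ∩ t') := ⟨h1, h2, h3⟩
    rw [hemp] at this
    exact this
  obtain ⟨δ, hδ, hd⟩ := hdis.exists_thickenings hA hA'.isClosed
  set U := thickening δ ({z : Cn n | ‖z‖ = 1 ∧ f z = 1} ∩ t) with hU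
  set U' := thickening δ ({z : Cn n | ‖z‖ = 1 ∧ f z = 1} ∩ t') with hU'
  have hUo : IsOpen U := isOpen_thickening
  have hUo' : IsOpen U' := isOpen_thickening
  have hAU := self_subset_thickening hδ ({z : Cn n | ‖z‖ = 1 ∧ f z = 1} ∩ t)
  have hAU' := self_subset_thickening hδ ({z : Cn n | ‖z‖ = 1 ∧ f z = 1} ∩ t')
  have hK : IsCompact (closedBall (0 : Cn n) 1 \ (U ∪ U')) :=
    (isCompact_closedBall _ _).diff (hUo.union hUo')
  have hη : ∃ η : ℝ, 0 < η ∧ ∀ z ∈ closedBall (0 : Cn n) 1 \ (U ∪ U'), η ≤ ‖1 - f z‖ := by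
    have hcn : ContinuousOn (fun z => ‖1 - f z‖) (closedBall (0 : Cn n) 1 \ (U ∪ U')) :=
      (continuousOn_const.sub ((sit_cont h).mono Set.sdiff_subset)).norm
    refine hK.exists_forall_le' hcn (a := 0) ?_
    intro z hz
    rw [norm_pos_iff]
    intro h0
    have h1 : f z = 1 := (sub_eq_zero.1 h0).symm
    have hz1 : ‖z‖ ≤ 1 := by simpa using hz.1
    rcases lt_or_eq_of_le hz1 with h2 | h2
    · have := h.lt z h2
      rw [h1, norm_one] at this
      exact lt_irrefl _ this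
    · apply hz.2
      have hmem : z ∈ {z : Cn n | ‖z‖ = 1 ∧ f z = 1} := ⟨h2, h1⟩
      rcases hsub hmem with h3 | h3
      · exact Or.inl (hAU ⟨hmem, h3⟩)
      · exact Or.inr (hAU' ⟨hmem, h3⟩)
  obtain ⟨η, hη0, hη1⟩ := hη
  refine ⟨U, U', p, p', 2 / η + 1, hUo, hUo', hd, by positivity, hAU ⟨hp, hpt⟩,
    hAU' ⟨hp', hpt'⟩, hp, hp', ?_⟩
  intro z hz hzU hzU'
  have h1 : η ≤ ‖1 - f z‖ := hη1 z ⟨by simpa using hz.le, fun hh => hh.elim hzU hzU'⟩
  have h2 := qq_le (h.lt z hz) hη0 h1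
  linarith

open Classical in
/-- the upper barrier -/
def HH (f : Cn n → ℂ) (U' : Set (Cn n)) (C : ℝ) (z : Cn n) : ℝ :=
  if z ∈ U' ∧ C < qq (f z) then C else qq (f z)

open Classical in
/-- the lower barrier -/
def UU (f : Cn n → ℂ) (U : Set (Cn n)) (C : ℝ) (z : Cn n) : ℝ :=
  if z ∈ U ∧ C < qq (f z) then qq (f z) - C else 0

/-- the side does not change along a leaf -/
theorem side {U U' : Set (Cn n)} {C : ℝ} (hU : IsOpen U) (hU' : IsOpen U')
    (hd : Disjoint U U') (hC : ∀ z : Cn n, ‖z‖ < 1 → z ∉ U → z ∉ U' → qq (f z) < C)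
    {z z' : Cn n} (hL : Leaf f z z') (hq : C < qq (f z)) :
    (z ∈ U ↔ z' ∈ U) ∧ (z ∈ U' ↔ z' ∈ U') := by
  obtain ⟨γ, hγ⟩ := hL
  have hpc : IsPreconnected (Set.range γ) := isPreconnected_range γ.continuous
  have hsub : Set.range γ ⊆ U ∪ U' := by
    rintro _ ⟨t, rfl⟩
    have h1 := hγ t
    by_contra hcon
    rw [Set.mem_union, not_or] at hcon
    have h2 := hC _ h1.1 hcon.1 hcon.2
    rw [h1.2] at h2
    exact lt_asymm hq h2
  have hz : z ∈ Set.range γ := ⟨0, γ.source⟩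
  have hz' : z' ∈ Set.range γ := ⟨1, γ.target⟩
  rcases hpc.subset_or_subset hU hU' hd hsub with h | h
  · have h1 := h hz
    have h2 := h hz'
    exact ⟨⟨fun _ => h2, fun _ => h1⟩, ⟨fun h3 => (Set.disjoint_left.1 hd h1 h3).elim,
      fun h3 => (Set.disjoint_left.1 hd h2 h3).elim⟩⟩
  · have h1 := h hz
    have h2 := h hz'
    exact ⟨⟨fun h3 => (Set.disjoint_left.1 hd h3 h1).elim,
      fun h3 => (Set.disjoint_left.1 hd h3 h2).elim⟩, ⟨fun _ => h2, fun _ => h1⟩⟩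

theorem leaf_fib {z z' : Cn n} (hL : Leaf f z z') : f z' = f z := by
  obtain ⟨γ, hγ⟩ := hL
  have := (hγ 1).2
  rwa [γ.target] at this

theorem supF_HH (h : Sit n f CV) {U U' : Set (Cn n)} {C : ℝ} (hU : IsOpen U) (hU' : IsOpen U')
    (hd : Disjoint U U') (hC : ∀ z : Cn n, ‖z‖ < 1 → z ∉ U → z ∉ U' → qq (f z) < C) :
    SupF f CV (HH f U' C) := by
  classical
  refine ⟨?_, ?_⟩
  · intro z z' _ _ hL
    have hf := leaf_fib hL
    unfold HH
    by_cases hq : C < qq (f z)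
    · have hs := side hU hU' hd hC hL hq
      rw [hf]
      by_cases hz : z ∈ U'
      · rw [if_pos ⟨hz, hq⟩, if_pos ⟨hs.2.1 hz, hq⟩]
      · rw [if_neg (fun hh => hz hh.1), if_neg (fun hh => hz (hs.2.2 hh.1))]
    · rw [hf, if_neg (fun hh => hq hh.2), if_neg (fun hh => hq hh.2)]
  · intro z0 hz0 _
    have hf0 : ‖f z0‖ < 1 := h.lt z0 hz0
    have hcf : ContinuousAt f z0 := (sit_diffAt h hz0.le).continuousAt
    have hqf : ContinuousAt (fun z => qq (f z)) z0 :=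
      ContinuousAt.comp (f := f) (g := qq)
        (qq_cont.continuousAt (isOpen_ball.mem_nhds (by simpa using hf0))) hcf
    refine ⟨1 - ‖f z0‖, by linarith, ?_⟩
    by_cases hz : z0 ∈ U'
    · refine ⟨fun c => min (qq c) C, supM_mono (supM_min C) ball_sub', ?_⟩
      filter_upwards [hU'.mem_nhds hz] with z hzU
      unfold HH
      by_cases hq : C < qq (f z)
      · rw [if_pos ⟨hzU, hq⟩, min_eq_right hq.le]
      · rw [if_neg (fun hh => hq hh.2), min_eq_left (not_lt.1 hq)]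
    · refine ⟨qq, supM_mono supM_qq ball_sub', ?_⟩
      by_cases hzU : z0 ∈ U
      · filter_upwards [hU.mem_nhds hzU] with z hz1
        unfold HH
        rw [if_neg (fun hh => Set.disjoint_left.1 hd hz1 hh.1)]
      · have h1 := hC z0 hz0 hzU hz
        filter_upwards [hqf.eventually_lt_const h1] with z hz1
        unfold HH
        rw [if_neg (fun hh => lt_asymm hz1 hh.2)]

theorem subF_UU (h : Sit n f CV) {U U' : Set (Cn n)} {C : ℝ} (hU : IsOpen U) (hU' : IsOpen U')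
    (hd : Disjoint U U') (hC : ∀ z : Cn n, ‖z‖ < 1 → z ∉ U → z ∉ U' → qq (f z) < C) :
    SubF f CV (UU f U C) := by
  classical
  refine ⟨?_, ?_⟩
  · intro z z' _ _ hL
    have hf := leaf_fib hL
    unfold UU
    by_cases hq : C < qq (f z)
    · have hs := side hU hU' hd hC hL hq
      rw [hf]
      by_cases hz : z ∈ U
      · rw [if_pos ⟨hz, hq⟩, if_pos ⟨hs.1.1 hz, hq⟩]
      · rw [if_neg (fun hh => hz hh.1), if_neg (fun hh => hz (hs.1.2 hh.1))]
    · rw [hf, if_neg (fun hh => hq hh.2), if_neg (fun hh => hq hh.2)]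
  · intro z0 hz0 _
    have hf0 : ‖f z0‖ < 1 := h.lt z0 hz0
    have hcf : ContinuousAt f z0 := (sit_diffAt h hz0.le).continuousAt
    have hqf : ContinuousAt (fun z => qq (f z)) z0 :=
      ContinuousAt.comp (f := f) (g := qq)
        (qq_cont.continuousAt (isOpen_ball.mem_nhds (by simpa using hf0))) hcf
    refine ⟨1 - ‖f z0‖, by linarith, ?_⟩
    by_cases hz : z0 ∈ U
    · refine ⟨fun c => max (qq c - C) 0, subM_mono (subM_max C) ball_sub', ?_⟩
      filter_upwards [hU.mem_nhds hz] with z hzU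
      unfold UU
      by_cases hq : C < qq (f z)
      · rw [if_pos ⟨hzU, hq⟩, max_eq_left (by linarith)]
      · rw [if_neg (fun hh => hq hh.2), max_eq_right (by linarith [not_lt.1 hq])]
    · refine ⟨fun _ => 0, subM_zero _, ?_⟩
      by_cases hzU : z0 ∈ U'
      · filter_upwards [hU'.mem_nhds hzU] with z hz1
        unfold UU
        rw [if_neg (fun hh => Set.disjoint_left.1 hd hh.1 hz1)]
      · have h1 := hC z0 hz0 hz hzU
        filter_upwards [hqf.eventually_lt_const h1] with z hz1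
        unfold UU
        rw [if_neg (fun hh => lt_asymm hz1 hh.2)]

/-- along the radius of a point of `{f = 1}` the function `qq ∘ f` is unbounded -/
theorem radial_big (h : Sit n f CV) {p : Cn n} (hp : ‖p‖ = 1) (hfp : f p = 1) {U : Set (Cn n)}
    (hU : IsOpen U) (hpU : p ∈ U) (M : ℝ) :
    ∃ z : Cn n, ‖z‖ < 1 ∧ z ∈ U ∧ f z ∉ CV ∧ M < qq (f z) := by
  -- the points `(1-t) p`
  have hdp : DifferentiableAt ℂ f p := sit_diffAt h hp.le
  have hlip : (fun x => f x - f p) =O[𝓝 p] (fun x => x - p) := hdp.isBigO_sub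
  obtain ⟨L, hL0, hL⟩ := hlip.exists_pos
  rw [Asymptotics.IsBigOWith] at hL
  have htend : Tendsto (fun t : ℝ => (1 - (t : ℂ)) • p) (𝓝[>] 0) (𝓝 p) := by
    have : Continuous (fun t : ℝ => (1 - (t : ℂ)) • p) := by fun_prop
    have h1 := this.tendsto 0
    simp only [Complex.ofReal_zero, sub_zero, one_smul] at h1
    exact h1.mono_left nhdsWithin_le_nhds
  have hfc : ContinuousAt f p := hdp.continuousAt
  have hCVn : ∀ᶠ x in 𝓝 p, f x ∉ CV := by
    have h1 : CVᶜ ∈ 𝓝 (f p) := by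
      refine h.fin.isClosed.isOpen_compl.mem_nhds ?_
      rw [hfp]
      intro h2
      have := mem_ball_zero_iff.1 (h.sub h2)
      rw [norm_one] at this
      exact lt_irrefl _ this
    exact hfc h1
  have ht1 : ∀ᶠ t : ℝ in 𝓝[>] 0, 0 < t := self_mem_nhdsWithin
  have ht2 : ∀ᶠ t : ℝ in 𝓝[>] 0, t < 1 := nhdsWithin_le_nhds (Iio_mem_nhds one_pos)
  have ht3 : ∀ᶠ t : ℝ in 𝓝[>] 0, t * (L ^ 2 * (|M| + 1)) < 1 := by
    have h1 : Continuous (fun t : ℝ => t * (L ^ 2 * (|M| + 1))) := by fun_prop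
    have h2 := h1.tendsto 0
    rw [zero_mul] at h2
    exact nhdsWithin_le_nhds (h2 (Iio_mem_nhds one_pos))
  obtain ⟨t, h1, h2, h3, h4, h5, h6⟩ := (ht1.and (ht2.and (ht3.and ((htend.eventually hL).and
    ((htend.eventually (hU.mem_nhds hpU)).and (htend.eventually hCVn)))))).exists
  have hnz : ‖(1 - (t : ℂ)) • p‖ = 1 - t := by
    rw [norm_smul, hp, mul_one]
    have : (1 - (t : ℂ)) = ((1 - t : ℝ) : ℂ) := by push_cast; ring
    rw [this, Complex.norm_real, Real.norm_of_nonneg (by linarith)]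
  have hlt : ‖(1 - (t : ℂ)) • p‖ < 1 := by rw [hnz]; linarith
  refine ⟨(1 - (t : ℂ)) • p, hlt, h5, h6, ?_⟩
  have hs := sit_schwarz h hlt
  rw [hnz] at hs
  have hd : ‖(1 - (t : ℂ)) • p - p‖ = t := by
    have : (1 - (t : ℂ)) • p - p = (-(t : ℂ)) • p := by
      rw [sub_smul, one_smul, neg_smul]
      abel
    rw [this, norm_smul, hp, mul_one, norm_neg, Complex.norm_real, Real.norm_of_nonneg h1.le]
  rw [hd, hfp] at h4
  have h7 : ‖1 - f ((1 - (t : ℂ)) • p)‖ ≤ L * t := by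
    rw [norm_sub_rev]
    exact h4
  have hfl := h.lt _ hlt
  rw [qq_eq hfl]
  set w := f ((1 - (t : ℂ)) • p) with hw
  have h8 : 0 < ‖1 - w‖ := norm_pos_iff.2 (one_sub_ne hfl)
  rw [lt_div_iff₀ (by positivity)]
  have h9 : ‖1 - w‖ ^ 2 ≤ (L * t) ^ 2 := pow_le_pow_left₀ h8.le h7 2
  have h10 : ‖w‖ ^ 2 ≤ (1 - t) ^ 2 := pow_le_pow_left₀ (norm_nonneg _) hs 2
  have h11 : M * ‖1 - w‖ ^ 2 ≤ (|M| + 1) * (L * t) ^ 2 := by
    have h12 : M * ‖1 - w‖ ^ 2 ≤ (|M| + 1) * ‖1 - w‖ ^ 2 :=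
      mul_le_mul_of_nonneg_right (by linarith [le_abs_self M]) (by positivity)
    exact h12.trans (mul_le_mul_of_nonneg_left h9 (by positivity))
  have h13 : (|M| + 1) * (L * t) ^ 2 = (t * (L ^ 2 * (|M| + 1))) * t := by ring
  have h14 : (t * (L ^ 2 * (|M| + 1))) * t < 1 * t := mul_lt_mul_of_pos_right h3 h1
  nlinarith

theorem split_row : SPLIT := by
  intro n f CV h hnc
  classical
  obtain ⟨U, U', p, p', C, hU, hU', hd, hC0, hpU, hpU', hp, hp', hC⟩ := exists_sep h hnc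
  refine ⟨HH f U' C, UU f U C, C, supF_HH h hU hU' hd hC, subF_UU h hU hU' hd hC, ?_, ?_, ?_⟩
  · intro z hz
    have hq : (gf f z).re = qq (f z) := rfl
    have hqn : 0 ≤ qq (f z) := qq_nonneg (h.lt z hz)
    rw [hq]
    unfold UU HH
    by_cases h1 : z ∈ U ∧ C < qq (f z)
    · have h2 : z ∉ U' := fun h3 => Set.disjoint_left.1 hd h1.1 h3
      rw [if_pos h1, if_neg (fun hh => h2 hh.1)]
      exact ⟨by linarith [h1.2], by linarith, le_rfl⟩
    · rw [if_neg h1]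
      by_cases h2 : z ∈ U' ∧ C < qq (f z)
      · rw [if_pos h2]
        exact ⟨le_rfl, hC0, h2.2.le⟩
      · rw [if_neg h2]
        exact ⟨le_rfl, hqn, le_rfl⟩
  · intro M
    obtain ⟨z, hz, hzU, hzC, hzM⟩ := radial_big h hp.1 hp.2 hU hpU (max M C)
    refine ⟨z, hz, hzC, lt_of_le_of_lt (le_max_left _ _) hzM, ?_⟩
    have h1 : C < qq (f z) := lt_of_le_of_lt (le_max_right _ _) hzM
    have hq : (gf f z).re = qq (f z) := rfl
    rw [hq]
    unfold UU
    rw [if_pos ⟨hzU, h1⟩]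
  · intro M
    obtain ⟨z, hz, hzU, hzC, hzM⟩ := radial_big h hp'.1 hp'.2 hU' hpU' (max M C)
    refine ⟨z, hz, hzC, lt_of_le_of_lt (le_max_left _ _) hzM, ?_⟩
    have h1 : C < qq (f z) := lt_of_le_of_lt (le_max_right _ _) hzM
    unfold HH
    rw [if_pos ⟨hzU, h1⟩]

end

end Pool.Agent.Lib.MP_6ff8d9_an.H99
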