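import Pool.Agent.Lib.MP_6ff8d9_an_h99.AdChart
import Pool.Agent.Lib.MP_6ff8d9_an_h99.LocalRow

/-!
# LEAF and LIFT: near a contact point `k` is a function of `F`
-/

open Metric Filter Topology MvPolynomial
open scoped ComplexConjugate

namespace Pool.Agent.Lib.MP_6ff8d9_an.H99

open Pool.Agent.Lib.MP_6ff8d9_an.H22

noncomputable section

variable {n : ℕ} {F : (Fin n → ℂ) → ℂ} {Ψ : (Fin n → ℂ) → (Fin n → ℂ)} {ζ : Fin n → ℂ}

lemma norm_exp_I_mul (s : ℂ) : ‖Complex.exp (Complex.I * s)‖ = Real.exp (-s.im) := by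
  rw [Complex.norm_exp]
  congr 1
  simp

/-- the coordinate `-i log (w / F ζ)` -/
def sc (c w : ℂ) : ℂ := -Complex.I * Complex.log (w / c)

lemma sc_tendsto {c : ℂ} (hc : c ≠ 0) : Tendsto (sc c) (𝓝 c) (𝓝 0) := by
  have h1 : ContinuousAt (sc c) c := by
    have h2 : ContinuousAt (fun w : ℂ => w / c) c := continuousAt_id.div_const _
    have h3 : c / c ∈ Complex.slitPlane := by
      rw [div_self hc]
      exact Complex.one_mem_slitPlane
    exact (h2.clog h3).const_mul _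
  have h4 := h1.tendsto
  have h5 : sc c c = 0 := by
    unfold sc
    rw [div_self hc, Complex.log_one, mul_zero]
  rwa [h5] at h4

lemma exp_sc {c w : ℂ} (hc : c ≠ 0) (hw : w ≠ 0) :
    c * Complex.exp (Complex.I * sc c w) = w := by
  have h1 : Complex.I * sc c w = Complex.log (w / c) := by
    unfold sc
    linear_combination (-Complex.log (w / c)) * Complex.I_mul_I
  rw [h1, Complex.exp_log (div_ne_zero hw hc)]
  field_simp

lemma sc_im_pos {c w : ℂ} (hc : ‖c‖ = 1) (hw0 : w ≠ 0) (hw : ‖w‖ < 1) : 0 < (sc c w).im := by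
  have h0 : c ≠ 0 := by
    intro h
    rw [h, norm_zero] at hc
    exact zero_ne_one hc
  have h1 : (sc c w).im = -Real.log ‖w‖ := by
    unfold sc
    rw [Complex.mul_im]
    simp [Complex.log_re, norm_div, hc]
  rw [h1]
  have := Real.log_neg (norm_pos_iff.2 hw0) hw
  linarith

lemma sc_exp {c s : ℂ} (hc : c ≠ 0) (h1 : -Real.pi < s.re) (h2 : s.re ≤ Real.pi) :
    sc c (c * Complex.exp (Complex.I * s)) = s := by
  unfold sc
  rw [mul_div_cancel_left₀ _ hc, Complex.log_exp]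
  · linear_combination (-s) * Complex.I_mul_I
  · simpa using h1
  · simpa using h2

/-- points of the complex line through `0` in the direction `u` -/
lemma smul_eq_pt (u : Fin n → ℂ) (s : ℂ) : s • u = pt ((s.re : ℂ) • u) u s.im := by
  unfold pt
  rw [← add_smul, Complex.re_add_im]

/-- the complex line enters the ball -/
lemma Contact.line_in_ball (hC : Contact F Ψ ζ) (a : AdChart F Ψ ζ) :
    ∃ r > 0, ∀ s : ℂ, ‖s‖ < r → 0 < s.im → a.Θ (s • a.u) ∈ Bl n := by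
  obtain ⟨c₁, hc₁, C₂, hC₂, δ₀, hδ₀, hδ₀1, hcone⟩ := hC.cone a.toSymChart a.uim
  refine ⟨min δ₀ (δ₀ / (‖a.u‖ + 1)), by positivity, fun s hs hs0 => ?_⟩
  have h1 : |s.im| ≤ ‖s‖ := Complex.abs_im_le_norm s
  have h2 : |s.re| ≤ ‖s‖ := Complex.abs_re_le_norm s
  have h3 : ‖(s.re : ℂ) • a.u‖ < δ₀ := by
    rw [norm_smul, Complex.norm_real, Real.norm_eq_abs]
    have h4 : |s.re| < δ₀ / (‖a.u‖ + 1) := h2.trans_lt (hs.trans_le (min_le_right _ _))
    have h5 : 0 < ‖a.u‖ + 1 := by positivity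
    rw [lt_div_iff₀ h5] at h4
    nlinarith [abs_nonneg s.re, norm_nonneg a.u]
  have h4 := (hcone _ a.u (real_smul a.u_real s.re) a.u_real h3
    (by rw [sub_self, norm_zero]; exact hδ₀) s.im hs0
    ((le_abs_self _).trans_lt (h1.trans_lt (hs.trans_le (min_le_left _ _))))).1
  rw [← smul_eq_pt] at h4
  show ∑ i, ‖a.Θ (s • a.u) i‖ ^ 2 < 1
  have : 0 < c₁ * s.im := by positivity
  linarith

/-- **LEAF (abstract).** -/
theorem Contact.leaf (hC : Contact F Ψ ζ) (a : AdChart F Ψ ζ)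
    (hlt : ∀ z : Fin n → ℂ, ∑ i, ‖z i‖ ^ 2 < 1 → ‖F z‖ < 1)
    (hFd : DifferentiableOn ℂ F (Bl n)) {k : (Fin n → ℂ) → ℂ}
    (hk : DifferentiableOn ℂ k (Bl n))
    (hw : ∀ᶠ z in 𝓝 ζ, z ∈ Bl n → ∀ v, fderiv ℂ F z v = 0 → fderiv ℂ k z v = 0) :
    ∃ δ > 0, ∃ L : ℂ → ℂ, DifferentiableOn ℂ L (ball (F ζ) δ ∩ ball 0 1) ∧
      (∃ δ' > 0, ∀ z ∈ Bl n, dist z ζ < δ' → F z ∈ ball (F ζ) δ ∧ k z = L (F z)) ∧
      (∀ w ∈ ball (F ζ) δ ∩ ball (0 : ℂ) 1, ∃ z ∈ Bl n, F z = w ∧ k z = L w) := by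
  have hF0 : F ζ ≠ 0 := by
    intro h
    have := hC.norm1
    rw [h, norm_zero] at this
    exact zero_ne_one this
  have hΘt : Tendsto a.Θ (𝓝 0) (𝓝 ζ) := by
    have := a.dΘ.hasFDerivAt.continuousAt.tendsto
    rwa [a.Θ0] at this
  obtain ⟨r, hr, hline⟩ := hC.line_in_ball a
  have hsu : Tendsto (fun s : ℂ => s • a.u) (𝓝 0) (𝓝 0) := by
    have h1 : Continuous fun s : ℂ => s • a.u := by fun_prop
    have := h1.tendsto 0
    simpa using this
  -- facts near `0` in the line coordinate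
  have hs1 : ∀ᶠ s : ℂ in 𝓝 0, ‖s‖ < r ∧ DifferentiableAt ℂ a.Θ (s • a.u) ∧
      F (a.Θ (s • a.u)) = F ζ * Complex.exp (Complex.I * a.ℓ (s • a.u)) := by
    have h1 : ∀ᶠ s : ℂ in 𝓝 0, ‖s‖ < r := by
      have := (continuous_norm.tendsto (0 : ℂ)).eventually_lt_const
        (show ‖(0 : ℂ)‖ < r by rw [norm_zero]; exact hr)
      exact this
    exact h1.and ((hsu.eventually a.hΘ).and (hsu.eventually a.expF))
  have hℓs : ∀ s : ℂ, a.ℓ (s • a.u) = s := by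
    intro s
    rw [map_smul, a.ℓu, smul_eq_mul, mul_one]
  -- the radius of the disc
  have hw1 : ∀ᶠ w : ℂ in 𝓝 (F ζ), (‖sc (F ζ) w‖ < r ∧
      DifferentiableAt ℂ a.Θ (sc (F ζ) w • a.u) ∧
      F (a.Θ (sc (F ζ) w • a.u)) =
        F ζ * Complex.exp (Complex.I * a.ℓ (sc (F ζ) w • a.u))) ∧ w ≠ 0 ∧
      w / F ζ ∈ Complex.slitPlane := by
    have h1 : ContinuousAt (fun w : ℂ => w / F ζ) (F ζ) := continuousAt_id.div_const _
    have h3 : F ζ / F ζ ∈ Complex.slitPlane := by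
      rw [div_self hF0]
      exact Complex.one_mem_slitPlane
    exact ((sc_tendsto hF0).eventually hs1).and ((eventually_ne_nhds hF0).and
      (h1.tendsto.eventually (Complex.isOpen_slitPlane.mem_nhds h3)))
  obtain ⟨δ, hδ, hδw⟩ := Metric.eventually_nhds_iff_ball.1 hw1
  set L : ℂ → ℂ := fun w => k (a.Θ (sc (F ζ) w • a.u)) with hL
  have hin : ∀ w ∈ ball (F ζ) δ ∩ ball (0 : ℂ) 1, a.Θ (sc (F ζ) w • a.u) ∈ Bl n := by
    intro w hw'
    obtain ⟨⟨h1, -, -⟩, h2, -⟩ := hδw w hw'.1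
    exact hline _ h1 (sc_im_pos hC.norm1 h2 (by simpa using hw'.2))
  have hLd : DifferentiableOn ℂ L (ball (F ζ) δ ∩ ball 0 1) := by
    intro w hw'
    obtain ⟨⟨h1, h4, -⟩, h2, h3⟩ := hδw w hw'.1
    have h5 : DifferentiableAt ℂ (sc (F ζ)) w := by
      have h6 : DifferentiableAt ℂ (fun w : ℂ => w / F ζ) w := differentiableAt_id.div_const _
      exact (h6.clog h3).const_mul _
    have h6 : DifferentiableAt ℂ (fun w => sc (F ζ) w • a.u) w := h5.smul_const a.u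
    have h7 : DifferentiableAt ℂ k (a.Θ (sc (F ζ) w • a.u)) :=
      (hk _ (hin w hw')).differentiableAt ((isOpen_Bl n).mem_nhds (hin w hw'))
    exact (h7.comp w (h4.comp w h6)).differentiableWithinAt
  have hFw : ∀ w ∈ ball (F ζ) δ, F (a.Θ (sc (F ζ) w • a.u)) = w := by
    intro w hw'
    obtain ⟨⟨-, -, h1⟩, h2, -⟩ := hδw w hw'
    rw [h1, hℓs, exp_sc hF0 h2]
  refine ⟨δ, hδ, L, hLd, ?_, fun w hw' => ⟨_, hin w hw', hFw w hw'.1, rfl⟩⟩
  -- the neighbourhood of `ζ`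
  have hFc : ContinuousAt F ζ := hC.cdF.continuousAt
  obtain ⟨δ', hδ', hδz⟩ := Metric.eventually_nhds_iff_ball.1
    (hFc.tendsto.eventually (ball_mem_nhds (F ζ) hδ))
  refine ⟨δ', hδ', fun z hz hzd => ⟨hδz z hzd, ?_⟩⟩
  -- facts near `0`
  have nF : ∀ᶠ z in 𝓝 ζ, DifferentiableAt ℂ F z :=
    (hC.cdF.eventually (by norm_num)).mono fun z hz => hz.differentiableAt (by norm_num)
  have ny : ∀ᶠ y in 𝓝 (0 : Fin n → ℂ), (DifferentiableAt ℂ a.Θ y ∧
      (∀ᶠ y' in 𝓝 y, F (a.Θ y') = F ζ * Complex.exp (Complex.I * a.ℓ y')) ∧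
      DifferentiableAt ℂ F (a.Θ y) ∧ ‖a.ℓ y‖ < 1 ∧
      (a.Θ y ∈ Bl n → ∀ v, fderiv ℂ F (a.Θ y) v = 0 → fderiv ℂ k (a.Θ y) v = 0)) := by
    have h1 : ∀ᶠ y in 𝓝 (0 : Fin n → ℂ), ‖a.ℓ y‖ < 1 := by
      have h2 : Continuous fun y => ‖a.ℓ y‖ := a.ℓ.continuous.norm
      exact (h2.tendsto 0).eventually_lt_const (by rw [map_zero, norm_zero]; exact one_pos)
    exact a.hΘ.and (a.expF.eventually_nhds.and ((hΘt.eventually nF).and
      (h1.and (hΘt.eventually hw))))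
  have ny2 : ∀ᶠ y in 𝓝 (0 : Fin n → ℂ), (∀ᶠ z in 𝓝 (a.Θ y), a.Θ (a.h z) = z) ∧
      DifferentiableAt ℂ a.h (a.Θ y) ∧ a.h (a.Θ y) = y ∧ dist (a.Θ y) ζ < δ' :=
    (hΘt.eventually a.left.eventually_nhds).and ((hΘt.eventually a.hh).and (a.right.and
      (hΘt.eventually (ball_mem_nhds ζ hδ'))))
  -- the base point `t₀ i u`
  obtain ⟨t₀, ht₀, htr, hg⟩ : ∃ t₀ : ℝ, 0 < t₀ ∧ t₀ < r ∧
      ((∀ᶠ y in 𝓝 (((t₀ : ℂ) * Complex.I) • a.u), (DifferentiableAt ℂ a.Θ y ∧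
      (∀ᶠ y' in 𝓝 y, F (a.Θ y') = F ζ * Complex.exp (Complex.I * a.ℓ y')) ∧
      DifferentiableAt ℂ F (a.Θ y) ∧ ‖a.ℓ y‖ < 1 ∧
      (a.Θ y ∈ Bl n → ∀ v, fderiv ℂ F (a.Θ y) v = 0 → fderiv ℂ k (a.Θ y) v = 0))) ∧
      ((∀ᶠ z in 𝓝 (a.Θ (((t₀ : ℂ) * Complex.I) • a.u)), a.Θ (a.h z) = z) ∧
      DifferentiableAt ℂ a.h (a.Θ (((t₀ : ℂ) * Complex.I) • a.u)) ∧
      a.h (a.Θ (((t₀ : ℂ) * Complex.I) • a.u)) = ((t₀ : ℂ) * Complex.I) • a.u ∧
      dist (a.Θ (((t₀ : ℂ) * Complex.I) • a.u)) ζ < δ')) := by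
    have h1 : Tendsto (fun t : ℝ => ((t : ℂ) * Complex.I) • a.u) (𝓝 0) (𝓝 0) := by
      have h2 : Continuous fun t : ℝ => ((t : ℂ) * Complex.I) • a.u := by fun_prop
      have := h2.tendsto 0
      simpa using this
    have h2 := (h1.eventually (ny.eventually_nhds.and ny2))
    have h3 : ∀ᶠ t : ℝ in 𝓝 0, t < r := eventually_lt_nhds hr
    have h4 : ∀ᶠ t : ℝ in 𝓝[>] 0, 0 < t := self_mem_nhdsWithin
    obtain ⟨t, ⟨h5, h6⟩, h7⟩ := (((h2.and h3).filter_mono nhdsWithin_le_nhds).and h4).exists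
    exact ⟨t, h7, h6, h5⟩
  set y₀ : Fin n → ℂ := ((t₀ : ℂ) * Complex.I) • a.u with hy₀
  obtain ⟨g1, g2, g3, g4, g5⟩ := hg
  have hy₀B : a.Θ y₀ ∈ Bl n := by
    refine hline _ ?_ ?_
    · rw [norm_mul, Complex.norm_I, mul_one, Complex.norm_real, Real.norm_of_nonneg ht₀.le]
      exact htr
    · simpa using ht₀
  have hℓy₀ : a.ℓ y₀ • a.u = y₀ := by rw [hy₀, hℓs]
  -- near `y₀` everything is nice
  have hΘc : ContinuousAt a.Θ y₀ := g1.self_of_nhds.1.continuousAt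
  obtain ⟨ρ, hρ, hball⟩ := Metric.eventually_nhds_iff_ball.1
    (g1.and (hΘc.tendsto.eventually ((isOpen_Bl n).mem_nhds hy₀B)))
  -- `k ∘ Θ` only depends on `ℓ`
  have hconst : ∀ y ∈ ball y₀ ρ, a.ℓ y • a.u ∈ ball y₀ ρ →
      k (a.Θ y) = k (a.Θ (a.ℓ y • a.u)) := by
    intro y hy hy'
    set v : Fin n → ℂ := y - a.ℓ y • a.u with hv
    have hℓv : a.ℓ v = 0 := by rw [hv, map_sub, hℓs, sub_self]
    have hseg : ∀ t ∈ Set.Icc (0 : ℝ) 1, a.ℓ y • a.u + (t : ℂ) • v ∈ ball y₀ ρ := by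
      intro t ht
      have h1 := (convex_ball y₀ ρ) hy' hy (a := 1 - t) (b := t) (by linarith [ht.2]) ht.1
        (by ring)
      convert h1 using 1
      have h2 : ∀ x : Fin n → ℂ, (t : ℝ) • x = (t : ℂ) • x := fun x => by
        rw [← Complex.coe_smul]
      rw [sub_smul, one_smul, h2, h2, hv, smul_sub]
      abel
    have hder : ∀ t ∈ Set.Icc (0 : ℝ) 1, HasDerivWithinAt
        (fun t : ℝ => k (a.Θ (a.ℓ y • a.u + (t : ℂ) • v))) 0 (Set.Icc 0 1) t := by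
      intro t ht
      obtain ⟨⟨e1, e2, e3, -, e4⟩, e5⟩ := hball _ (hseg t ht)
      set y' := a.ℓ y • a.u + (t : ℂ) • v with hy'd
      have hΘ' := e1.hasFDerivAt
      have hF' : fderiv ℂ F (a.Θ y') (fderiv ℂ a.Θ y' v) = 0 := by
        have h1 : HasFDerivAt (fun y => F (a.Θ y))
            ((fderiv ℂ F (a.Θ y')).comp (fderiv ℂ a.Θ y')) y' := e3.hasFDerivAt.comp y' hΘ'
        have h2 : HasFDerivAt (fun y => F ζ * Complex.exp (Complex.I * a.ℓ y))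
            (F ζ • (Complex.exp (Complex.I * a.ℓ y') • (Complex.I • a.ℓ))) y' := by
          have h3 : HasFDerivAt (fun y => Complex.I * a.ℓ y) (Complex.I • a.ℓ) y' :=
            a.ℓ.hasFDerivAt.const_mul Complex.I
          exact (h3.cexp).const_mul (F ζ)
        have h3 := h1.unique (h2.congr_of_eventuallyEq e2)
        have h4 := congrArg (fun T : (Fin n → ℂ) →L[ℂ] ℂ => T v) h3
        have h5 : (F ζ • (Complex.exp (Complex.I * a.ℓ y') • (Complex.I • a.ℓ))) v =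
            F ζ * (Complex.exp (Complex.I * a.ℓ y') * (Complex.I * a.ℓ v)) := rfl
        have h6 : fderiv ℂ F (a.Θ y') (fderiv ℂ a.Θ y' v) =
            F ζ * (Complex.exp (Complex.I * a.ℓ y') * (Complex.I * a.ℓ v)) := h4
        rw [h6, hℓv, mul_zero, mul_zero, mul_zero]
      have hk' := e4 e5 _ hF'
      have hkd : HasFDerivAt k (fderiv ℂ k (a.Θ y')) (a.Θ y') :=
        ((hk _ e5).differentiableAt ((isOpen_Bl n).mem_nhds e5)).hasFDerivAt
      have h1 : HasFDerivAt (𝕜 := ℝ) (fun y => k (a.Θ y))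
          (((fderiv ℂ k (a.Θ y')).comp (fderiv ℂ a.Θ y')).restrictScalars ℝ) y' :=
        (hkd.comp y' hΘ').restrictScalars ℝ
      have h2 : HasDerivAt (fun t : ℝ => a.ℓ y • a.u + (t : ℂ) • v) v t := by
        have h3 : HasDerivAt (fun t : ℝ => (t : ℂ)) 1 t := Complex.ofRealCLM.hasDerivAt
        simpa using (h3.smul_const v).const_add (a.ℓ y • a.u)
      have h3 := h1.comp_hasDerivAt t h2
      have h4 : (((fderiv ℂ k (a.Θ y')).comp (fderiv ℂ a.Θ y')).restrictScalars ℝ) v = 0 := hk'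
      rw [h4] at h3
      exact h3.hasDerivWithinAt
    have h1 := norm_image_sub_le_of_norm_deriv_le_segment_01' hder (C := 0)
      (fun t _ => by rw [norm_zero])
    have h2 := norm_le_zero_iff.1 h1
    have h3 : a.ℓ y • a.u + ((1 : ℝ) : ℂ) • v = y := by
      rw [Complex.ofReal_one, one_smul, hv, add_sub_cancel]
    have h4 : a.ℓ y • a.u + ((0 : ℝ) : ℂ) • v = a.ℓ y • a.u := by
      rw [Complex.ofReal_zero, zero_smul, add_zero]
    simp only [h3, h4] at h2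
    exact sub_eq_zero.1 h2
  -- identity theorem
  have hU : IsOpen (Bl n ∩ ball ζ δ') := (isOpen_Bl n).inter isOpen_ball
  have hUc : Convex ℝ (Bl n ∩ ball ζ δ') := (convex_Bn n).inter (convex_ball ζ δ')
  have hmem : ∀ z ∈ Bl n ∩ ball ζ δ', F z ∈ ball (F ζ) δ ∩ ball 0 1 := fun z hz =>
    ⟨hδz z hz.2, by simpa using hlt z hz.1⟩
  have hA : DifferentiableOn ℂ (fun z => k z - L (F z)) (Bl n ∩ ball ζ δ') := by
    refine (hk.mono Set.inter_subset_left).sub ?_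
    exact hLd.comp (hFd.mono Set.inter_subset_left) hmem
  have h0 : ∀ᶠ z in 𝓝 (a.Θ y₀), k z - L (F z) = 0 := by
    have hhc : ContinuousAt a.h (a.Θ y₀) := g3.continuousAt
    have t1 : Tendsto a.h (𝓝 (a.Θ y₀)) (𝓝 y₀) := by
      have := hhc.tendsto
      rwa [g4] at this
    have t2 : Tendsto (fun z => a.ℓ (a.h z) • a.u) (𝓝 (a.Θ y₀)) (𝓝 y₀) := by
      have h1 : Continuous fun y => a.ℓ y • a.u := by fun_prop
      have h2 := (h1.tendsto y₀).comp t1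
      rwa [hℓy₀] at h2
    filter_upwards [g2, t1.eventually (ball_mem_nhds y₀ hρ), t2.eventually (ball_mem_nhds y₀ hρ)]
      with z e1 e2 e3
    have h1 := hconst _ e2 e3
    obtain ⟨⟨-, e4, -, e5, -⟩, -⟩ := hball _ e2
    have h2 := e4.self_of_nhds
    rw [e1] at h1 h2
    have h3 : sc (F ζ) (F z) = a.ℓ (a.h z) := by
      rw [h2]
      have h4 : |(a.ℓ (a.h z)).re| < 1 := (Complex.abs_re_le_norm _).trans_lt e5
      have h5 := abs_lt.1 h4
      have h6 := Real.pi_gt_three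
      exact sc_exp hF0 (by linarith) (by linarith)
    simp only [hL]
    rw [h3, ← h1, sub_self]
  have := ident hU hUc hA ⟨hy₀B, g5⟩ h0 z ⟨hz, hzd⟩
  exact sub_eq_zero.1 this

/-- the wedge condition at one point -/
lemma wedge_apply {P Q : MvPolynomial (Fin n) ℂ} {k : (Fin n → ℂ) → ℂ} {z : Fin n → ℂ}
    (hQ : eval z Q ≠ 0) (hR : eval z (Rr P Q) ≠ 0)
    (hW : ∀ i j, eval z (Wr P Q j) * fderiv ℂ k z (Pi.single i 1) =
      eval z (Wr P Q i) * fderiv ℂ k z (Pi.single j 1))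
    {v : Fin n → ℂ} (hv : fderiv ℂ (fr P Q) z v = 0) : fderiv ℂ k z v = 0 := by
  obtain ⟨j₀, hj₀⟩ : ∃ j, eval z (Wr P Q j) ≠ 0 := by
    by_contra hcon
    push Not at hcon
    apply hR
    rw [eval_Rr]
    exact Finset.sum_eq_zero fun j _ => by rw [hcon, mul_zero]
  have h1 : ∑ j, eval z (Wr P Q j) * v j = 0 := by
    rw [(fderiv_fr hQ v).2, div_eq_zero_iff] at hv
    exact hv.resolve_right (pow_ne_zero 2 hQ)
  have h2 : v = ∑ i, v i • (Pi.single i (1 : ℂ) : Fin n → ℂ) := pi_eq_sum_univ' v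
  have h3 : fderiv ℂ k z v = ∑ i, v i * fderiv ℂ k z (Pi.single i 1) := by
    conv_lhs => rw [h2]
    rw [map_sum]
    refine Finset.sum_congr rfl fun i _ => ?_
    rw [map_smul, smul_eq_mul]
  apply mul_left_cancel₀ hj₀
  rw [mul_zero, h3, Finset.mul_sum]
  calc ∑ i, eval z (Wr P Q j₀) * (v i * fderiv ℂ k z (Pi.single i 1)) =
      ∑ i, (eval z (Wr P Q i) * v i) * fderiv ℂ k z (Pi.single j₀ 1) := by
        refine Finset.sum_congr rfl fun i _ => ?_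
        linear_combination (v i) * hW i j₀
    _ = 0 := by rw [← Finset.sum_mul, h1, zero_mul]

/-- everything at a contact point of a rational function -/
lemma setup (hCon : CONTACT) {P Q : MvPolynomial (Fin n) ℂ} (hA : Adm P Q) (hD : Dual P Q)
    {m : Fin n → ℂ} (hm : m ∈ Ct P Q) :
    Contact (fr P Q) (Ps P Q) m ∧ eval m Q ≠ 0 ∧ eval m (Rr P Q) ≠ 0 ∧
      (∀ z : Fin n → ℂ, ∑ i, ‖z i‖ ^ 2 < 1 → ‖fr P Q z‖ < 1) ∧
      DifferentiableOn ℂ (fr P Q) (Bl n) ∧ Nonempty (AdChart (fr P Q) (Ps P Q) m) := by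
  obtain ⟨h1, b, hb, h2⟩ := hCon n P Q hA m hm
  obtain ⟨hC, hrefl⟩ := contact_of hA hD hm h1 hb h2
  have hQ : eval m Q ≠ 0 := hA.Qne m (le_of_eq hm.1)
  have hP : eval m P ≠ 0 := by
    rw [← norm_pos_iff, hm.2]
    exact norm_pos_iff.2 hQ
  have hR : eval m (Rr P Q) ≠ 0 := by
    rw [h2]
    exact mul_ne_zero (by exact_mod_cast hb.ne') (mul_ne_zero hP hQ)
  have hlt : ∀ z : Fin n → ℂ, ∑ i, ‖z i‖ ^ 2 < 1 → ‖fr P Q z‖ < 1 := by
    intro z hz
    have h3 := hA.lt z hz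
    unfold fr
    rw [norm_div, div_lt_one ((norm_nonneg _).trans_lt h3)]
    exact h3
  have hFd : DifferentiableOn ℂ (fr P Q) (Bl n) := fun z hz =>
    (fderiv_fr (hA.Qne z (le_of_lt hz)) 0).1.differentiableWithinAt
  exact ⟨hC, hQ, hR, hlt, hFd, hC.exists_adChart hrefl hlt⟩

/-- the radial segment -/
lemma radial_mem {m : Fin n → ℂ} (hm : ∑ i, ‖m i‖ ^ 2 = 1) {t : ℝ} (ht0 : 0 < t) (ht1 : t < 1) :
    (1 - (t : ℂ)) • m ∈ Bl n := by
  have h9 : ∑ i, ‖((1 - (t : ℂ)) • m) i‖ ^ 2 = (1 - t) ^ 2 * ∑ i, ‖m i‖ ^ 2 := by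
    rw [Finset.mul_sum]
    refine Finset.sum_congr rfl fun i _ => ?_
    have h1 : ‖(1 - (t : ℂ))‖ = 1 - t := by
      have : (1 - (t : ℂ)) = ((1 - t : ℝ) : ℂ) := by push_cast; rfl
      rw [this, Complex.norm_real, Real.norm_of_nonneg (by linarith)]
    rw [Pi.smul_apply, smul_eq_mul, norm_mul, h1]
    ring
  show ∑ i, ‖((1 - (t : ℂ)) • m) i‖ ^ 2 < 1
  rw [h9, hm]
  nlinarith

lemma radial_tendsto (m : Fin n → ℂ) :
    Tendsto (fun t : ℝ => (1 - (t : ℂ)) • m) (𝓝[>] 0) (𝓝 m) := by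
  have h1 : Continuous fun t : ℝ => (1 - (t : ℂ)) • m := by fun_prop
  have h2 := h1.tendsto 0
  simp only [Complex.ofReal_zero, sub_zero, one_smul] at h2
  exact h2.mono_left nhdsWithin_le_nhds

/-- (Loc) in 82's form -/
theorem loc_of (hCon : CONTACT) (P Q : MvPolynomial (Fin n) ℂ) (hA : Adm P Q) (hD : Dual P Q)
    (k : (Fin n → ℂ) → ℂ) (hk : DifferentiableOn ℂ k (Bn n)) (hW : Wedge P Q k) {m : Fin n → ℂ}
    (hm : m ∈ Ct P Q) :
    ∃ δ > 0, ∃ L : ℂ → ℂ, DifferentiableOn ℂ L (ball (fr P Q m) δ ∩ ball 0 1) ∧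
      (∃ δ' > 0, ∀ z ∈ Bn n, dist z m < δ' →
        fr P Q z ∈ ball (fr P Q m) δ ∧ k z = L (fr P Q z)) ∧
      (∀ w ∈ ball (fr P Q m) δ ∩ ball (0 : ℂ) 1, ∃ z ∈ Bn n, fr P Q z = w ∧ k z = L w) := by
  obtain ⟨hC, hQ, hR, hlt, hFd, ⟨a⟩⟩ := setup hCon hA hD hm
  refine hC.leaf a hlt hFd hk ?_
  filter_upwards [(continuous_eval' Q).continuousAt.eventually_ne hQ,
    (continuous_eval' (Rr P Q)).continuousAt.eventually_ne hR] with z h1 h2 h3 v hv
  exact wedge_apply h1 h2 (fun i j => hW z h3 i j) hv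

/-- row LEAF -/
theorem leaf_of (hCon : CONTACT) : LEAF := by
  intro n P Q hA hD k hk hW m hm
  obtain ⟨hC, hQ, hR, hlt, hFd, ⟨a⟩⟩ := setup hCon hA hD hm
  obtain ⟨δ, hδ, L, hL, ⟨δ', hδ', h1⟩, h2⟩ := loc_of hCon P Q hA hD k hk hW hm
  set ε : ℝ := min δ δ' with hε
  have hε0 : 0 < ε := by positivity
  have hsub : ball (fr P Q m) ε ∩ ball (0 : ℂ) 1 ⊆ ball (fr P Q m) δ ∩ ball 0 1 :=
    Set.inter_subset_inter_left _ (ball_subset_ball (min_le_left _ _))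
  refine ⟨ε, hε0, L, hL.mono hsub, ?_, fun w hw => h2 w (hsub hw), ?_⟩
  · intro m' hm' hd
    have h3 : ∀ᶠ t : ℝ in 𝓝[>] 0, dist ((1 - (t : ℂ)) • m') m < δ' := by
      have h4 : ball m δ' ∈ 𝓝 m' := isOpen_ball.mem_nhds (by
        rw [mem_ball]
        exact hd.trans_le (min_le_right _ _))
      exact (radial_tendsto m').eventually h4
    have h4 : ∀ᶠ t : ℝ in 𝓝[>] 0, t < 1 :=
      (eventually_lt_nhds one_pos).filter_mono nhdsWithin_le_nhds
    filter_upwards [h3, h4, self_mem_nhdsWithin] with t h5 h6 h7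
    exact (h1 _ (radial_mem hm'.1 h7 h6) h5).2
  · have hFc : ContinuousAt (fr P Q) m := hC.cdF.continuousAt
    obtain ⟨ρ, hρ, h3⟩ := Metric.eventually_nhds_iff_ball.1
      (hFc.tendsto.eventually (ball_mem_nhds (fr P Q m) hε0))
    refine ⟨Bl n ∩ ball m (min ρ δ'), (isOpen_Bl n).inter isOpen_ball, ?_,
      Set.inter_subset_left, fun z hz => ⟨?_, ?_⟩⟩
    · have h4 : ∀ᶠ t : ℝ in 𝓝[>] 0, (1 - (t : ℂ)) • m ∈ ball m (min ρ δ') :=
        (radial_tendsto m).eventually (ball_mem_nhds m (by positivity))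
      have h5 : ∀ᶠ t : ℝ in 𝓝[>] 0, t < 1 :=
        (eventually_lt_nhds one_pos).filter_mono nhdsWithin_le_nhds
      have h6 : ∀ᶠ t : ℝ in 𝓝[>] 0, (0 : ℝ) < t := self_mem_nhdsWithin
      obtain ⟨t, ⟨h7, h8⟩, h9⟩ := ((h4.and h5).and h6).exists
      exact ⟨_, radial_mem hm.1 h9 h8, h7⟩
    · exact h3 z (ball_subset_ball (min_le_left _ _) hz.2)
    · exact (h1 z hz.1 ((mem_ball.1 hz.2).trans_le (min_le_right _ _))).2

/-- row LIFT -/
theorem lift_of (hCon : CONTACT) : LIFT := by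
  intro n P Q hA hD m hm ε hε
  obtain ⟨hC, hQ, hR, hlt, hFd, ⟨a⟩⟩ := setup hCon hA hD hm
  have hF1 : ‖fr P Q m‖ = 1 := hC.norm1
  have hF0 : fr P Q m ≠ 0 := by
    intro h
    rw [h, norm_zero] at hF1
    exact zero_ne_one hF1
  have hΘt : Tendsto a.Θ (𝓝 0) (𝓝 m) := by
    have := a.dΘ.hasFDerivAt.continuousAt.tendsto
    rwa [a.Θ0] at this
  have hsu : Tendsto (fun s : ℂ => s • a.u) (𝓝 0) (𝓝 0) := by
    have h1 : Continuous fun s : ℂ => s • a.u := by fun_prop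
    have := h1.tendsto 0
    simpa using this
  have h1 := (hC.real_points a.toSymChart).and (a.expF.and ((hΘt.eventually
    (ball_mem_nhds m hε)).and (hΘt.eventually ((continuous_eval' Q).continuousAt.eventually_ne hQ))))
  have h2 := ((sc_tendsto hF0).eventually (hsu.eventually h1)).and (eventually_ne_nhds hF0)
  obtain ⟨δ, hδ, h3⟩ := Metric.eventually_nhds_iff_ball.1 h2
  refine ⟨δ, hδ, fun c hc hcd => ?_⟩
  obtain ⟨⟨e1, e2, e3, e4⟩, e5⟩ := h3 c hcd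
  -- the coordinate is real
  have hreal : ((sc (fr P Q m) c).re : ℂ) = sc (fr P Q m) c := by
    apply Complex.ext
    · simp
    · have h4 : (sc (fr P Q m) c).im = -Real.log ‖c‖ := by
        unfold sc
        rw [Complex.mul_im]
        simp [Complex.log_re, hF1]
      rw [h4, hc, Real.log_one, Complex.ofReal_im, neg_zero]
  have hr : star (a.L (sc (fr P Q m) c • a.u)) = sc (fr P Q m) c • a.u := by
    rw [← hreal]
    exact real_smul a.u_real _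
  obtain ⟨e6, e7, -⟩ := e1 hr
  refine ⟨_, ⟨e6, ?_⟩, e3, ?_⟩
  · have e8 : ∀ z : Fin n → ℂ, fr P Q z = eval z P / eval z Q := fun _ => rfl
    rw [e8, norm_div, div_eq_one_iff_eq (norm_ne_zero_iff.2 e4)] at e7
    exact e7
  · rw [e2, map_smul, a.ℓu, smul_eq_mul, mul_one, exp_sc hF0 e5]

end

end Pool.Agent.Lib.MP_6ff8d9_an.H99
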