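import Pool.Agent.Lib.MP_6ff8d9_an_h99.Cone2
import Pool.Agent.Lib.K708.HdOsg

/-!
# The adapted chart at a contact point: `F (Θ y) = F ζ * exp (i ℓ y)`
-/

open Metric Filter Topology
open scoped ComplexConjugate

namespace Pool.Agent.Lib.MP_6ff8d9_an.H99

noncomputable section

variable {n : ℕ} {F : (Fin n → ℂ) → ℂ} {Ψ : (Fin n → ℂ) → (Fin n → ℂ)} {ζ : Fin n → ℂ}

/-- build a chart from its `h` -/
lemma mkChart {L : (Fin n → ℂ) →L[ℂ] (Fin n → ℂ)} {h : (Fin n → ℂ) → (Fin n → ℂ)}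
    (hcd : ContDiffAt ℂ 1 h ζ)
    (hder : HasFDerivAt h (ContinuousLinearMap.id ℂ (Fin n → ℂ)) ζ) (hhζ : h ζ = 0)
    (hcc : ∀ x, star (L (star (L x))) = x)
    (hσt : Tendsto (fun z => star (Ψ z)) (𝓝 ζ) (𝓝 ζ))
    (e5 : ∀ᶠ z in 𝓝 ζ, h (star (Ψ z)) = star (L (h z))) :
    ∃ c : SymChart Ψ ζ, c.L = L ∧ c.h = h := by
  have hder' : HasFDerivAt h ((ContinuousLinearEquiv.refl ℂ (Fin n → ℂ) :
      (Fin n → ℂ) ≃L[ℂ] (Fin n → ℂ)) : (Fin n → ℂ) →L[ℂ] (Fin n → ℂ)) ζ := hder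
  set k := hcd.localInverse hder' one_ne_zero with hk
  have hs := hcd.hasStrictFDerivAt' hder' one_ne_zero
  have e1 : ∀ᶠ z in 𝓝 ζ, k (h z) = z := hs.eventually_left_inverse
  have e2 : ∀ᶠ y in 𝓝 (0 : Fin n → ℂ), h (k y) = y := by
    have := hs.eventually_right_inverse
    rwa [hhζ] at this
  have ek : ContDiffAt ℂ 1 k 0 := by
    have h1 := hcd.to_localInverse hder' one_ne_zero
    rwa [hhζ] at h1
  have e3 : ∀ᶠ y in 𝓝 (0 : Fin n → ℂ), DifferentiableAt ℂ k y := by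
    have h2 := ek.eventually (by norm_num)
    exact h2.mono fun y hy => hy.differentiableAt (by norm_num)
  have e3' : ∀ᶠ z in 𝓝 ζ, DifferentiableAt ℂ h z := by
    have h2 := hcd.eventually (by norm_num)
    exact h2.mono fun y hy => hy.differentiableAt (by norm_num)
  have ek0 : k 0 = ζ := by
    have := e1.self_of_nhds
    rwa [hhζ] at this
  have e4 : Tendsto k (𝓝 (0 : Fin n → ℂ)) (𝓝 ζ) := by
    have := hs.localInverse_tendsto
    rwa [hhζ] at this
  have e6 : ∀ᶠ y in 𝓝 (0 : Fin n → ℂ), star (Ψ (k y)) = k (star (L y)) := by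
    filter_upwards [e2, e4.eventually e5, e4.eventually (hσt.eventually e1)] with y h2 h5 h1
    rw [h2] at h5
    rw [← h5, h1]
  have edh : HasStrictFDerivAt h (ContinuousLinearMap.id ℂ (Fin n → ℂ)) ζ := hs
  have edk : HasStrictFDerivAt k (ContinuousLinearMap.id ℂ (Fin n → ℂ)) 0 := by
    have h1 := hs.to_localInverse
    rw [hhζ] at h1
    exact h1
  exact ⟨{ L := L, Θ := k, h := h, invol := hcc, Θ0 := ek0, h0 := hhζ, dΘ := edk, dh := edh,
           hΘ := e3, hh := e3', left := e1, right := e2, sym := e6, sym' := e5 }, rfl, rfl⟩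

lemma cd_of_diff {h : (Fin n → ℂ) → (Fin n → ℂ)} (hd : ∀ᶠ z in 𝓝 ζ, DifferentiableAt ℂ h z) :
    ContDiffAt ℂ 1 h ζ := by
  obtain ⟨ρ, hρ, h1⟩ := Metric.eventually_nhds_iff_ball.1 hd
  rw [contDiffAt_pi]
  intro i
  have h2 : DifferentiableOn ℂ (fun z => h z i) (ball ζ ρ) := fun z hz =>
    (differentiableAt_pi.1 (h1 z hz) i).differentiableWithinAt
  exact (Pool.Agent.K708.Hd.holo_contDiffOn_nat isOpen_ball 1 _ h2).contDiffAt (ball_mem_nhds ζ hρ)

/-- A chart adapted to `F`: `F (Θ y) = F ζ exp (i ℓ y)` with `ℓ` real linear form, and a real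
direction `u`, `ℓ u = 1`, pointing into the ball. -/
structure AdChart {n : ℕ} (F : (Fin n → ℂ) → ℂ) (Ψ : (Fin n → ℂ) → (Fin n → ℂ)) (ζ : Fin n → ℂ)
    extends SymChart Ψ ζ where
  /-- the real linear form -/
  ℓ : (Fin n → ℂ) →L[ℂ] ℂ
  /-- the direction -/
  u : Fin n → ℂ
  real : ∀ y, ℓ (star (L y)) = conj (ℓ y)
  expF : ∀ᶠ y in 𝓝 (0 : Fin n → ℂ), F (Θ y) = F ζ * Complex.exp (Complex.I * ℓ y)
  u_real : star (L u) = u
  ℓu : ℓ u = 1
  uim : 0 < (herm ζ u).im

/-- **ADAPTED CHART.** -/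
theorem Contact.exists_adChart (hC : Contact F Ψ ζ)
    (hrefl : ∀ᶠ z in 𝓝 ζ, F z * conj (F (star (Ψ z))) = 1)
    (hlt : ∀ z : Fin n → ℂ, ∑ i, ‖z i‖ ^ 2 < 1 → ‖F z‖ < 1) : Nonempty (AdChart F Ψ ζ) := by
  obtain ⟨c⟩ := exists_symChart Ψ ζ hC.cdΨ hC.fix hC.inv
  obtain ⟨u, hu, ⟨b, hb, hub⟩, hus⟩ := hC.exists_dir c hlt
  have hF0 : F ζ ≠ 0 := by
    intro h
    have := hC.norm1
    rw [h, norm_zero] at this
    exact zero_ne_one this
  have hFF : F ζ * conj (F ζ) = 1 := by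
    rw [Complex.mul_conj, Complex.normSq_eq_norm_sq, hC.norm1]
    simp
  set ℓ : (Fin n → ℂ) →L[ℂ] ℂ := (-Complex.I / F ζ) • fderiv ℂ F ζ with hℓ
  have hℓreal : ∀ v : Fin n → ℂ, star (c.L v) = v → conj (ℓ v) = ℓ v := by
    intro v hv
    have h1 := (hC.real_dir c hv).1
    have h2 : ℓ v = ((conj (F ζ) * fderiv ℂ F ζ v).im : ℂ) := by
      show (-Complex.I / F ζ) * fderiv ℂ F ζ v = _
      rw [h1]
      have h3 : (conj (F ζ) * (F ζ * (Complex.I * ((conj (F ζ) * fderiv ℂ F ζ v).im : ℂ)))).im =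
          (conj (F ζ) * fderiv ℂ F ζ v).im := by rw [← h1]
      rw [h3]
      field_simp
      rw [Complex.I_sq]
      ring
    rw [h2, Complex.conj_ofReal]
  have hsm : ∀ (x : ℂ) (v : Fin n → ℂ), ℓ (x • v) = x * ℓ v := fun x v => map_smul ℓ x v
  have hreal : ∀ y, ℓ (star (c.L y)) = conj (ℓ y) := by
    intro y
    obtain ⟨h1, h2, h3⟩ := real_parts c.invol y
    set a := (1 / 2 : ℂ) • (y + star (c.L y)) with ha
    set d := (1 / (2 * Complex.I) : ℂ) • (y - star (c.L y)) with hd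
    have h4 : star (c.L y) = a - Complex.I • d := by
      conv_lhs => rw [h3]
      rw [map_add, star_add, h1, map_smul, star_smul, h2]
      rw [Complex.star_def, Complex.conj_I, neg_smul, sub_eq_add_neg]
    have h5 : ℓ (a - Complex.I • d) = ℓ a - Complex.I * ℓ d := by
      rw [map_sub, hsm Complex.I d]
    have h6 : ℓ (a + Complex.I • d) = ℓ a + Complex.I * ℓ d := by
      rw [map_add, hsm Complex.I d]
    have h7 : ℓ y = ℓ a + Complex.I * ℓ d := by rw [← h6, ← h3]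
    rw [h4, h5, h7, map_add, map_mul, Complex.conj_I, hℓreal a h1, hℓreal d h2]
    ring
  have hℓu : ℓ u = (b : ℂ) := by
    show (-Complex.I / F ζ) * fderiv ℂ F ζ u = _
    rw [hub]
    field_simp
    rw [Complex.I_sq]
    ring
  have hbC : (b : ℂ) ≠ 0 := by exact_mod_cast hb.ne'
  set u₀ : Fin n → ℂ := ((1 / b : ℝ) : ℂ) • u with hu₀
  have hu₀r : star (c.L u₀) = u₀ := real_smul hu _
  have hℓu₀ : ℓ u₀ = 1 := by
    rw [hu₀, map_smul, smul_eq_mul, hℓu]
    push_cast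
    field_simp
  have hu₀im : 0 < (herm ζ u₀).im := by
    rw [hu₀, herm_smul, Complex.im_ofReal_mul]
    positivity
  -- the logarithm
  set lam : (Fin n → ℂ) → ℂ := fun z => -Complex.I * Complex.log (F z / F ζ) with hlam
  have nF : ∀ᶠ z in 𝓝 ζ, DifferentiableAt ℂ F z :=
    (hC.cdF.eventually (by norm_num)).mono fun z hz => hz.differentiableAt (by norm_num)
  have hFc : ContinuousAt F ζ := hC.cdF.continuousAt
  have hq1 : F ζ / F ζ = 1 := div_self hF0
  have nslit : ∀ᶠ z in 𝓝 ζ, F z / F ζ ∈ Complex.slitPlane := by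
    have h1 : ContinuousAt (fun z => F z / F ζ) ζ := hFc.div_const _
    refine h1.tendsto.eventually (Complex.isOpen_slitPlane.mem_nhds ?_)
    rw [hq1]
    exact Complex.one_mem_slitPlane
  have nlam : ∀ᶠ z in 𝓝 ζ, DifferentiableAt ℂ lam z := by
    filter_upwards [nF, nslit] with z h1 h2
    have h3 : DifferentiableAt ℂ (fun z => F z / F ζ) z := by
      have := h1.mul_const (F ζ)⁻¹
      simpa [div_eq_mul_inv] using this
    exact (h3.clog h2).const_mul (-Complex.I)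
  set h' : (Fin n → ℂ) → (Fin n → ℂ) := fun z => c.h z + (lam z - ℓ (c.h z)) • u₀ with hh'
  have nh' : ∀ᶠ z in 𝓝 ζ, DifferentiableAt ℂ h' z := by
    filter_upwards [c.hh, nlam] with z h1 h2
    exact h1.add ((h2.sub (ℓ.differentiableAt.comp z h1)).smul_const u₀)
  have hlamζ : lam ζ = 0 := by
    simp only [hlam, hq1, Complex.log_one, mul_zero]
  have hdlam : HasFDerivAt lam ℓ ζ := by
    have h1 : HasFDerivAt F (fderiv ℂ F ζ) ζ :=
      (hC.cdF.differentiableAt (by norm_num)).hasFDerivAt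
    have h2 : HasFDerivAt (fun z => F z / F ζ) ((F ζ)⁻¹ • fderiv ℂ F ζ) ζ := by
      have := h1.mul_const (F ζ)⁻¹
      simpa [div_eq_mul_inv] using this
    have h3 : F ζ / F ζ ∈ Complex.slitPlane := by
      rw [hq1]
      exact Complex.one_mem_slitPlane
    have h4 := (h2.clog h3).const_mul (-Complex.I)
    refine h4.congr_fderiv ?_
    ext1 v
    show -Complex.I * ((F ζ / F ζ)⁻¹ * ((F ζ)⁻¹ * fderiv ℂ F ζ v)) =
      (-Complex.I / F ζ) * fderiv ℂ F ζ v
    rw [hq1]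
    ring
  have hdh' : HasFDerivAt h' (ContinuousLinearMap.id ℂ (Fin n → ℂ)) ζ := by
    have h1 : HasFDerivAt c.h (ContinuousLinearMap.id ℂ (Fin n → ℂ)) ζ := c.dh.hasFDerivAt
    have h2 : HasFDerivAt (fun z => ℓ (c.h z)) (ℓ.comp (ContinuousLinearMap.id ℂ (Fin n → ℂ))) ζ :=
      ℓ.hasFDerivAt.comp ζ h1
    have h3 := h1.add ((hdlam.sub h2).smul_const u₀)
    refine h3.congr_fderiv ?_
    ext1 v
    show v + (ℓ v - ℓ v) • u₀ = v
    rw [sub_self, zero_smul, add_zero]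
  have hh'0 : h' ζ = 0 := by
    simp only [hh', hlamζ, c.h0, map_zero, sub_self, zero_smul, add_zero]
  have hσt : Tendsto (fun z => star (Ψ z)) (𝓝 ζ) (𝓝 ζ) := by
    have h1 : ContinuousAt (fun z => star (Ψ z)) ζ := hC.cdΨ.continuousAt.star
    have h2 := h1.tendsto
    rwa [hC.fix] at h2
  have hF0n : ∀ᶠ z in 𝓝 ζ, F z ≠ 0 := hFc.eventually_ne hF0
  have hlamσ : ∀ᶠ z in 𝓝 ζ, lam (star (Ψ z)) = conj (lam z) := by
    filter_upwards [hrefl, nslit, hF0n] with z h1 h2 h3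
    have h4 : F (star (Ψ z)) / F ζ = conj ((F z / F ζ)⁻¹) := by
      have h5 : conj (F z) * F (star (Ψ z)) = 1 := by
        have := congrArg conj h1
        rw [map_mul, Complex.conj_conj, map_one] at this
        exact this
      have h6 : conj (F z) ≠ 0 := (map_ne_zero _).2 h3
      rw [inv_div, map_div₀, div_eq_div_iff hF0 h6]
      linear_combination h5 - hFF
    have h5 : (F z / F ζ).arg ≠ Real.pi := (Complex.mem_slitPlane_iff_arg.1 h2).1
    have h6 : ((F z / F ζ)⁻¹).arg ≠ Real.pi := by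
      rw [Ne, Complex.arg_inv]
      split_ifs with h
      · exact absurd h h5
      · intro h7
        have h8 := Complex.neg_pi_lt_arg (F z / F ζ)
        linarith
    simp only [hlam]
    rw [h4, Complex.log_conj _ h6, Complex.log_inv _ h5, map_mul, map_neg, map_neg,
      Complex.conj_I]
    ring
  have hsym : ∀ᶠ z in 𝓝 ζ, h' (star (Ψ z)) = star (c.L (h' z)) := by
    filter_upwards [c.sym', hlamσ] with z h1 h2
    simp only [hh']
    rw [h1, h2, hreal, map_add, star_add, map_smul, star_smul, hu₀r, Complex.star_def, map_sub]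
  obtain ⟨c', hL, hh⟩ := mkChart (Ψ := Ψ) (cd_of_diff nh') hdh' hh'0 c.invol hσt hsym
  have hΘt : Tendsto c'.Θ (𝓝 0) (𝓝 ζ) := by
    have := c'.dΘ.hasFDerivAt.continuousAt.tendsto
    rwa [c'.Θ0] at this
  have hexp : ∀ᶠ y in 𝓝 (0 : Fin n → ℂ), F (c'.Θ y) = F ζ * Complex.exp (Complex.I * ℓ y) := by
    filter_upwards [c'.right, hΘt.eventually hF0n] with y h1 h2
    have h3 : ℓ y = lam (c'.Θ y) := by
      conv_lhs => rw [← h1, hh]
      simp only [hh']
      rw [map_add, map_smul, smul_eq_mul, hℓu₀]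
      ring
    have h4 : Complex.I * ℓ y = Complex.log (F (c'.Θ y) / F ζ) := by
      rw [h3]
      simp only [hlam]
      linear_combination (-Complex.log (F (c'.Θ y) / F ζ)) * Complex.I_mul_I
    rw [h4, Complex.exp_log (div_ne_zero h2 hF0)]
    field_simp
  exact ⟨{ toSymChart := c', ℓ := ℓ, u := u₀, real := by rw [hL]; exact hreal, expF := hexp,
           u_real := by rw [hL]; exact hu₀r, ℓu := hℓu₀, uim := hu₀im }⟩

end

end Pool.Agent.Lib.MP_6ff8d9_an.H99
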