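import Pool.Agent.Lib.MP_6ff8d9_an_h82.RowsL
import Pool.Agent.Lib.MP_6ff8d9_an_h99.AdChart

/-!
# MP_6ff8d9, THEOREM L: row CONTL

A good boundary point is a contact point with `Ψ = ∇F / RF`.
-/

open Metric Filter Topology
open scoped ComplexConjugate

namespace Pool.Agent.Lib.MP_6ff8d9_an.H99

open Pool.Agent.Lib.MP_6ff8d9_an.Hom.H20
open Pool.Agent.Lib.MP_6ff8d9_an.H82L

noncomputable section

variable {n : ℕ}

/-- uniqueness at the real points -/
theorem real_uniq {g : (Fin n → ℂ) → ℂ} (hd : ∀ᶠ y in 𝓝 (0 : Fin n → ℂ), DifferentiableAt ℂ g y)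
    (h0 : ∀ᶠ x in 𝓝 (0 : Fin n → ℂ), (∀ i, (x i).im = 0) → g x = 0) :
    ∀ᶠ y in 𝓝 (0 : Fin n → ℂ), g y = 0 := by
  obtain ⟨δ, hδ, hδ1⟩ := Metric.eventually_nhds_iff_ball.1 (hd.and h0)
  refine Metric.eventually_nhds_iff_ball.2 ⟨δ / 3, by positivity, fun y hy => ?_⟩
  rw [mem_ball_zero_iff] at hy
  set a : Fin n → ℂ := fun i => ((y i).re : ℂ) with ha
  set b : Fin n → ℂ := fun i => ((y i).im : ℂ) with hb
  have han : ‖a‖ ≤ ‖y‖ := by
    rw [pi_norm_le_iff_of_nonneg (norm_nonneg _)]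
    intro i
    rw [ha, Complex.norm_real]
    exact (Complex.abs_re_le_norm _).trans (norm_le_pi_norm y i)
  have hbn : ‖b‖ ≤ ‖y‖ := by
    rw [pi_norm_le_iff_of_nonneg (norm_nonneg _)]
    intro i
    rw [hb, Complex.norm_real]
    exact (Complex.abs_im_le_norm _).trans (norm_le_pi_norm y i)
  have hmem : ∀ l : ℂ, ‖l‖ < 2 → a + l • b ∈ ball (0 : Fin n → ℂ) δ := by
    intro l hl
    rw [mem_ball_zero_iff]
    have h1 := norm_add_le a (l • b)
    have h2 : ‖l • b‖ = ‖l‖ * ‖b‖ := norm_smul l b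
    rw [h2] at h1
    have h3 : ‖l‖ * ‖b‖ ≤ 2 * ‖y‖ := mul_le_mul hl.le hbn (norm_nonneg _) (by norm_num)
    linarith
  have h1 := one_var (fun l => g (a + l • b)) ?_ ?_
  · have h2 : a + Complex.I • b = y := by
      funext i
      simp only [ha, hb, Pi.add_apply, Pi.smul_apply, smul_eq_mul]
      rw [mul_comm]
      exact Complex.re_add_im _
    have h3 : g (a + Complex.I • b) = 0 := h1
    rwa [h2] at h3
  · intro l hl
    rw [mem_ball_zero_iff] at hl
    have h2 := (hδ1 _ (hmem l hl)).1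
    have h3 : DifferentiableAt ℂ (fun l : ℂ => a + l • b) l :=
      (differentiableAt_const a).add (differentiableAt_id.smul_const b)
    exact (h2.comp l h3).differentiableWithinAt
  · intro t ht
    refine (hδ1 _ (hmem (t : ℂ) (by rw [Complex.norm_real]; exact ht))).2 ?_
    intro i
    simp [ha, hb]

/-- first order contact, complex tangential directions -/
theorem tang_zero {f : (Fin n → ℂ) → ℂ} {m : Fin n → ℂ} (hf : DifferentiableAt ℂ f m)
    (hm : ∑ i, ‖m i‖ ^ 2 = 1) (hfm : ‖f m‖ = 1)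
    (hS : ∀ z : Fin n → ℂ, ∑ i, ‖z i‖ ^ 2 < 1 → ‖f z‖ < 1) {v : Fin n → ℂ}
    (hv : ∑ i, conj (m i) * v i = 0) : fderiv ℂ f m v = 0 := by
  -- the real part
  have key : ∀ v : Fin n → ℂ, ∑ i, conj (m i) * v i = 0 →
      (conj (f m) * fderiv ℂ f m v).re = 0 := by
    intro v hv
    set N : ℝ := ∑ i, ‖v i‖ ^ 2 with hN
    have hN0 : 0 ≤ N := Finset.sum_nonneg fun i _ => by positivity
    set C : ℝ := N + 1 with hC
    set z : ℝ → (Fin n → ℂ) := fun t => m + (t : ℂ) • v - ((C * t ^ 2 : ℝ) : ℂ) • m with hz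
    have hz0 : z 0 = m := by
      simp [hz]
    have hzd : HasDerivAt z v 0 := by
      have h1 : HasDerivAt (fun t : ℝ => (t : ℂ) • v) v 0 := by
        have h2 : HasDerivAt (fun t : ℝ => (t : ℂ)) 1 0 := Complex.ofRealCLM.hasDerivAt
        have h3 := h2.smul_const v
        rwa [one_smul] at h3
      have h4 : HasDerivAt (fun t : ℝ => ((C * t ^ 2 : ℝ) : ℂ) • m) 0 0 := by
        have h2 : HasDerivAt (fun t : ℝ => C * t ^ 2) 0 0 := by
          have := (hasDerivAt_pow 2 (0 : ℝ)).const_mul C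
          simpa using this
        have h3 := (h2.ofReal_comp).smul_const m
        simpa using h3
      have h5 := (h1.const_add m).sub h4
      rw [sub_zero] at h5
      exact h5
    have hfd : HasDerivAt (fun t : ℝ => f (z t)) (fderiv ℂ f m v) 0 := by
      have h1 : HasFDerivAt f ((fderiv ℂ f m).restrictScalars ℝ) (z 0) := by
        rw [hz0]
        exact hf.hasFDerivAt.restrictScalars ℝ
      exact h1.comp_hasDerivAt 0 hzd
    have hψd : HasDerivAt (fun t : ℝ => (conj (f m) * f (z t)).re)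
        (conj (f m) * fderiv ℂ f m v).re 0 := by
      have h1 := hfd.const_mul (conj (f m))
      exact (Complex.reCLM.hasFDerivAt.comp_hasDerivAt (0 : ℝ) h1)
    have hmax : IsLocalMax (fun t : ℝ => (conj (f m) * f (z t)).re) 0 := by
      have hval : (conj (f m) * f (z 0)).re = 1 := by
        rw [hz0, mul_comm, Complex.mul_conj, Complex.normSq_eq_norm_sq, hfm]
        simp
      have hsmall : ∀ᶠ t : ℝ in 𝓝 0, C ^ 2 * t ^ 2 < 1 := by
        have h1 : Continuous fun t : ℝ => C ^ 2 * t ^ 2 := by fun_prop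
        have h2 := h1.tendsto 0
        simp only [ne_eq, OfNat.ofNat_ne_zero, not_false_eq_true, zero_pow, mul_zero] at h2
        exact h2 (Iio_mem_nhds one_pos)
      filter_upwards [hsmall] with t ht
      rw [hval]
      rcases eq_or_ne t 0 with rfl | ht0
      · rw [hval]
      · have h1 : ∑ i, ‖z t i‖ ^ 2 = (1 - C * t ^ 2) ^ 2 + t ^ 2 * N := by
          have h2 : ∀ i, ‖z t i‖ ^ 2 = (1 - C * t ^ 2) ^ 2 * ‖m i‖ ^ 2 + t ^ 2 * ‖v i‖ ^ 2 +
              2 * ((1 - C * t ^ 2) * t) * (conj (m i) * v i).re := by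
            intro i
            have h3 : z t i = ((1 - C * t ^ 2 : ℝ) : ℂ) * m i + (t : ℂ) * v i := by
              simp only [hz, Pi.sub_apply, Pi.add_apply, Pi.smul_apply, smul_eq_mul]
              push_cast
              ring
            rw [h3, ← Complex.normSq_eq_norm_sq, ← Complex.normSq_eq_norm_sq,
              ← Complex.normSq_eq_norm_sq]
            simp only [Complex.normSq_apply, Complex.add_re, Complex.add_im, Complex.mul_re,
              Complex.mul_im, Complex.ofReal_re, Complex.ofReal_im, Complex.conj_re,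
              Complex.conj_im]
            ring
          rw [Finset.sum_congr rfl fun i _ => h2 i, Finset.sum_add_distrib,
            Finset.sum_add_distrib, ← Finset.mul_sum, ← Finset.mul_sum, ← Finset.mul_sum, hm,
            ← Complex.re_sum, hv, Complex.zero_re]
          ring
        have h2 : ∑ i, ‖z t i‖ ^ 2 < 1 := by
          rw [h1]
          have h3 : 0 < t ^ 2 := by positivity
          have h4 : (C ^ 2 * t ^ 2) * t ^ 2 < 1 * t ^ 2 := mul_lt_mul_of_pos_right ht h3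
          have h5 : (1 - C * t ^ 2) ^ 2 + t ^ 2 * N =
            1 - (N + 2) * t ^ 2 + (C ^ 2 * t ^ 2) * t ^ 2 := by
            rw [hC]
            ring
          rw [h5]
          have h6 : 0 ≤ N * t ^ 2 := by positivity
          nlinarith
        have h3 := hS _ h2
        calc (conj (f m) * f (z t)).re ≤ ‖conj (f m) * f (z t)‖ := Complex.re_le_norm _
          _ = ‖f (z t)‖ := by rw [norm_mul, RCLike.norm_conj, hfm, one_mul]
          _ ≤ 1 := h3.le
    exact hmax.hasDerivAt_eq_zero hψd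
  have h1 := key v hv
  have h2 := key (Complex.I • v) (by
    have : ∀ i, conj (m i) * (Complex.I • v) i = Complex.I * (conj (m i) * v i) := by
      intro i
      rw [Pi.smul_apply, smul_eq_mul]
      ring
    rw [Finset.sum_congr rfl fun i _ => this i, ← Finset.mul_sum, hv, mul_zero])
  rw [map_smul, smul_eq_mul] at h2
  have h3 : (conj (f m) * fderiv ℂ f m v).im = 0 := by
    have h4 : conj (f m) * (Complex.I * fderiv ℂ f m v) =
        Complex.I * (conj (f m) * fderiv ℂ f m v) := by ring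
    rw [h4] at h2
    simp only [Complex.mul_re, Complex.I_re, Complex.I_im, zero_mul, one_mul, zero_sub,
      neg_eq_zero] at h2
    exact h2
  have h5 : conj (f m) * fderiv ℂ f m v = 0 := Complex.ext h1 h3
  have h6 : conj (f m) ≠ 0 := by
    rw [← norm_ne_zero_iff, RCLike.norm_conj, hfm]
    exact one_ne_zero
  exact (mul_eq_zero.1 h5).resolve_left h6

/-- the radial derivative does not vanish -/
theorem radial_ne {f : (Fin n → ℂ) → ℂ} {m : Fin n → ℂ} (hf : DifferentiableAt ℂ f m)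
    (hm : ∑ i, ‖m i‖ ^ 2 = 1) (hfm : ‖f m‖ = 1)
    (hS : ∀ z : Fin n → ℂ, ∑ i, ‖z i‖ ^ 2 < 1 → ‖f z‖ ^ 2 ≤ ∑ i, ‖z i‖ ^ 2) :
    fderiv ℂ f m m ≠ 0 := by
  intro h0
  set z : ℝ → (Fin n → ℂ) := fun t => m - (t : ℂ) • m with hz
  have hz0 : z 0 = m := by simp [hz]
  have hzd : HasDerivAt z (-m) 0 := by
    have h2 : HasDerivAt (fun t : ℝ => (t : ℂ)) 1 0 := Complex.ofRealCLM.hasDerivAt
    have h3 := (h2.smul_const m).const_sub m
    rwa [one_smul] at h3
  have hfd : HasDerivAt (fun t : ℝ => f (z t)) 0 0 := by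
    have h1 : HasFDerivAt f ((fderiv ℂ f m).restrictScalars ℝ) (z 0) := by
      rw [hz0]
      exact hf.hasFDerivAt.restrictScalars ℝ
    have h2 := h1.comp_hasDerivAt 0 hzd
    have h3 : (fderiv ℂ f m).restrictScalars ℝ (-m) = 0 := by
      show fderiv ℂ f m (-m) = 0
      rw [map_neg, h0, neg_zero]
    rw [h3] at h2
    exact h2
  have hψd : HasDerivAt (fun t : ℝ => (conj (f m) * f (z t)).re) 0 0 := by
    have h1 := hfd.const_mul (conj (f m))
    rw [mul_zero] at h1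
    have h2 := Complex.reCLM.hasFDerivAt.comp_hasDerivAt (0 : ℝ) h1
    rw [map_zero] at h2
    exact h2
  have hval : (conj (f m) * f (z 0)).re = 1 := by
    rw [hz0, mul_comm, Complex.mul_conj, Complex.normSq_eq_norm_sq, hfm]
    simp
  have hslope := hψd.tendsto_slope_zero_right
  have hle : ∀ᶠ t : ℝ in 𝓝[>] 0,
      t⁻¹ • ((conj (f m) * f (z (0 + t))).re - (conj (f m) * f (z 0)).re) ≤ -1 := by
    have ht1 : ∀ᶠ t : ℝ in 𝓝[>] 0, 0 < t := self_mem_nhdsWithin
    have ht2 : ∀ᶠ t : ℝ in 𝓝[>] 0, t < 1 := nhdsWithin_le_nhds (Iio_mem_nhds one_pos)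
    filter_upwards [ht1, ht2] with t h1 h2
    have hn : ∑ i, ‖z t i‖ ^ 2 = (1 - t) ^ 2 := by
      have h3 : ∀ i, ‖z t i‖ ^ 2 = (1 - t) ^ 2 * ‖m i‖ ^ 2 := by
        intro i
        have h4 : z t i = ((1 - t : ℝ) : ℂ) * m i := by
          simp only [hz, Pi.sub_apply, Pi.smul_apply, smul_eq_mul]
          push_cast
          ring
        rw [h4, norm_mul, Complex.norm_real, mul_pow, Real.norm_eq_abs, sq_abs]
      rw [Finset.sum_congr rfl fun i _ => h3 i, ← Finset.mul_sum, hm, mul_one]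
    have h3 := hS (z t) (by rw [hn]; nlinarith)
    rw [hn] at h3
    have h4 : ‖f (z t)‖ ≤ 1 - t := abs_le_of_sq_le_sq' h3 (by linarith) |>.2
    have h5 : (conj (f m) * f (z t)).re ≤ 1 - t := by
      calc (conj (f m) * f (z t)).re ≤ ‖conj (f m) * f (z t)‖ := Complex.re_le_norm _
        _ = ‖f (z t)‖ := by rw [norm_mul, RCLike.norm_conj, hfm, one_mul]
        _ ≤ 1 - t := h4
    rw [zero_add, hval, smul_eq_mul, inv_mul_le_iff₀ h1]
    linarith
  have := le_of_tendsto hslope hle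
  linarith

lemma fderiv_sum (L : (Fin n → ℂ) →L[ℂ] ℂ) (v : Fin n → ℂ) :
    L v = ∑ j, v j * L (Pi.single j 1) := by
  conv_lhs => rw [← Finset.univ_sum_single v]
  rw [map_sum]
  refine Finset.sum_congr rfl fun j _ => ?_
  have h1 : (Pi.single j (v j) : Fin n → ℂ) = v j • (Pi.single j 1 : Fin n → ℂ) := by
    rw [← Pi.single_smul, smul_eq_mul, mul_one]
  rw [h1, map_smul, smul_eq_mul]

/-- the gradient at a contact point -/
theorem grad_contact {f : (Fin n → ℂ) → ℂ} {m : Fin n → ℂ} (hf : DifferentiableAt ℂ f m)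
    (hm : ∑ i, ‖m i‖ ^ 2 = 1) (hfm : ‖f m‖ = 1)
    (hS : ∀ z : Fin n → ℂ, ∑ i, ‖z i‖ ^ 2 < 1 → ‖f z‖ < 1) (v : Fin n → ℂ) :
    fderiv ℂ f m v = (∑ i, conj (m i) * v i) * fderiv ℂ f m m := by
  set c : ℂ := ∑ i, conj (m i) * v i with hc
  have h1 : ∑ i, conj (m i) * (v - c • m) i = 0 := by
    have h2 : ∀ i, conj (m i) * (v - c • m) i = conj (m i) * v i - c * (‖m i‖ ^ 2 : ℝ) := by
      intro i
      rw [Pi.sub_apply, Pi.smul_apply, smul_eq_mul, mul_sub]
      congr 1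
      have h3 : (m i) * conj (m i) = ((‖m i‖ ^ 2 : ℝ) : ℂ) := by
        rw [Complex.mul_conj, Complex.normSq_eq_norm_sq]
      rw [← h3]
      ring
    rw [Finset.sum_congr rfl fun i _ => h2 i, Finset.sum_sub_distrib, ← Finset.mul_sum, ← hc]
    rw [← Complex.ofReal_sum, hm]
    simp
  have h2 := tang_zero hf hm hfm hS h1
  rw [map_sub, map_smul, smul_eq_mul, sub_eq_zero] at h2
  exact h2

/-- row CONTL -/
theorem contl : CONTL := by
  intro n F ζ hF hlt hF0 hG
  obtain ⟨hol, Θ, hΘ0, hΘd, ⟨A, hA⟩, hΘr⟩ := hG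
  set e : Cn n ≃L[ℂ] (Fin n → ℂ) := PiLp.continuousLinearEquiv 2 ℂ (fun _ : Fin n => ℂ) with he
  set f : (Fin n → ℂ) → ℂ := fun z => F (WithLp.toLp 2 z) with hf
  set ζ' : Fin n → ℂ := fun i => ζ i with hζ'
  set θ : (Fin n → ℂ) → (Fin n → ℂ) := fun x => e (Θ (e.symm x)) with hθ
  have hfe : ∀ z, f z = F (e.symm z) := fun z => rfl
  have heζ : e.symm ζ' = ζ := rfl
  have hθ0 : θ 0 = ζ' := by
    simp only [hθ, map_zero, hΘ0]
    rfl
  have hes : Tendsto e.symm (𝓝 ζ') (𝓝 ζ) := by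
    have := e.symm.continuous.tendsto ζ'
    rwa [heζ] at this
  have hes0 : Tendsto e.symm (𝓝 (0 : Fin n → ℂ)) (𝓝 (0 : Cn n)) := by
    have := e.symm.continuous.tendsto (0 : Fin n → ℂ)
    rwa [map_zero] at this
  have hnorm : ∀ z : Cn n, ∑ i, ‖e z i‖ ^ 2 = ‖z‖ ^ 2 := fun z => (EuclideanSpace.norm_sq_eq z).symm
  have hfd : ∀ᶠ z in 𝓝 ζ', DifferentiableAt ℂ f z := by
    filter_upwards [hes.eventually hol] with z hz
    exact DifferentiableAt.comp (g := F) z hz e.symm.differentiableAt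
  have hθd : ∀ᶠ x in 𝓝 (0 : Fin n → ℂ), DifferentiableAt ℂ θ x := by
    filter_upwards [hes0.eventually hΘd] with x hx
    have h1 : DifferentiableAt ℂ (fun x => Θ (e.symm x)) x :=
      DifferentiableAt.comp (g := Θ) x hx e.symm.differentiableAt
    exact DifferentiableAt.comp (g := e) x e.differentiableAt h1
  have hθder : HasFDerivAt θ (((e.symm.trans A).trans e : (Fin n → ℂ) ≃L[ℂ] (Fin n → ℂ)) :
      (Fin n → ℂ) →L[ℂ] (Fin n → ℂ)) 0 := by
    have h1 : HasFDerivAt Θ (A : Cn n →L[ℂ] Cn n) (e.symm 0) := by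
      rw [map_zero]
      exact hA
    have h2 := h1.comp (0 : Fin n → ℂ) e.symm.hasFDerivAt
    exact e.hasFDerivAt.comp (0 : Fin n → ℂ) h2
  have hθcd : ContDiffAt ℂ 1 θ 0 := cd_of_diff hθd
  have hθs := hθcd.hasStrictFDerivAt' hθder one_ne_zero
  have hmap : Filter.map θ (𝓝 0) = 𝓝 ζ' := by
    rw [← hθ0]
    exact hθs.map_nhds_eq_of_equiv
  have hθt : Tendsto θ (𝓝 0) (𝓝 ζ') := hmap.le
  have hreal : ∀ᶠ x in 𝓝 (0 : Fin n → ℂ), (∀ i, (x i).im = 0) →
      ∑ i, ‖θ x i‖ ^ 2 = 1 ∧ ‖f (θ x)‖ = 1 := by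
    filter_upwards [hes0.eventually hΘr] with x hx hr
    obtain ⟨h1, h2⟩ := hx hr
    refine ⟨?_, ?_⟩
    · rw [hnorm, h1, one_pow]
    · show ‖F (e.symm (e (Θ (e.symm x))))‖ = 1
      rw [e.symm_apply_apply]
      exact h2
  -- transfer of uniqueness
  have hU : ∀ g : (Fin n → ℂ) → ℂ, (∀ᶠ z in 𝓝 ζ', DifferentiableAt ℂ g z) →
      (∀ᶠ x in 𝓝 (0 : Fin n → ℂ), (∀ i, (x i).im = 0) → g (θ x) = 0) →
      ∀ᶠ z in 𝓝 ζ', g z = 0 := by
    intro g hg h0
    have h1 : ∀ᶠ x in 𝓝 (0 : Fin n → ℂ), g (θ x) = 0 := by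
      refine real_uniq (g := fun x => g (θ x)) ?_ h0
      filter_upwards [hθt.eventually hg, hθd] with x h2 h3
      exact h2.comp x h3
    rw [← hmap, Filter.eventually_map]
    exact h1
  -- the ball
  have hB : ∀ z : Fin n → ℂ, ∑ i, ‖z i‖ ^ 2 < 1 → e.symm z ∈ ball (0 : Cn n) 1 := by
    intro z hz
    rw [mem_ball_zero_iff]
    have h1 := hnorm (e.symm z)
    rw [e.apply_symm_apply] at h1
    rw [h1] at hz
    nlinarith [norm_nonneg (e.symm z)]
  have hS1 : ∀ z : Fin n → ℂ, ∑ i, ‖z i‖ ^ 2 < 1 → ‖f z‖ < 1 := fun z hz => hlt _ (hB z hz)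
  have hS2 : ∀ z : Fin n → ℂ, ∑ i, ‖z i‖ ^ 2 < 1 → ‖f z‖ ^ 2 ≤ ∑ i, ‖z i‖ ^ 2 := by
    intro z hz
    have h1 : ‖F (e.symm z)‖ ≤ ‖e.symm z‖ :=
      Complex.norm_le_norm_of_mapsTo_ball hF
        (fun w hw => mem_closedBall_zero_iff.2 (hlt w hw).le) hF0
        (mem_ball_zero_iff.1 (hB z hz))
    have h2 := hnorm (e.symm z)
    rw [e.apply_symm_apply] at h2
    rw [h2]
    exact pow_le_pow_left₀ (norm_nonneg _) h1 2
  -- the gradient
  obtain ⟨ρ, hρ, hρd⟩ := Metric.eventually_nhds_iff_ball.1 hfd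
  have hfdo : DifferentiableOn ℂ f (ball ζ' ρ) := fun z hz => (hρd z hz).differentiableWithinAt
  have hGd : ∀ (v : Fin n → ℂ), ∀ᶠ z in 𝓝 ζ', DifferentiableAt ℂ (fun z => fderiv ℂ f z v) z := by
    intro v
    filter_upwards [isOpen_ball.mem_nhds (mem_ball_self hρ)] with z hz
    exact (Pool.Agent.K708.Hd.fderiv_holo isOpen_ball hfdo v).differentiableAt
      (isOpen_ball.mem_nhds hz)
  set R : (Fin n → ℂ) → ℂ := fun z => ∑ j, z j * fderiv ℂ f z (Pi.single j 1) with hR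
  have hRz : ∀ z, fderiv ℂ f z z = R z := fun z => fderiv_sum _ _
  have hRd : ∀ᶠ z in 𝓝 ζ', DifferentiableAt ℂ R z := by
    have h1 : ∀ᶠ z in 𝓝 ζ', ∀ j : Fin n,
        DifferentiableAt ℂ (fun z => fderiv ℂ f z (Pi.single j 1)) z :=
      Filter.eventually_all.2 fun j => hGd _
    filter_upwards [h1] with z hz
    refine DifferentiableAt.fun_sum fun j _ => ?_
    exact ((differentiableAt_pi.1 (differentiableAt_id (𝕜 := ℂ) (x := z))) j).mul (hz j)
  have hRζ : R ζ' ≠ 0 := by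
    obtain ⟨h1, h2⟩ := hreal.self_of_nhds (fun i => by simp)
    rw [hθ0] at h1 h2
    rw [← hRz]
    exact radial_ne hfd.self_of_nhds h1 h2 hS2
  have nR : ∀ᶠ z in 𝓝 ζ', R z ≠ 0 := hRd.self_of_nhds.continuousAt.eventually_ne hRζ
  set Ψ : (Fin n → ℂ) → (Fin n → ℂ) := fun z j => fderiv ℂ f z (Pi.single j 1) / R z with hΨ
  have hΨd : ∀ᶠ z in 𝓝 ζ', DifferentiableAt ℂ Ψ z := by
    have h1 : ∀ᶠ z in 𝓝 ζ', ∀ j : Fin n,
        DifferentiableAt ℂ (fun z => fderiv ℂ f z (Pi.single j 1)) z :=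
      Filter.eventually_all.2 fun j => hGd _
    filter_upwards [h1, hRd, nR] with z hz h2 h3
    rw [differentiableAt_pi]
    intro j
    simp only [hΨ, div_eq_mul_inv]
    exact (hz j).fun_mul (h2.fun_inv h3)
  have hfixr : ∀ᶠ x in 𝓝 (0 : Fin n → ℂ), (∀ i, (x i).im = 0) → star (Ψ (θ x)) = θ x := by
    filter_upwards [hreal, hθt.eventually hfd, hθt.eventually nR] with x h1 h2 h3 hx
    obtain ⟨h4, h5⟩ := h1 hx
    funext j
    have h6 := grad_contact h2 h4 h5 hS1 (Pi.single j 1)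
    have h7 : ∑ i, conj (θ x i) * (Pi.single j 1 : Fin n → ℂ) i = conj (θ x j) := by
      rw [Finset.sum_eq_single j]
      · simp
      · intro i _ hij
        rw [Pi.single_eq_of_ne hij, mul_zero]
      · intro h; exact absurd (Finset.mem_univ _) h
    rw [h7, hRz] at h6
    show conj (fderiv ℂ f (θ x) (Pi.single j 1) / R (θ x)) = θ x j
    rw [h6, mul_div_assoc, div_self h3, mul_one, Complex.conj_conj]
  have hfix : star (Ψ ζ') = ζ' := by
    have h1 := hfixr.self_of_nhds (fun i => by simp)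
    rwa [hθ0] at h1
  have hσt : Tendsto (fun z => star (Ψ z)) (𝓝 ζ') (𝓝 ζ') := by
    have h3 : ContinuousAt (fun z => star (Ψ z)) ζ' := hΨd.self_of_nhds.continuousAt.star
    have h4 := h3.tendsto
    rwa [hfix] at h4
  have hanti : ∀ (h : (Fin n → ℂ) → ℂ), (∀ᶠ z in 𝓝 ζ', DifferentiableAt ℂ h z) →
      ∀ᶠ z in 𝓝 ζ', DifferentiableAt ℂ (fun z => conj (h (star (Ψ z)))) z := by
    intro h hh
    filter_upwards [hσt.eventually hh, hΨd] with z h1 h2
    have h3 := h1.star_star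
    rw [star_star] at h3
    exact DifferentiableAt.comp (g := star ∘ h ∘ star) z h3 h2
  have hinv : ∀ᶠ z in 𝓝 ζ', star (Ψ (star (Ψ z))) = z := by
    have h1 : ∀ j : Fin n, ∀ᶠ z in 𝓝 ζ', conj (Ψ (star (Ψ z)) j) - z j = 0 := by
      intro j
      refine hU (fun z => conj (Ψ (star (Ψ z)) j) - z j) ?_ ?_
      · have h2 : ∀ᶠ z in 𝓝 ζ', DifferentiableAt ℂ (fun z => Ψ z j) z := by
          filter_upwards [hΨd] with z hz
          exact differentiableAt_pi.1 hz j
        filter_upwards [hanti _ h2] with z h3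
        exact h3.sub ((differentiableAt_pi.1 (differentiableAt_id (𝕜 := ℂ) (x := z))) j)
      · filter_upwards [hfixr] with x hx hr
        have h3 := hx hr
        rw [h3]
        have h4 : conj (Ψ (θ x) j) = star (Ψ (θ x)) j := rfl
        rw [h4, h3, sub_self]
    filter_upwards [Filter.eventually_all.2 h1] with z hz
    funext j
    exact sub_eq_zero.1 (hz j)
  have nrefl : ∀ᶠ z in 𝓝 ζ', f z * conj (f (star (Ψ z))) - 1 = 0 := by
    refine hU (fun z => f z * conj (f (star (Ψ z))) - 1) ?_ ?_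
    · filter_upwards [hanti f hfd, hfd] with z h3 h4
      exact (h4.mul h3).sub_const 1
    · filter_upwards [hfixr, hreal] with x hx h1 hr
      rw [hx hr, Complex.mul_conj, Complex.normSq_eq_norm_sq, (h1 hr).2]
      simp
  refine ⟨Ψ, ?_, ?_, cd_of_diff hΨd, hfix, hinv, ?_, ?_, ?_⟩
  · obtain ⟨_, h2⟩ := hreal.self_of_nhds (fun i => by simp)
    rw [hθ0] at h2
    exact h2
  · exact (Pool.Agent.K708.Hd.holo_contDiffOn_nat isOpen_ball 1 _ hfdo).contDiffAt
      (ball_mem_nhds ζ' hρ)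
  · filter_upwards [nR] with z hz
    have h1 : ∑ j, z j * Ψ z j = R z / R z := by
      rw [hR, Finset.sum_div]
      refine Finset.sum_congr rfl fun j _ => ?_
      rw [hΨ]
      ring
    rw [h1, div_self hz]
  · filter_upwards [nR] with z hz
    refine ⟨by rw [hRz]; exact hz, fun v => ?_⟩
    rw [hRz, fderiv_sum (fderiv ℂ f z) v, Finset.mul_sum]
    refine Finset.sum_congr rfl fun j _ => ?_
    rw [hΨ]
    field_simp
  · filter_upwards [nrefl] with z h3 h4
    rw [h4, Complex.mul_conj, Complex.normSq_eq_norm_sq, sub_eq_zero] at h3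
    have h5 : ‖f z‖ ^ 2 = 1 := by exact_mod_cast h3
    nlinarith [norm_nonneg (f z)]

end

end Pool.Agent.Lib.MP_6ff8d9_an.H99
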