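import Pool.Agent.Lib.MP_6ff8d9_an_h20.TotReal

/-!
# CHART: a holomorphic chart in which the antiholomorphic involution `z ↦ conj (Ψ z)` is linear
-/

open Metric Filter Topology
open scoped ComplexConjugate

namespace Pool.Agent.Lib.MP_6ff8d9_an.H99

open Pool.Agent.Lib.MP_6ff8d9_an.Hom.H20

noncomputable section

/-- A holomorphic chart near a fixed point `ζ` of `z ↦ star (Ψ z)`: in the chart the involution is
the conjugate linear map `y ↦ star (L y)`.  `Θ` is the inverse chart, `h` the chart. -/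
structure SymChart {n : ℕ} (Ψ : (Fin n → ℂ) → (Fin n → ℂ)) (ζ : Fin n → ℂ) where
  /-- the derivative of `Ψ` at `ζ` -/
  L : (Fin n → ℂ) →L[ℂ] (Fin n → ℂ)
  /-- the parametrisation -/
  Θ : (Fin n → ℂ) → (Fin n → ℂ)
  /-- the chart -/
  h : (Fin n → ℂ) → (Fin n → ℂ)
  invol : ∀ x, star (L (star (L x))) = x
  Θ0 : Θ 0 = ζ
  h0 : h ζ = 0
  dΘ : HasStrictFDerivAt Θ (ContinuousLinearMap.id ℂ (Fin n → ℂ)) 0
  dh : HasStrictFDerivAt h (ContinuousLinearMap.id ℂ (Fin n → ℂ)) ζ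
  hΘ : ∀ᶠ y in 𝓝 (0 : Fin n → ℂ), DifferentiableAt ℂ Θ y
  hh : ∀ᶠ z in 𝓝 ζ, DifferentiableAt ℂ h z
  left : ∀ᶠ z in 𝓝 ζ, Θ (h z) = z
  right : ∀ᶠ y in 𝓝 (0 : Fin n → ℂ), h (Θ y) = y
  sym : ∀ᶠ y in 𝓝 (0 : Fin n → ℂ), star (Ψ (Θ y)) = Θ (star (L y))
  sym' : ∀ᶠ z in 𝓝 ζ, h (star (Ψ z)) = star (L (h z))

/-- **CHART.** Existence of the chart near every fixed point. -/
theorem exists_symChart {n : ℕ} (Ψ : (Fin n → ℂ) → (Fin n → ℂ)) (ζ : Fin n → ℂ)
    (hΨ : ContDiffAt ℂ 1 Ψ ζ) (hfix : star (Ψ ζ) = ζ)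
    (hinv : ∀ᶠ z in 𝓝 ζ, star (Ψ (star (Ψ z))) = z) : Nonempty (SymChart Ψ ζ) := by
  set L := fderiv ℂ Ψ ζ with hL
  have hLs : HasStrictFDerivAt Ψ L ζ := hΨ.hasStrictFDerivAt (by norm_num)
  have hLf : HasFDerivAt Ψ L ζ := hLs.hasFDerivAt
  have hΨζ : Ψ ζ = star ζ := by
    have h0 := congrArg star hfix
    rwa [star_star] at h0
  have hcc : ∀ x, star (L (star (L x))) = x := by
    have h1 : HasFDerivAt (𝕜 := ℝ) Ψ (L.restrictScalars ℝ) ζ := hLf.restrictScalars ℝ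
    have h2 := h1.star
    have h3 : HasFDerivAt (𝕜 := ℝ) (fun z => star (Ψ z))
      (((starL' ℝ : (Fin n → ℂ) ≃L[ℝ] (Fin n → ℂ)) : (Fin n → ℂ) →L[ℝ] (Fin n → ℂ)) ∘L
        L.restrictScalars ℝ) (star (Ψ ζ)) := by
      rw [hfix]
      exact h2
    have h4 := h3.comp ζ h2
    have h5 : HasFDerivAt (𝕜 := ℝ) ((fun z => star (Ψ z)) ∘ fun z => star (Ψ z))
      (ContinuousLinearMap.id ℝ (Fin n → ℂ)) ζ := by
      refine (hasFDerivAt_id ζ).congr_of_eventuallyEq ?_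
      filter_upwards [hinv] with z hz
      exact hz
    have h6 := h4.unique h5
    intro x
    have h7 := congrArg (fun T : (Fin n → ℂ) →L[ℝ] (Fin n → ℂ) => T x) h6
    exact h7
  set h : (Fin n → ℂ) → (Fin n → ℂ) :=
    fun z => (1 / 2 : ℂ) • ((z - ζ) + conjL L (Ψ z - star ζ)) with hh
  have hLL : (conjL L).comp L = ContinuousLinearMap.id ℂ (Fin n → ℂ) := by
    ext1 x
    exact hcc x
  have hcd : ContDiffAt ℂ 1 h ζ := by
    refine ContDiffAt.const_smul _ ?_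
    exact (contDiffAt_id.sub contDiffAt_const).add
      ((conjL L).contDiff.contDiffAt.comp ζ (hΨ.sub contDiffAt_const))
  have hder : HasFDerivAt h ((ContinuousLinearEquiv.refl ℂ (Fin n → ℂ) :
      (Fin n → ℂ) ≃L[ℂ] (Fin n → ℂ)) : (Fin n → ℂ) →L[ℂ] (Fin n → ℂ)) ζ := by
    have h1 : HasFDerivAt h ((1 / 2 : ℂ) • (ContinuousLinearMap.id ℂ (Fin n → ℂ) +
        (conjL L).comp L)) ζ := by
      refine HasFDerivAt.fun_const_smul ?_ _
      exact ((hasFDerivAt_id ζ).sub_const ζ).add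
        ((conjL L).hasFDerivAt.comp ζ (hLf.sub_const (star ζ)))
    rw [hLL] at h1
    convert! h1 using 1
    ext x
    simp
    ring
  have hhζ : h ζ = 0 := by
    simp only [hh, hΨζ, sub_self, map_zero, add_zero, smul_zero]
  set k := hcd.localInverse hder one_ne_zero with hk
  have hs := hcd.hasStrictFDerivAt' hder one_ne_zero
  have e1 : ∀ᶠ z in 𝓝 ζ, k (h z) = z := hs.eventually_left_inverse
  have e2 : ∀ᶠ y in 𝓝 (0 : Fin n → ℂ), h (k y) = y := by
    have := hs.eventually_right_inverse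
    rwa [hhζ] at this
  have ek : ContDiffAt ℂ 1 k 0 := by
    have h1 := hcd.to_localInverse hder one_ne_zero
    rwa [hhζ] at h1
  have e3 : ∀ᶠ y in 𝓝 (0 : Fin n → ℂ), DifferentiableAt ℂ k y := by
    have h2 := ek.eventually (by norm_num)
    exact h2.mono fun y hy => hy.differentiableAt (by norm_num)
  have e3' : ∀ᶠ z in 𝓝 ζ, DifferentiableAt ℂ h z := by
    have h2 := hcd.eventually (by norm_num)
    exact h2.mono fun y hy => hy.differentiableAt (by norm_num)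
  have ek0 : k 0 = ζ := by
    have := e1.self_of_nhds
    rwa [hhζ] at this
  have e4 : Tendsto k (𝓝 (0 : Fin n → ℂ)) (𝓝 ζ) := by
    have := hs.localInverse_tendsto
    rwa [hhζ] at this
  have hσc : ContinuousAt (fun z => star (Ψ z)) ζ := hΨ.continuousAt.star
  have hσt : Tendsto (fun z => star (Ψ z)) (𝓝 ζ) (𝓝 ζ) := by
    have := hσc.tendsto
    rwa [hfix] at this
  have e5 : ∀ᶠ z in 𝓝 ζ, h (star (Ψ z)) = star (L (h z)) := by
    filter_upwards [hinv] with z hz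
    have h1 : Ψ (star (Ψ z)) = star z := by rw [← hz, star_star, hz]
    simp only [hh]
    rw [h1, map_smul, map_add, conjL_apply, conjL_apply, star_smul, star_add, hcc]
    have h2 : star (star z - star ζ) = z - ζ := by rw [star_sub, star_star, star_star]
    have h3 : star (Ψ z - star ζ) = star (Ψ z) - ζ := by rw [star_sub, star_star]
    have h4 : star (1 / 2 : ℂ) = 1 / 2 := by
      rw [Complex.star_def, map_div₀, map_one, map_ofNat]
    rw [h2, h3, h4, add_comm]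
  have e6 : ∀ᶠ y in 𝓝 (0 : Fin n → ℂ), star (Ψ (k y)) = k (star (L y)) := by
    filter_upwards [e2, e4.eventually e5, e4.eventually (hσt.eventually e1)] with y h2 h5 h1
    rw [h2] at h5
    rw [← h5, h1]
  have edh : HasStrictFDerivAt h (ContinuousLinearMap.id ℂ (Fin n → ℂ)) ζ := hs
  have edk : HasStrictFDerivAt k (ContinuousLinearMap.id ℂ (Fin n → ℂ)) 0 := by
    have h1 := hs.to_localInverse
    rw [hhζ] at h1
    exact h1
  exact ⟨{ L := L, Θ := k, h := h, invol := hcc, Θ0 := ek0, h0 := hhζ, dΘ := edk, dh := edh,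
           hΘ := e3, hh := e3', left := e1, right := e2, sym := e6, sym' := e5 }⟩

end

end Pool.Agent.Lib.MP_6ff8d9_an.H99
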