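import Pool.Agent.Lib.MP_6ff8d9_an_h99.Chart

/-!
# CONE: the cone attached to a contact point
-/

open Metric Filter Topology
open scoped ComplexConjugate

namespace Pool.Agent.Lib.MP_6ff8d9_an.H99

noncomputable section

/-- Facts at a contact point `ζ` of `F` (`‖F ζ‖ = 1` on the sphere): `Ψ` is the gradient of `F`
divided by the radial derivative. -/
structure Contact {n : ℕ} (F : (Fin n → ℂ) → ℂ) (Ψ : (Fin n → ℂ) → (Fin n → ℂ))
    (ζ : Fin n → ℂ) : Prop where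
  norm1 : ‖F ζ‖ = 1
  cdF : ContDiffAt ℂ 1 F ζ
  cdΨ : ContDiffAt ℂ 1 Ψ ζ
  fix : star (Ψ ζ) = ζ
  inv : ∀ᶠ z in 𝓝 ζ, star (Ψ (star (Ψ z))) = z
  eul : ∀ᶠ z in 𝓝 ζ, ∑ j, z j * Ψ z j = 1
  grad : ∀ᶠ z in 𝓝 ζ, fderiv ℂ F z z ≠ 0 ∧ ∀ v, fderiv ℂ F z v = fderiv ℂ F z z * ∑ j, Ψ z j * v j
  fixnorm : ∀ᶠ z in 𝓝 ζ, star (Ψ z) = z → ‖F z‖ = 1

variable {n : ℕ} {F : (Fin n → ℂ) → ℂ} {Ψ : (Fin n → ℂ) → (Fin n → ℂ)} {ζ : Fin n → ℂ}

/-- the Hermitian product with `ζ` -/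
def herm (ζ v : Fin n → ℂ) : ℂ := ∑ i, conj (ζ i) * v i

lemma herm_add (ζ v w : Fin n → ℂ) : herm ζ (v + w) = herm ζ v + herm ζ w := by
  simp [herm, mul_add, Finset.sum_add_distrib]

lemma herm_smul (ζ : Fin n → ℂ) (c : ℂ) (v : Fin n → ℂ) : herm ζ (c • v) = c * herm ζ v := by
  unfold herm
  rw [Finset.mul_sum]
  refine Finset.sum_congr rfl fun i _ => ?_
  simp only [Pi.smul_apply, smul_eq_mul]
  ring

lemma herm_self (z : Fin n → ℂ) : herm z z = ((∑ i, ‖z i‖ ^ 2 : ℝ) : ℂ) := by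
  unfold herm
  push_cast
  refine Finset.sum_congr rfl fun i _ => ?_
  rw [mul_comm, Complex.mul_conj, Complex.normSq_eq_norm_sq]
  push_cast
  rfl

/-- decomposition into real and imaginary parts with respect to `y ↦ star (L y)` -/
lemma real_parts {L : (Fin n → ℂ) →L[ℂ] (Fin n → ℂ)} (hL : ∀ x, star (L (star (L x))) = x)
    (y : Fin n → ℂ) :
    star (L ((1 / 2 : ℂ) • (y + star (L y)))) = (1 / 2 : ℂ) • (y + star (L y)) ∧
    star (L ((1 / (2 * Complex.I) : ℂ) • (y - star (L y)))) =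
      (1 / (2 * Complex.I) : ℂ) • (y - star (L y)) ∧
    y = (1 / 2 : ℂ) • (y + star (L y)) +
      Complex.I • ((1 / (2 * Complex.I) : ℂ) • (y - star (L y))) := by
  have h2 : star (1 / 2 : ℂ) = 1 / 2 := by
    rw [Complex.star_def, map_div₀, map_one, map_ofNat]
  have h3 : star (1 / (2 * Complex.I) : ℂ) = - (1 / (2 * Complex.I)) := by
    rw [Complex.star_def, map_div₀, map_one, map_mul, Complex.conj_I, map_ofNat]
    field_simp
  refine ⟨?_, ?_, ?_⟩
  · rw [map_smul, map_add, star_smul, star_add, hL, h2, add_comm]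
  · rw [map_smul, map_sub, star_smul, star_sub, hL, h3, neg_smul, ← smul_neg, neg_sub]
  · rw [smul_smul]
    have : Complex.I * (1 / (2 * Complex.I)) = 1 / 2 := by
      field_simp
    rw [this, ← smul_add]
    have h4 : y + star (L y) + (y - star (L y)) = (2 : ℂ) • y := by
      rw [two_smul]; abel
    rw [h4, smul_smul]
    norm_num

lemma real_smul {L : (Fin n → ℂ) →L[ℂ] (Fin n → ℂ)} {v : Fin n → ℂ} (hv : star (L v) = v)
    (t : ℝ) : star (L ((t : ℂ) • v)) = (t : ℂ) • v := by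
  rw [map_smul, star_smul, hv]
  congr 1
  exact Complex.conj_ofReal t

lemma real_add {L : (Fin n → ℂ) →L[ℂ] (Fin n → ℂ)} {v w : Fin n → ℂ} (hv : star (L v) = v)
    (hw : star (L w) = w) : star (L (v + w)) = v + w := by
  rw [map_add, star_add, hv, hw]

/-- a sphere-normalised function of one real variable has derivative orthogonal to its value -/
lemma re_zero_of_norm_one {g : ℝ → ℂ} {D : ℂ} (hg : HasDerivAt g D 0)
    (h1 : ∀ᶠ t in 𝓝 (0 : ℝ), ‖g t‖ = 1) : (conj (g 0) * D).re = 0 := by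
  have h2 := hg.norm_sq
  have h3 : HasDerivAt (fun t => ‖g t‖ ^ 2) 0 0 := by
    refine (hasDerivAt_const (0 : ℝ) (1 : ℝ)).congr_of_eventuallyEq ?_
    filter_upwards [h1] with t ht
    rw [ht, one_pow]
  have h4 := h2.unique h3
  have h5 : inner ℝ (g 0) D = (conj (g 0) * D).re := by
    rw [Complex.inner, mul_comm]
  rw [h5] at h4
  linarith

namespace Contact

variable (hC : Contact F Ψ ζ) (c : SymChart Ψ ζ)

include hC

lemma psi_eq : Ψ ζ = star ζ := by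
  have h0 := congrArg star hC.fix
  rwa [star_star] at h0

lemma grad_herm (v : Fin n → ℂ) : fderiv ℂ F ζ v = fderiv ℂ F ζ ζ * herm ζ v := by
  have h1 := hC.grad.self_of_nhds.2 v
  rw [hC.psi_eq] at h1
  exact h1

lemma herm_one : herm ζ ζ = 1 := by
  have h1 := hC.eul.self_of_nhds
  rw [hC.psi_eq] at h1
  rw [← h1]
  unfold herm
  exact Finset.sum_congr rfl fun i _ => mul_comm _ _

/-- on the real points of the chart: `‖Θ‖ = 1` and `‖F ∘ Θ‖ = 1` -/
lemma real_points : ∀ᶠ y in 𝓝 (0 : Fin n → ℂ), star (c.L y) = y →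
    ∑ i, ‖c.Θ y i‖ ^ 2 = 1 ∧ ‖F (c.Θ y)‖ = 1 ∧ star (Ψ (c.Θ y)) = c.Θ y := by
  have hΘ : Tendsto c.Θ (𝓝 0) (𝓝 ζ) := by
    have := c.dΘ.hasFDerivAt.continuousAt.tendsto
    rwa [c.Θ0] at this
  filter_upwards [c.sym, hΘ.eventually hC.eul, hΘ.eventually hC.fixnorm] with y h1 h2 h3 hy
  rw [hy] at h1
  refine ⟨?_, h3 h1, h1⟩
  have h4 : Ψ (c.Θ y) = star (c.Θ y) := by rw [← h1, star_star, h1]
  rw [h4] at h2
  have h5 : ((∑ i, ‖c.Θ y i‖ ^ 2 : ℝ) : ℂ) = 1 := by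
    rw [← h2, ← herm_self]
    unfold herm
    exact Finset.sum_congr rfl fun i _ => mul_comm _ _
  exact_mod_cast h5

/-- real directions: `F'(ζ) v = F(ζ) i β`, and `⟨v, ζ⟩` is imaginary -/
lemma real_dir {v : Fin n → ℂ} (hv : star (c.L v) = v) :
    fderiv ℂ F ζ v = F ζ * (Complex.I * ((conj (F ζ) * fderiv ℂ F ζ v).im : ℂ)) ∧
      (herm ζ v).re = 0 := by
  have hline : Tendsto (fun t : ℝ => (t : ℂ) • v) (𝓝 0) (𝓝 0) := by
    have h1 : Continuous fun t : ℝ => (t : ℂ) • v := by fun_prop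
    have := h1.tendsto 0
    simpa using this
  have hreal := hline.eventually (hC.real_points c)
  have hd0 : HasDerivAt (fun t : ℝ => (t : ℂ) • v) v 0 := by
    have h1 : HasDerivAt (fun t : ℝ => (t : ℂ)) 1 0 := Complex.ofRealCLM.hasDerivAt
    simpa using h1.smul_const v
  have hΘ1 : HasDerivAt (fun t : ℝ => c.Θ ((t : ℂ) • v)) v 0 := by
    have h1 : HasFDerivAt (𝕜 := ℝ) c.Θ
        ((ContinuousLinearMap.id ℂ (Fin n → ℂ)).restrictScalars ℝ) (((0 : ℝ) : ℂ) • v) := by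
      have h0 : (((0 : ℝ) : ℂ) • v) = 0 := by simp
      rw [h0]
      exact c.dΘ.hasFDerivAt.restrictScalars ℝ
    exact h1.comp_hasDerivAt (0 : ℝ) hd0
  have hΘ00 : c.Θ (((0 : ℝ) : ℂ) • v) = ζ := by
    rw [Complex.ofReal_zero, zero_smul, c.Θ0]
  constructor
  · have h2 : HasDerivAt (fun t : ℝ => F (c.Θ ((t : ℂ) • v))) (fderiv ℂ F ζ v) 0 := by
      have h1 : HasFDerivAt (𝕜 := ℝ) F ((fderiv ℂ F ζ).restrictScalars ℝ)
          (c.Θ (((0 : ℝ) : ℂ) • v)) := by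
        rw [hΘ00]
        exact (hC.cdF.differentiableAt (by norm_num)).hasFDerivAt.restrictScalars ℝ
      exact h1.comp_hasDerivAt (0 : ℝ) hΘ1
    have h3 := re_zero_of_norm_one h2 (by
      filter_upwards [hreal] with t ht
      exact (ht (real_smul hv t)).2.1)
    simp only [hΘ00] at h3
    have h4 : conj (F ζ) * fderiv ℂ F ζ v =
        Complex.I * ((conj (F ζ) * fderiv ℂ F ζ v).im : ℂ) := by
      apply Complex.ext
      · rw [h3]; simp
      · simp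
    have h5 : F ζ * conj (F ζ) = 1 := by
      rw [Complex.mul_conj, Complex.normSq_eq_norm_sq, hC.norm1]
      simp
    calc fderiv ℂ F ζ v = F ζ * conj (F ζ) * fderiv ℂ F ζ v := by rw [h5, one_mul]
      _ = F ζ * (conj (F ζ) * fderiv ℂ F ζ v) := by ring
      _ = _ := by rw [h4]; simp
  · have h1 : HasDerivAt (fun t : ℝ => ∑ i, ‖c.Θ ((t : ℂ) • v) i‖ ^ 2)
        (∑ i, 2 * inner ℝ (ζ i) (v i)) 0 := by
      refine HasDerivAt.fun_sum fun i _ => ?_
      have h2 : HasDerivAt (fun t : ℝ => c.Θ ((t : ℂ) • v) i) (v i) 0 := by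
        exact (hasDerivAt_pi.1 hΘ1) i
      have h3 := h2.norm_sq
      rw [hΘ00] at h3
      exact h3
    have h2 : HasDerivAt (fun t : ℝ => ∑ i, ‖c.Θ ((t : ℂ) • v) i‖ ^ 2) 0 0 := by
      refine (hasDerivAt_const (0 : ℝ) (1 : ℝ)).congr_of_eventuallyEq ?_
      filter_upwards [hreal] with t ht
      exact (ht (real_smul hv t)).1
    have h3 := h1.unique h2
    rw [← Finset.mul_sum] at h3
    have h4 : (herm ζ v).re = ∑ i, inner ℝ (ζ i) (v i) := by
      unfold herm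
      rw [Complex.re_sum]
      refine Finset.sum_congr rfl fun i _ => ?_
      rw [Complex.inner, mul_comm]
    rw [h4]
    linarith

/-- the radial derivative at the contact point is a nonnegative multiple of the value -/
lemma radial_nonneg (hlt : ∀ z : Fin n → ℂ, ∑ i, ‖z i‖ ^ 2 < 1 → ‖F z‖ < 1) :
    0 ≤ (conj (F ζ) * fderiv ℂ F ζ ζ).re := by
  have hd0 : HasDerivAt (fun t : ℝ => (t : ℂ) • ζ) ζ 1 := by
    have h1 : HasDerivAt (fun t : ℝ => (t : ℂ)) 1 1 := Complex.ofRealCLM.hasDerivAt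
    simpa using h1.smul_const ζ
  have h11 : (((1 : ℝ) : ℂ) • ζ) = ζ := by simp
  have h2 : HasDerivAt (fun t : ℝ => F ((t : ℂ) • ζ)) (fderiv ℂ F ζ ζ) 1 := by
    have h1 : HasFDerivAt (𝕜 := ℝ) F ((fderiv ℂ F ζ).restrictScalars ℝ) (((1 : ℝ) : ℂ) • ζ) := by
      rw [h11]
      exact (hC.cdF.differentiableAt (by norm_num)).hasFDerivAt.restrictScalars ℝ
    exact h1.comp_hasDerivAt (1 : ℝ) hd0
  have h3 := h2.norm_sq
  rw [h11] at h3
  have h4 : inner ℝ (F ζ) (fderiv ℂ F ζ ζ) = (conj (F ζ) * fderiv ℂ F ζ ζ).re := by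
    rw [Complex.inner, mul_comm]
  rw [h4] at h3
  have h5 := (hasDerivAt_iff_tendsto_slope.1 h3).mono_left
    (nhdsWithin_mono (1 : ℝ) (fun x (hx : x ∈ Set.Iio (1 : ℝ)) => (ne_of_lt hx : x ≠ 1)))
  have h6 : ∀ᶠ t : ℝ in 𝓝[<] 1, 0 ≤ slope (fun t : ℝ => ‖F ((t : ℂ) • ζ)‖ ^ 2) 1 t := by
    have h7 : ∀ᶠ t : ℝ in 𝓝[<] 1, 0 < t :=
      nhdsWithin_le_nhds (eventually_gt_nhds zero_lt_one)
    filter_upwards [h7, self_mem_nhdsWithin] with t ht0 ht1
    have ht1' : t < 1 := ht1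
    rw [slope_def_field]
    have h8 : ‖F ((t : ℂ) • ζ)‖ < 1 := by
      refine hlt _ ?_
      have h9 : ∑ i, ‖((t : ℂ) • ζ) i‖ ^ 2 = t ^ 2 * ∑ i, ‖ζ i‖ ^ 2 := by
        rw [Finset.mul_sum]
        refine Finset.sum_congr rfl fun i _ => ?_
        rw [Pi.smul_apply, smul_eq_mul, norm_mul, Complex.norm_real, Real.norm_of_nonneg ht0.le]
        ring
      have h10 : ∑ i, ‖ζ i‖ ^ 2 = 1 := by
        have := hC.herm_one
        rw [herm_self] at this
        exact_mod_cast this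
      rw [h9, h10]
      nlinarith
    have h11' : ‖F (((1 : ℝ) : ℂ) • ζ)‖ = 1 := by
      rw [h11]
      exact hC.norm1
    rw [h11']
    refine div_nonneg_of_nonpos ?_ (by linarith)
    nlinarith [norm_nonneg (F ((t : ℂ) • ζ))]
  have h7 := ge_of_tendsto h5 h6
  linarith

/-- the good direction -/
lemma exists_dir (hlt : ∀ z : Fin n → ℂ, ∑ i, ‖z i‖ ^ 2 < 1 → ‖F z‖ < 1) :
    ∃ u : Fin n → ℂ, star (c.L u) = u ∧ (∃ b : ℝ, 0 < b ∧
      fderiv ℂ F ζ u = F ζ * (Complex.I * (b : ℂ))) ∧ 0 < (herm ζ u).im := by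
  set r := fderiv ℂ F ζ ζ with hr
  have hr0 : r ≠ 0 := hC.grad.self_of_nhds.1
  have hF0 : F ζ ≠ 0 := by
    intro h
    have := hC.norm1
    rw [h, norm_zero] at this
    exact zero_ne_one this
  have hFF : conj (F ζ) * F ζ = 1 := by
    rw [mul_comm, Complex.mul_conj, Complex.normSq_eq_norm_sq, hC.norm1]
    simp
  -- a real vector with nonzero derivative
  obtain ⟨v, hv, hv0⟩ : ∃ v : Fin n → ℂ, star (c.L v) = v ∧ fderiv ℂ F ζ v ≠ 0 := by
    obtain ⟨h1, h2, h3⟩ := real_parts c.invol ζ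
    by_contra hcon
    push Not at hcon
    have h4 := hcon _ h1
    have h5 := hcon _ h2
    apply hr0
    have h7 : fderiv ℂ F ζ ζ = fderiv ℂ F ζ ((1 / 2 : ℂ) • (ζ + star (c.L ζ)) +
        Complex.I • ((1 / (2 * Complex.I) : ℂ) • (ζ - star (c.L ζ)))) :=
      congrArg (fun x => fderiv ℂ F ζ x) h3
    have h6 : fderiv ℂ F ζ (Complex.I • ((1 / (2 * Complex.I) : ℂ) • (ζ - star (c.L ζ)))) =
        Complex.I • fderiv ℂ F ζ ((1 / (2 * Complex.I) : ℂ) • (ζ - star (c.L ζ))) := map_smul _ _ _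
    rw [hr, h7, map_add, h4, h6, h5]
    simp
  -- make the sign positive
  obtain ⟨u, hu, b, hb, hub⟩ : ∃ u : Fin n → ℂ, star (c.L u) = u ∧ ∃ b : ℝ, 0 < b ∧
      fderiv ℂ F ζ u = F ζ * (Complex.I * (b : ℂ)) := by
    obtain ⟨h1, -⟩ := hC.real_dir c hv
    set β := (conj (F ζ) * fderiv ℂ F ζ v).im with hβ
    have hβ0 : β ≠ 0 := by
      intro h
      apply hv0
      rw [h1, h]
      simp
    rcases lt_or_gt_of_ne hβ0 with h | h
    · refine ⟨((-1 : ℝ) : ℂ) • v, real_smul hv _, -β, by linarith, ?_⟩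
      have h6 : fderiv ℂ F ζ (((-1 : ℝ) : ℂ) • v) = ((-1 : ℝ) : ℂ) • fderiv ℂ F ζ v :=
        map_smul _ _ _
      rw [h6, h1]
      push_cast
      simp
    · exact ⟨v, hv, β, h, h1⟩
  refine ⟨u, hu, ⟨b, hb, hub⟩, ?_⟩
  -- sign of the imaginary part of `⟨u, ζ⟩`
  have h1 := hC.grad_herm u
  rw [hub, ← hr] at h1
  have h2 := (hC.real_dir c hu).2
  have h3 : herm ζ u = Complex.I * ((herm ζ u).im : ℂ) := by
    apply Complex.ext
    · rw [h2]; simp
    · simp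
  set s := (herm ζ u).im with hs
  rw [h3] at h1
  have h4 : conj (F ζ) * r * (s : ℂ) = (b : ℂ) := by
    have h5 : Complex.I * (F ζ * (b : ℂ)) = Complex.I * (r * (s : ℂ)) := by
      linear_combination h1
    have h6 := mul_left_cancel₀ Complex.I_ne_zero h5
    calc conj (F ζ) * r * (s : ℂ) = conj (F ζ) * (r * (s : ℂ)) := by ring
      _ = conj (F ζ) * (F ζ * (b : ℂ)) := by rw [h6]
      _ = conj (F ζ) * F ζ * (b : ℂ) := by ring
      _ = (b : ℂ) := by rw [hFF, one_mul]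
  have h5 := congrArg Complex.re h4
  rw [Complex.re_mul_ofReal, Complex.ofReal_re] at h5
  have h6 := hC.radial_nonneg hlt
  rw [← hr] at h6
  by_contra hcon
  push Not at hcon
  nlinarith

end Contact

end

end Pool.Agent.Lib.MP_6ff8d9_an.H99
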