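import Pool.Agent.Lib.MP_6ff8d9_an_h99.Cone

/-!
# CONE estimates
-/

open Metric Filter Topology
open scoped ComplexConjugate

namespace Pool.Agent.Lib.MP_6ff8d9_an.H99

noncomputable section

variable {n : ℕ} {F : (Fin n → ℂ) → ℂ} {Ψ : (Fin n → ℂ) → (Fin n → ℂ)} {ζ : Fin n → ℂ}

/-- the point `ξ + i τ w` -/
def pt (ξ w : Fin n → ℂ) (τ : ℝ) : Fin n → ℂ := ξ + ((τ : ℂ) * Complex.I) • w

lemma pt_sub (ξ w : Fin n → ℂ) (τ : ℝ) : pt ξ w τ - ξ = ((τ : ℂ) * Complex.I) • w := by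
  simp [pt]

lemma star_pt {L : (Fin n → ℂ) →L[ℂ] (Fin n → ℂ)} {ξ w : Fin n → ℂ} (hξ : star (L ξ) = ξ)
    (hw : star (L w) = w) (τ : ℝ) : star (L (pt ξ w τ)) = pt ξ w (-τ) := by
  unfold pt
  rw [map_add, map_smul, star_add, star_smul, hξ, hw]
  congr 2
  rw [Complex.star_def, map_mul, Complex.conj_ofReal, Complex.conj_I]
  push_cast
  ring

lemma norm_pt_sub (ξ w : Fin n → ℂ) (τ : ℝ) : ‖pt ξ w τ - ξ‖ = |τ| * ‖w‖ := by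
  rw [pt_sub, norm_smul, norm_mul, Complex.norm_I, mul_one, Complex.norm_real, Real.norm_eq_abs]

lemma norm_pt_lt {u ξ w : Fin n → ℂ} {δ : ℝ} (hδ1 : δ ≤ 1) (hξ : ‖ξ‖ < δ) (hw : ‖w - u‖ < δ)
    {τ : ℝ} (hτ : |τ| < δ) : ‖pt ξ w τ‖ < δ * (‖u‖ + 2) := by
  have h1 : ‖w‖ ≤ ‖u‖ + 1 := by
    have := norm_add_le (w - u) u
    rw [sub_add_cancel] at this
    linarith
  have h2 : ‖pt ξ w τ‖ ≤ ‖ξ‖ + |τ| * ‖w‖ := by
    have := norm_add_le ξ (pt ξ w τ - ξ)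
    rwa [add_sub_cancel, norm_pt_sub] at this
  have h3 : |τ| * ‖w‖ ≤ δ * (‖u‖ + 1) :=
    mul_le_mul hτ.le h1 (norm_nonneg _) ((abs_nonneg τ).trans hτ.le)
  nlinarith

/-- everything that holds near `0` holds on a small cone -/
lemma near (u : Fin n → ℂ) {P : (Fin n → ℂ) → Prop} (hP : ∀ᶠ y in 𝓝 (0 : Fin n → ℂ), P y) :
    ∃ δ > 0, δ ≤ 1 ∧ ∀ ξ w : Fin n → ℂ, ‖ξ‖ < δ → ‖w - u‖ < δ → ∀ τ : ℝ, |τ| < δ →
      P (pt ξ w τ) := by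
  obtain ⟨ρ, hρ, h⟩ := Metric.eventually_nhds_iff_ball.1 hP
  have hu : 0 < ‖u‖ + 2 := by positivity
  refine ⟨min 1 (ρ / (‖u‖ + 2)), by positivity, min_le_left _ _, fun ξ w hξ hw τ hτ => h _ ?_⟩
  rw [mem_ball_zero_iff]
  refine (norm_pt_lt (min_le_left _ _) hξ hw hτ).trans_le ?_
  calc min 1 (ρ / (‖u‖ + 2)) * (‖u‖ + 2) ≤ ρ / (‖u‖ + 2) * (‖u‖ + 2) :=
        mul_le_mul_of_nonneg_right (min_le_right _ _) hu.le
    _ = ρ := by field_simp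

lemma near_real (u : Fin n → ℂ) {P : (Fin n → ℂ) → Prop} (hP : ∀ᶠ y in 𝓝 (0 : Fin n → ℂ), P y) :
    ∃ δ > 0, δ ≤ 1 ∧ ∀ ξ w : Fin n → ℂ, ‖ξ‖ < δ → ‖w - u‖ < δ → ∀ τ : ℝ, |τ| < δ →
      P (pt ξ w τ) ∧ P ξ ∧ P (pt ξ w (-τ)) := by
  obtain ⟨δ, hδ, h1, h⟩ := near u hP
  refine ⟨δ, hδ, h1, fun ξ w hξ hw τ hτ => ⟨h ξ w hξ hw τ hτ, ?_, h ξ w hξ hw (-τ) ?_⟩⟩
  · have := h ξ w hξ hw 0 (by simpa using hδ)
    simpa [pt] using this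
  · rwa [abs_neg]

/-- **CONE.** -/
theorem Contact.cone (hC : Contact F Ψ ζ) (c : SymChart Ψ ζ) {u : Fin n → ℂ}
    (hus : 0 < (herm ζ u).im) :
    ∃ c₁ > 0, ∃ C₂ > 0, ∃ δ > 0, δ ≤ 1 ∧ ∀ ξ w : Fin n → ℂ, star (c.L ξ) = ξ → star (c.L w) = w →
      ‖ξ‖ < δ → ‖w - u‖ < δ → ∀ τ : ℝ, 0 < τ → τ < δ →
        ∑ i, ‖c.Θ (pt ξ w τ) i‖ ^ 2 ≤ 1 - c₁ * τ ∧
        ‖c.Θ (pt ξ w τ) - star (Ψ (c.Θ (pt ξ w τ)))‖ ≤ C₂ * τ ∧
        1 - C₂ * τ ≤ ‖F (c.Θ (pt ξ w τ))‖ := by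
  set s := (herm ζ u).im with hs
  have hu1 : 0 < ‖u‖ + 1 := by positivity
  -- strict derivative of the squared norm
  have hN : HasStrictFDerivAt (𝕜 := ℝ) (fun y : Fin n → ℂ => ∑ i, ‖c.Θ y i‖ ^ 2)
      (∑ i, 2 • (innerSL ℝ (ζ i)).comp
        ((ContinuousLinearMap.proj (R := ℂ) (φ := fun _ : Fin n => ℂ) i).restrictScalars ℝ)) 0 := by
    refine HasStrictFDerivAt.fun_sum fun i _ => ?_
    have h1 : HasStrictFDerivAt (𝕜 := ℂ) (fun y => c.Θ y i)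
        ((ContinuousLinearMap.proj (R := ℂ) (φ := fun _ : Fin n => ℂ) i).comp
          (ContinuousLinearMap.id ℂ (Fin n → ℂ))) 0 :=
      (ContinuousLinearMap.proj (R := ℂ) (φ := fun _ : Fin n => ℂ) i).hasStrictFDerivAt.comp 0 c.dΘ
    have h0 := hasStrictFDerivAt_norm_sq (c.Θ 0 i)
    have h2 := h0.comp 0 (h1.restrictScalars ℝ)
    rw [c.Θ0] at h2
    exact h2
  set N' := (∑ i, 2 • (innerSL ℝ (ζ i)).comp
        ((ContinuousLinearMap.proj (R := ℂ) (φ := fun _ : Fin n => ℂ) i).restrictScalars ℝ)) with hN'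
  have hN'v : ∀ v : Fin n → ℂ, N' v = 2 * (herm ζ v).re := by
    intro v
    rw [hN', sum_apply, herm, Complex.re_sum, Finset.mul_sum]
    refine Finset.sum_congr rfl fun i _ => ?_
    have h1 : (2 • (innerSL ℝ (ζ i)).comp
        ((ContinuousLinearMap.proj (R := ℂ) (φ := fun _ : Fin n => ℂ) i).restrictScalars ℝ)) v =
        2 • inner ℝ (ζ i) (v i) := rfl
    rw [h1, Complex.inner, nsmul_eq_mul, mul_comm (v i)]
    norm_num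
  set ε : ℝ := s / (2 * (‖u‖ + 1)) with hε
  have hε0 : 0 < ε := by positivity
  have hlo := hN.isLittleO.def hε0
  rw [Filter.eventually_iff_exists_mem] at hlo
  obtain ⟨S, hS, hSlo⟩ := hlo
  rw [nhds_prod_eq, mem_prod_same_iff] at hS
  obtain ⟨T, hT, hTS⟩ := hS
  obtain ⟨δ₁, hδ₁, hδ₁1, hn1⟩ := near_real u (P := fun y => y ∈ T) hT
  obtain ⟨δ₂, hδ₂, hδ₂1, hn2⟩ := near_real u (hC.real_points c)
  -- Lipschitz bounds
  obtain ⟨K₁, S₁, hS₁, hK₁⟩ := c.dΘ.exists_lipschitzOnWith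
  obtain ⟨δ₃, hδ₃, hδ₃1, hn3⟩ := near_real u (P := fun y => y ∈ S₁) hS₁
  have hFs : HasStrictFDerivAt F (fderiv ℂ F ζ) (c.Θ 0) := by
    rw [c.Θ0]
    exact hC.cdF.hasStrictFDerivAt (by norm_num)
  obtain ⟨K₂, S₂, hS₂, hK₂⟩ := (hFs.comp 0 c.dΘ).exists_lipschitzOnWith
  obtain ⟨δ₄, hδ₄, hδ₄1, hn4⟩ := near_real u (P := fun y => y ∈ S₂) hS₂
  obtain ⟨δ₅, hδ₅, hδ₅1, hn5⟩ := near_real u c.sym
  obtain ⟨δ₆, hδ₆, hn6⟩ : ∃ δ₆ > 0, ∀ w : Fin n → ℂ, ‖w - u‖ < δ₆ → s / 2 < (herm ζ w).im := by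
    have hcont : Continuous fun w : Fin n → ℂ => (herm ζ w).im := by
      unfold herm
      fun_prop
    have h1 : ∀ᶠ w in 𝓝 u, s / 2 < (herm ζ w).im :=
      (hcont.tendsto u).eventually_const_lt (by linarith)
    obtain ⟨ρ, hρ, h2⟩ := Metric.eventually_nhds_iff_ball.1 h1
    exact ⟨ρ, hρ, fun w hw => h2 w (by rwa [mem_ball, dist_eq_norm])⟩
  set δ := min 1 (min δ₁ (min δ₂ (min δ₃ (min δ₄ (min δ₅ δ₆))))) with hδ
  have hδ0 : 0 < δ := by positivity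
  have g0 : δ ≤ 1 := min_le_left _ _
  have g1 : δ ≤ δ₁ := (min_le_right _ _).trans (min_le_left _ _)
  have g2 : δ ≤ δ₂ := (min_le_right _ _).trans ((min_le_right _ _).trans (min_le_left _ _))
  have g3 : δ ≤ δ₃ := (min_le_right _ _).trans ((min_le_right _ _).trans
    ((min_le_right _ _).trans (min_le_left _ _)))
  have g4 : δ ≤ δ₄ := (min_le_right _ _).trans ((min_le_right _ _).trans
    ((min_le_right _ _).trans ((min_le_right _ _).trans (min_le_left _ _))))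
  have g5 : δ ≤ δ₅ := (min_le_right _ _).trans ((min_le_right _ _).trans
    ((min_le_right _ _).trans ((min_le_right _ _).trans ((min_le_right _ _).trans
      (min_le_left _ _)))))
  have g6 : δ ≤ δ₆ := (min_le_right _ _).trans ((min_le_right _ _).trans
    ((min_le_right _ _).trans ((min_le_right _ _).trans ((min_le_right _ _).trans
      (min_le_right _ _)))))
  refine ⟨s / 2, by positivity, (2 * K₁ + K₂ + 1) * (‖u‖ + 1), by positivity, δ, hδ0, g0,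
    fun ξ w hξr hwr hξ hw τ hτ0 hτ => ?_⟩
  have hτa : |τ| < δ := by rwa [abs_of_pos hτ0]
  have hwn : ‖w‖ ≤ ‖u‖ + 1 := by
    have := norm_add_le (w - u) u
    rw [sub_add_cancel] at this
    linarith
  have hyn : ‖pt ξ w τ - ξ‖ ≤ τ * (‖u‖ + 1) := by
    rw [norm_pt_sub, abs_of_pos hτ0]
    exact mul_le_mul_of_nonneg_left hwn hτ0.le
  obtain ⟨q1, q2, -⟩ := hn1 ξ w (hξ.trans_le g1) (hw.trans_le g1) τ (hτa.trans_le g1)
  obtain ⟨-, q3, -⟩ := hn2 ξ w (hξ.trans_le g2) (hw.trans_le g2) τ (hτa.trans_le g2)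
  obtain ⟨q4, -, q5⟩ := hn3 ξ w (hξ.trans_le g3) (hw.trans_le g3) τ (hτa.trans_le g3)
  obtain ⟨q6, q7, -⟩ := hn4 ξ w (hξ.trans_le g4) (hw.trans_le g4) τ (hτa.trans_le g4)
  obtain ⟨q8, -, -⟩ := hn5 ξ w (hξ.trans_le g5) (hw.trans_le g5) τ (hτa.trans_le g5)
  have q9 := hn6 w (hw.trans_le g6)
  obtain ⟨r1, r2, -⟩ := q3 hξr
  refine ⟨?_, ?_, ?_⟩
  · have h1 := hSlo (pt ξ w τ, ξ) (hTS (Set.mk_mem_prod q1 q2))
    simp only at h1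
    rw [r1, hN'v, Real.norm_eq_abs] at h1
    have h2 := (abs_le.1 h1).2
    have h3 : (herm ζ (pt ξ w τ - ξ)).re = -(τ * (herm ζ w).im) := by
      rw [pt_sub, herm_smul]
      simp [Complex.mul_re, Complex.mul_im]
    rw [h3] at h2
    have h4 : ε * ‖pt ξ w τ - ξ‖ ≤ τ * (s / 2) := by
      calc ε * ‖pt ξ w τ - ξ‖ ≤ ε * (τ * (‖u‖ + 1)) := mul_le_mul_of_nonneg_left hyn hε0.le
        _ = τ * (s / 2) := by
          rw [hε]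
          field_simp
    nlinarith
  · rw [q8, star_pt hξr hwr]
    have h1 := hK₁.dist_le_mul _ q4 _ q5
    rw [dist_eq_norm, dist_eq_norm] at h1
    have h2 : ‖pt ξ w τ - pt ξ w (-τ)‖ ≤ 2 * (τ * (‖u‖ + 1)) := by
      have h3 : pt ξ w τ - pt ξ w (-τ) = (pt ξ w τ - ξ) - (pt ξ w (-τ) - ξ) := by abel
      rw [h3]
      refine (norm_sub_le _ _).trans ?_
      have h4 : ‖pt ξ w (-τ) - ξ‖ ≤ τ * (‖u‖ + 1) := by
        rw [norm_pt_sub, abs_neg, abs_of_pos hτ0]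
        exact mul_le_mul_of_nonneg_left hwn hτ0.le
      linarith
    have hK : (0 : ℝ) ≤ K₁ := K₁.2
    have hK' : (0 : ℝ) ≤ K₂ := K₂.2
    calc ‖c.Θ (pt ξ w τ) - c.Θ (pt ξ w (-τ))‖ ≤ K₁ * ‖pt ξ w τ - pt ξ w (-τ)‖ := h1
      _ ≤ K₁ * (2 * (τ * (‖u‖ + 1))) := mul_le_mul_of_nonneg_left h2 hK
      _ = (2 * K₁) * (‖u‖ + 1) * τ := by ring
      _ ≤ (2 * K₁ + K₂ + 1) * (‖u‖ + 1) * τ := by
        refine mul_le_mul_of_nonneg_right (mul_le_mul_of_nonneg_right ?_ hu1.le) hτ0.le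
        linarith
  · have h1 := hK₂.dist_le_mul _ q6 _ q7
    rw [dist_eq_norm, dist_eq_norm] at h1
    have hK : (0 : ℝ) ≤ K₁ := K₁.2
    have hK' : (0 : ℝ) ≤ K₂ := K₂.2
    have h2 : ‖F (c.Θ ξ)‖ - ‖F (c.Θ (pt ξ w τ))‖ ≤ (2 * K₁ + K₂ + 1) * (‖u‖ + 1) * τ := by
      have h3 := norm_sub_norm_le (F (c.Θ ξ)) (F (c.Θ (pt ξ w τ)))
      rw [norm_sub_rev] at h3
      calc ‖F (c.Θ ξ)‖ - ‖F (c.Θ (pt ξ w τ))‖ ≤ ‖F (c.Θ (pt ξ w τ)) - F (c.Θ ξ)‖ := h3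
        _ ≤ K₂ * ‖pt ξ w τ - ξ‖ := h1
        _ ≤ K₂ * (τ * (‖u‖ + 1)) := mul_le_mul_of_nonneg_left hyn hK'
        _ = K₂ * (‖u‖ + 1) * τ := by ring
        _ ≤ _ := by
          refine mul_le_mul_of_nonneg_right (mul_le_mul_of_nonneg_right ?_ hu1.le) hτ0.le
          linarith
    rw [r2] at h2
    linarith

end

end Pool.Agent.Lib.MP_6ff8d9_an.H99
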