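import Mathlib

/-!
# One variable lemmas: boundary uniqueness on a half disc, and a derivative bound from `Re`
-/

open Metric Filter Topology Complex
open scoped ComplexConjugate

namespace Pool.Agent.Lib.MP_6ff8d9_an.H99

noncomputable section

/-- upper half disc -/
def HD (δ : ℝ) : Set ℂ := ball 0 δ ∩ {z | 0 < z.im}

lemma isOpen_HD (δ : ℝ) : IsOpen (HD δ) :=
  isOpen_ball.inter (isOpen_lt continuous_const Complex.continuous_im)

/-- A bounded holomorphic function on a half disc which tends to `0` at the diameter, with the rate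
`ω (Im z)`, vanishes near the middle. -/
theorem half_disc {δ M : ℝ} (hδ : 0 < δ) {H : ℂ → ℂ}
    (hH : DifferentiableOn ℂ H (HD δ)) (hb : ∀ z ∈ HD δ, ‖H z‖ ≤ M)
    {ω : ℝ → ℝ} (hω : Tendsto ω (𝓝[>] 0) (𝓝 0))
    (hd : ∀ z ∈ HD δ, ‖H z‖ ≤ ω z.im) {t : ℝ} (ht : 0 < t) (htδ : t < δ / 8) :
    H (t * I) = 0 := by
  by_contra hne
  have ha : 0 < ‖H (t * I)‖ := norm_pos_iff.2 hne
  set a := ‖H (t * I)‖ with haa
  set d : ℝ := δ / 2 with hdd
  have hd0 : 0 < d := by positivity
  set φ : ℂ → ℂ := fun z => I * z * ((2 * d : ℝ) : ℂ) + ((d ^ 2 / 2 : ℝ) : ℂ) - z ^ 2 with hφ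
  have hφre : ∀ z : ℂ, (φ z).re = -(2 * d * z.im) + d ^ 2 / 2 - (z.re ^ 2 - z.im ^ 2) := by
    intro z
    simp only [hφ, Complex.sub_re, Complex.add_re, Complex.mul_re, Complex.I_re, Complex.I_im,
      Complex.ofReal_re, Complex.ofReal_im, Complex.mul_im, pow_two]
    ring
  have hsq : ∀ z : ℂ, ‖z‖ ^ 2 = z.re ^ 2 + z.im ^ 2 := by
    intro z
    rw [← Complex.normSq_eq_norm_sq, Complex.normSq_apply]
    ring
  obtain ⟨K, hK0, hK⟩ : ∃ K : ℝ, 0 ≤ K ∧ M * Real.exp (-(K * (d ^ 2 / 2))) < a := by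
    have h1 : Tendsto (fun K : ℝ => K * (d ^ 2 / 2)) atTop atTop :=
      tendsto_id.atTop_mul_const (by positivity)
    have h2 : Tendsto (fun K : ℝ => M * Real.exp (-(K * (d ^ 2 / 2)))) atTop (𝓝 (M * 0)) :=
      (Real.tendsto_exp_neg_atTop_nhds_zero.comp h1).const_mul M
    rw [mul_zero] at h2
    obtain ⟨K, h3, h4⟩ := ((h2.eventually_lt_const ha).and (eventually_ge_atTop 0)).exists
    exact ⟨K, h4, h3⟩
  obtain ⟨η, hη0, hηt, hη⟩ : ∃ η : ℝ, 0 < η ∧ η < t ∧ ω η * Real.exp (K * (d ^ 2 / 2)) < a := by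
    have h1 : Tendsto (fun η => ω η * Real.exp (K * (d ^ 2 / 2))) (𝓝[>] 0)
        (𝓝 (0 * Real.exp (K * (d ^ 2 / 2)))) := hω.mul_const _
    rw [zero_mul] at h1
    have h2 : ∀ᶠ η : ℝ in 𝓝[>] 0, η < t :=
      nhdsWithin_le_nhds (eventually_lt_nhds ht)
    obtain ⟨η, ⟨h3, h4⟩, h5⟩ :=
      (((h1.eventually_lt_const ha).and h2).and self_mem_nhdsWithin).exists
    exact ⟨η, h5, h4, h3⟩
  set U : Set ℂ := ball 0 d ∩ {z | η < z.im} with hU
  have hUo : IsOpen {z : ℂ | η < z.im} := isOpen_lt continuous_const Complex.continuous_im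
  have hcl1 : closure {z : ℂ | η < z.im} ⊆ {z : ℂ | η ≤ z.im} :=
    closure_minimal (fun z (hz : η < z.im) => (le_of_lt hz : η ≤ z.im))
      (isClosed_le continuous_const Complex.continuous_im)
  have hfr1 : frontier {z : ℂ | η < z.im} ⊆ {z : ℂ | z.im = η} := by
    intro z hz
    rw [hUo.frontier_eq] at hz
    have h1 := hcl1 hz.1
    have h2 : ¬ η < z.im := hz.2
    exact le_antisymm (not_lt.1 h2) h1
  have hcl : closure U ⊆ HD δ := by
    intro z hz
    have h1 : z ∈ closure (ball (0 : ℂ) d) := closure_mono Set.inter_subset_left hz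
    have h2 := hcl1 (closure_mono Set.inter_subset_right hz)
    rw [closure_ball (0 : ℂ) hd0.ne', mem_closedBall_zero_iff] at h1
    refine ⟨?_, ?_⟩
    · rw [mem_ball_zero_iff]
      linarith
    · exact hη0.trans_le h2
  have hdc : DiffContOnCl ℂ (fun z => H z * Complex.exp (K * φ z)) U := by
    have h1 : DifferentiableOn ℂ (fun z => H z * Complex.exp (K * φ z)) (closure U) := by
      refine (hH.mono hcl).mul ?_
      refine Differentiable.differentiableOn ?_
      refine Differentiable.cexp ?_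
      refine Differentiable.const_mul ?_ _
      simp only [hφ]
      fun_prop
    exact h1.diffContOnCl
  have hexp : ∀ z : ℂ, ‖Complex.exp (K * φ z)‖ = Real.exp (K * (φ z).re) := by
    intro z
    rw [Complex.norm_exp]
    congr 1
    simp
  have hmax := Complex.norm_le_of_forall_mem_frontier_norm_le (U := U)
    (isBounded_ball.subset Set.inter_subset_left) hdc
    (C := max (M * Real.exp (-(K * (d ^ 2 / 2)))) (ω η * Real.exp (K * (d ^ 2 / 2)))) (by
      intro z hz
      have hzH : z ∈ HD δ := hcl (frontier_subset_closure hz)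
      rw [norm_mul, hexp]
      have h1 := frontier_inter_subset _ _ hz
      have hzn : 0 ≤ ‖H z‖ := norm_nonneg _
      rcases h1 with ⟨h2, h3⟩ | ⟨h2, h3⟩
      · refine le_max_of_le_left ?_
        rw [frontier_ball (0 : ℂ) hd0.ne', mem_sphere_zero_iff_norm] at h2
        have h4 : η ≤ z.im := hcl1 h3
        have h5 : z.im ≤ d := by
          have := Complex.abs_im_le_norm z
          rw [h2] at this
          exact (le_abs_self _).trans this
        have h6 := hsq z
        rw [h2] at h6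
        have h7 : K * (φ z).re ≤ -(K * (d ^ 2 / 2)) := by
          rw [hφre]
          have h8 : -(2 * d * z.im) + d ^ 2 / 2 - (z.re ^ 2 - z.im ^ 2) ≤ - (d ^ 2 / 2) := by
            nlinarith [hη0.trans_le h4]
          nlinarith
        exact mul_le_mul (hb z hzH) (Real.exp_le_exp.2 h7) (Real.exp_pos _).le
          (hzn.trans (hb z hzH))
      · refine le_max_of_le_right ?_
        have h4 : z.im = η := hfr1 h3
        have h5 := hd z hzH
        rw [h4] at h5
        have h7 : K * (φ z).re ≤ K * (d ^ 2 / 2) := by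
          refine mul_le_mul_of_nonneg_left ?_ hK0
          rw [hφre, h4]
          have h9 : η < 2 * d := by
            rw [hdd]
            linarith
          nlinarith [sq_nonneg z.re]
        exact mul_le_mul h5 (Real.exp_le_exp.2 h7) (Real.exp_pos _).le (hzn.trans h5))
    (z := t * I) (subset_closure (by
      refine ⟨?_, ?_⟩
      · rw [mem_ball_zero_iff, norm_mul, Complex.norm_I, mul_one, Complex.norm_real,
          Real.norm_of_nonneg ht.le]
        linarith
      · show η < (t * I : ℂ).im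
        simpa using hηt))
  rw [norm_mul, hexp] at hmax
  have h1 : 0 ≤ K * (φ (t * I)).re := by
    refine mul_nonneg hK0 ?_
    rw [hφre]
    have h2 : (t * I : ℂ).im = t := by simp
    have h3 : (t * I : ℂ).re = 0 := by simp
    rw [h2, h3]
    have h4 : t < d / 4 := by
      rw [hdd]
      linarith
    nlinarith
  have h2 : a ≤ a * Real.exp (K * (φ (t * I)).re) :=
    le_mul_of_one_le_right ha.le (Real.one_le_exp h1)
  have h3 := h2.trans hmax
  rcases le_max_iff.1 h3 with h | h
  · exact absurd hK (not_lt.2 h)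
  · exact absurd hη (not_lt.2 h)

/-- the derivative at the centre from a bound of the real part -/
theorem deriv_of_re {f : ℂ → ℂ} {R M : ℝ} (hR : 0 < R) (hM : 0 < M)
    (hf : DifferentiableOn ℂ f (ball 0 R)) (hre : ∀ z ∈ ball (0 : ℂ) R, |(f z).re| ≤ M) :
    ‖deriv f 0‖ ≤ 8 * M / R := by
  have h0 : (0 : ℂ) ∈ ball (0 : ℂ) R := mem_ball_self hR
  have hf1 : DifferentiableOn ℂ (fun z => f z - f 0) (ball 0 R) := hf.sub_const _
  have hmaps : Set.MapsTo (fun z => f z - f 0) (ball 0 R) {z | z.re ≤ 2 * M} := by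
    intro z hz
    show (f z - f 0).re ≤ 2 * M
    rw [Complex.sub_re]
    have h1 := abs_le.1 (hre z hz)
    have h2 := abs_le.1 (hre 0 h0)
    linarith [h1.2, h2.1]
  have hb : ∀ z ∈ sphere (0 : ℂ) (R / 2), ‖f z - f 0‖ ≤ 4 * M := by
    intro z hz
    rw [mem_sphere_zero_iff_norm] at hz
    have hz' : z ∈ ball (0 : ℂ) R := by
      rw [mem_ball_zero_iff, hz]
      linarith
    have h1 := Complex.borelCaratheodory_zero (by positivity : 0 < 2 * M) hf1 hmaps hR hz'
      (sub_self _)
    rw [hz] at h1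
    refine h1.trans (le_of_eq ?_)
    field_simp
    ring
  have hdc : DiffContOnCl ℂ (fun z => f z - f 0) (ball 0 (R / 2)) := by
    refine DifferentiableOn.diffContOnCl ?_
    rw [closure_ball (0 : ℂ) (by positivity)]
    exact hf1.mono fun z hz => by
      rw [mem_closedBall_zero_iff] at hz
      rw [mem_ball_zero_iff]
      linarith
  have h1 := Complex.norm_deriv_le_of_forall_mem_sphere_norm_le (by positivity : 0 < R / 2) hdc hb
  rw [deriv_sub_const] at h1
  refine h1.trans (le_of_eq ?_)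
  field_simp
  ring

end

end Pool.Agent.Lib.MP_6ff8d9_an.H99
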