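import Pool.Agent.Lib.MP_6ff8d9_an_h99.Cone2
import Pool.Agent.Lib.MP_6ff8d9_an_h99.OneVar
import Pool.Agent.Lib.K708.HdOsg

/-!
# LOCAL: near a contact point `dk ∧ dF = 0`
-/

open Metric Filter Topology
open scoped ComplexConjugate

namespace Pool.Agent.Lib.MP_6ff8d9_an.H99

noncomputable section

variable {n : ℕ} {F : (Fin n → ℂ) → ℂ} {Ψ : (Fin n → ℂ) → (Fin n → ℂ)} {ζ : Fin n → ℂ}

/-- the open unit ball of `ℂⁿ` (Euclidean norm) as a subset of `Fin n → ℂ` -/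
def Bl (n : ℕ) : Set (Fin n → ℂ) := {z | ∑ i, ‖z i‖ ^ 2 < 1}

lemma isOpen_Bl (n : ℕ) : IsOpen (Bl n) :=
  isOpen_lt (by fun_prop) continuous_const

/-- the tangential vector field `Ψ_j e_i - Ψ_i e_j` -/
def tf (Ψ : (Fin n → ℂ) → (Fin n → ℂ)) (i j : Fin n) (z : Fin n → ℂ) : Fin n → ℂ :=
  Pi.single i (Ψ z j) - Pi.single j (Ψ z i)

lemma tf_norm (Ψ : (Fin n → ℂ) → (Fin n → ℂ)) (i j : Fin n) (z : Fin n → ℂ) :
    ‖tf Ψ i j z‖ ≤ 2 * ‖Ψ z‖ := by
  unfold tf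
  refine (norm_sub_le _ _).trans ?_
  have h1 : ∀ (a : Fin n) (x : ℂ), ‖(Pi.single a x : Fin n → ℂ)‖ ≤ ‖x‖ := by
    intro a x
    rw [pi_norm_le_iff_of_nonneg (norm_nonneg _)]
    intro b
    by_cases h : b = a
    · subst h; simp
    · rw [Pi.single_eq_of_ne h, norm_zero]; exact norm_nonneg _
  have h2 := (h1 i (Ψ z j)).trans (norm_le_pi_norm (Ψ z) j)
  have h3 := (h1 j (Ψ z i)).trans (norm_le_pi_norm (Ψ z) i)
  linarith

lemma tf_sum (Ψ : (Fin n → ℂ) → (Fin n → ℂ)) (i j : Fin n) (z : Fin n → ℂ) :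
    ∑ l, Ψ z l * tf Ψ i j z l = 0 := by
  unfold tf
  simp only [Pi.sub_apply, mul_sub, Finset.sum_sub_distrib]
  rw [Finset.sum_eq_single i, Finset.sum_eq_single j]
  · rw [Pi.single_eq_same, Pi.single_eq_same]; ring
  · intro b _ hb
    rw [Pi.single_eq_of_ne hb, mul_zero]
  · intro h; exact absurd (Finset.mem_univ _) h
  · intro b _ hb
    rw [Pi.single_eq_of_ne hb, mul_zero]
  · intro h; exact absurd (Finset.mem_univ _) h

/-- the straight disc stays in the ball -/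
lemma disc_in_ball {z v : Fin n → ℂ} {c₁ C₂ V₀ τ ρ : ℝ} (h1 : ∑ i, ‖z i‖ ^ 2 ≤ 1 - c₁ * τ)
    (h2 : ‖z - star (Ψ z)‖ ≤ C₂ * τ) (hv : ‖v‖ ≤ V₀) (hv0 : ∑ l, Ψ z l * v l = 0)
    (hC : 0 ≤ C₂ * τ) {l : ℂ} (hl : ‖l‖ ≤ ρ)
    (hρ : 2 * ρ * (n * (C₂ * τ * V₀)) + ρ ^ 2 * (n * V₀ ^ 2) < c₁ * τ) :
    z + l • v ∈ Bl n := by
  have hV : 0 ≤ V₀ := (norm_nonneg _).trans hv
  have hρ0 : 0 ≤ ρ := (norm_nonneg _).trans hl
  have e1 : ∑ i, ‖(z + l • v) i‖ ^ 2 =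
      ∑ i, ‖z i‖ ^ 2 + 2 * (l * herm z v).re + ‖l‖ ^ 2 * ∑ i, ‖v i‖ ^ 2 := by
    unfold herm
    rw [Finset.mul_sum, Complex.re_sum, Finset.mul_sum, Finset.mul_sum, ← Finset.sum_add_distrib,
      ← Finset.sum_add_distrib]
    refine Finset.sum_congr rfl fun i _ => ?_
    rw [Pi.add_apply, Pi.smul_apply, smul_eq_mul]
    have h3 : ‖z i + l * v i‖ ^ 2 = ‖z i‖ ^ 2 + 2 * (l * (conj (z i) * v i)).re +
        ‖l * v i‖ ^ 2 := by
      rw [← Complex.normSq_eq_norm_sq, ← Complex.normSq_eq_norm_sq, ← Complex.normSq_eq_norm_sq]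
      simp only [Complex.normSq_apply, Complex.add_re, Complex.add_im, Complex.mul_re,
        Complex.mul_im, Complex.conj_re, Complex.conj_im]
      ring
    rw [h3, norm_mul]
    ring
  have e2 : ‖herm z v‖ ≤ n * (C₂ * τ * V₀) := by
    have h3 : herm z v = ∑ i, (conj (z i) - Ψ z i) * v i := by
      unfold herm
      simp only [sub_mul, Finset.sum_sub_distrib, hv0, sub_zero]
    rw [h3]
    refine (norm_sum_le _ _).trans ?_
    have h4 : ∀ i ∈ Finset.univ, ‖(conj (z i) - Ψ z i) * v i‖ ≤ C₂ * τ * V₀ := by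
      intro i _
      rw [norm_mul]
      have h5 : ‖conj (z i) - Ψ z i‖ = ‖(z - star (Ψ z)) i‖ := by
        rw [← norm_star (conj (z i) - Ψ z i), star_sub]
        congr 1
        rw [Pi.sub_apply, Pi.star_apply]
        congr 1
        exact Complex.conj_conj _
      rw [h5]
      exact mul_le_mul ((norm_le_pi_norm _ i).trans h2) ((norm_le_pi_norm v i).trans hv)
        (norm_nonneg _) hC
    refine (Finset.sum_le_sum h4).trans (le_of_eq ?_)
    simp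
  have e3 : ∑ i, ‖v i‖ ^ 2 ≤ n * V₀ ^ 2 := by
    have h4 : ∀ i ∈ (Finset.univ : Finset (Fin n)), ‖v i‖ ^ 2 ≤ V₀ ^ 2 := by
      intro i _
      exact pow_le_pow_left₀ (norm_nonneg _) ((norm_le_pi_norm v i).trans hv) 2
    refine (Finset.sum_le_sum h4).trans (le_of_eq ?_)
    simp
  show ∑ i, ‖(z + l • v) i‖ ^ 2 < 1
  rw [e1]
  have e4 : (l * herm z v).re ≤ ρ * (n * (C₂ * τ * V₀)) := by
    refine (Complex.re_le_norm _).trans ?_
    rw [norm_mul]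
    exact mul_le_mul hl e2 (norm_nonneg _) hρ0
  have e5 : ‖l‖ ^ 2 * ∑ i, ‖v i‖ ^ 2 ≤ ρ ^ 2 * (n * V₀ ^ 2) :=
    mul_le_mul (pow_le_pow_left₀ (norm_nonneg _) hl 2) e3
      (Finset.sum_nonneg fun i _ => by positivity) (by positivity)
  linarith

lemma cayley_le {w : ℂ} (hw : ‖w‖ < 1) {κ : ℝ} (hκ : 0 < κ) (h : κ ≤ ‖1 - w‖) {T : ℝ}
    (hT : 1 - T ≤ ‖w‖) : ((1 + w) / (1 - w)).re ≤ 2 * T / κ ^ 2 := by
  have h1 : ((1 + w) / (1 - w)).re = (1 - ‖w‖ ^ 2) / ‖1 - w‖ ^ 2 := by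
    rw [Complex.div_re, ← Complex.normSq_eq_norm_sq, ← Complex.normSq_eq_norm_sq, ← add_div]
    congr 1
    simp only [Complex.normSq_apply, Complex.add_re, Complex.sub_re, Complex.one_re,
      Complex.add_im, Complex.sub_im, Complex.one_im]
    ring
  rw [h1]
  have h2 : κ ^ 2 ≤ ‖1 - w‖ ^ 2 := pow_le_pow_left₀ hκ.le h 2
  have h3 : 1 - ‖w‖ ^ 2 ≤ 2 * T := by nlinarith [norm_nonneg w]
  have h4 : 0 ≤ 1 - ‖w‖ ^ 2 := by nlinarith [norm_nonneg w]
  exact div_le_div₀ (h4.trans h3) h3 (by positivity) h2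

/-- **LOCAL.** -/
theorem Contact.local_step (hC : Contact F Ψ ζ) (hF1 : F ζ ≠ 1)
    (hlt : ∀ z : Fin n → ℂ, ∑ i, ‖z i‖ ^ 2 < 1 → ‖F z‖ < 1) {k : (Fin n → ℂ) → ℂ}
    (hk : DifferentiableOn ℂ k (Bl n))
    (hkre : ∀ z ∈ Bl n, |(k z).re| ≤ ((1 + F z) / (1 - F z)).re)
    {N : (Fin n → ℂ) → Prop} (hN : ∀ᶠ z in 𝓝 ζ, N z) :
    ∃ z₁ ∈ Bl n, ∀ᶠ z in 𝓝 z₁, N z ∧ ∀ i j : Fin n,
      Ψ z j * fderiv ℂ k z (Pi.single i 1) = Ψ z i * fderiv ℂ k z (Pi.single j 1) := by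
  obtain ⟨c⟩ := exists_symChart Ψ ζ hC.cdΨ hC.fix hC.inv
  obtain ⟨u, hu, -, hus⟩ := hC.exists_dir c hlt
  obtain ⟨c₁, hc₁, C₂, hC₂, δ₀, hδ₀, hδ₀1, hcone⟩ := hC.cone c hus
  have hΘt : Tendsto c.Θ (𝓝 0) (𝓝 ζ) := by
    have := c.dΘ.hasFDerivAt.continuousAt.tendsto
    rwa [c.Θ0] at this
  -- constants near `ζ`
  set κ : ℝ := ‖1 - F ζ‖ / 2 with hκ
  have hκ0 : 0 < κ := by
    have : 0 < ‖1 - F ζ‖ := norm_pos_iff.2 (sub_ne_zero.2 (Ne.symm hF1))
    positivity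
  have hFc : ContinuousAt F ζ := hC.cdF.continuousAt
  have hΨc : ContinuousAt Ψ ζ := hC.cdΨ.continuousAt
  have n1 : ∀ᶠ z in 𝓝 ζ, DifferentiableAt ℂ F z :=
    (hC.cdF.eventually (by norm_num)).mono fun z hz => hz.differentiableAt (by norm_num)
  have n2 : ∀ᶠ z in 𝓝 ζ, ‖F z‖ < 2 :=
    hFc.norm.eventually_lt_const (by
      show ‖F ζ‖ < 2
      rw [hC.norm1]; norm_num)
  have n3 : ∀ᶠ z in 𝓝 ζ, κ < ‖1 - F z‖ :=
    (continuousAt_const.sub hFc).norm.eventually_const_lt (by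
      have : 0 < ‖1 - F ζ‖ := by linarith
      show κ < ‖1 - F ζ‖
      rw [hκ]; linarith)
  have n4 : ∀ᶠ z in 𝓝 ζ, DifferentiableAt ℂ Ψ z :=
    (hC.cdΨ.eventually (by norm_num)).mono fun z hz => hz.differentiableAt (by norm_num)
  have n5 : ∀ᶠ z in 𝓝 ζ, ‖Ψ z‖ < ‖Ψ ζ‖ + 1 :=
    hΨc.norm.eventually_lt_const (by linarith)
  obtain ⟨R', hR', hR⟩ := Metric.eventually_nhds_iff_ball.1
    (n1.and (n2.and (n3.and (n4.and (n5.and hC.grad)))))
  obtain ⟨R, hRR⟩ : ∃ R : ℝ, R = R' / 2 := ⟨_, rfl⟩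
  have hR0 : 0 < R := by rw [hRR]; positivity
  have hin : ∀ z ∈ ball ζ R, ∀ z' ∈ ball z R, z' ∈ ball ζ R' := by
    intro z hz z' hz'
    rw [mem_ball] at hz hz' ⊢
    have := dist_triangle z' z ζ
    linarith
  have hself : ∀ z ∈ ball ζ R, z ∈ ball ζ R' := fun z hz => hin z hz z (mem_ball_self hR0)
  set V₀ : ℝ := 2 * (‖Ψ ζ‖ + 1) with hV₀
  have hV0 : 0 < V₀ := by positivity
  -- the radius constant
  set A : ℝ := 2 * (n * (C₂ * V₀)) + n * V₀ ^ 2 + 1 with hA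
  have hA0 : 0 < A := by positivity
  set m : ℝ := min 1 (min (c₁ / (4 * A)) (R / (V₀ + 1))) with hm
  have hm0 : 0 < m := by positivity
  have hm1 : m ≤ 1 := min_le_left _ _
  have hm2 : m * A ≤ c₁ / 4 := by
    have h1 : m ≤ c₁ / (4 * A) := (min_le_right _ _).trans (min_le_left _ _)
    calc m * A ≤ c₁ / (4 * A) * A := mul_le_mul_of_nonneg_right h1 hA0.le
      _ = c₁ / 4 := by field_simp
  have hm3 : m * V₀ < R := by
    have h1 : m ≤ R / (V₀ + 1) := (min_le_right _ _).trans (min_le_right _ _)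
    calc m * V₀ < m * (V₀ + 1) := by nlinarith
      _ ≤ R / (V₀ + 1) * (V₀ + 1) := mul_le_mul_of_nonneg_right h1 (by positivity)
      _ = R := by field_simp
  set C₃ : ℝ := C₂ + 8 * V₀ ^ 2 / R ^ 2 with hC₃
  have hC₃0 : 0 < C₃ := by positivity
  set C₄ : ℝ := 2 * C₃ / κ ^ 2 with hC₄
  have hC₄0 : 0 < C₄ := by positivity
  set C₅ : ℝ := 8 * C₄ / m with hC₅
  have hC₅0 : 0 < C₅ := by positivity
  -- the derivative estimate
  have est : ∀ z ∈ ball ζ R, ∀ τ : ℝ, 0 < τ → τ ≤ 1 → ∑ i, ‖z i‖ ^ 2 ≤ 1 - c₁ * τ →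
      ‖z - star (Ψ z)‖ ≤ C₂ * τ → 1 - C₂ * τ ≤ ‖F z‖ → ∀ i j : Fin n,
      ‖fderiv ℂ k z (tf Ψ i j z)‖ ≤ C₅ * √τ := by
    intro z hz τ hτ0 hτ1 g1 g2 g3 i j
    set v := tf Ψ i j z with hv
    obtain ⟨p1, p2, p3, p4, p5, p6⟩ := hR z (hself z hz)
    have hvV : ‖v‖ ≤ V₀ := (tf_norm Ψ i j z).trans (by rw [hV₀]; linarith)
    have hv0 : ∑ l, Ψ z l * v l = 0 := tf_sum Ψ i j z
    have hsq : √τ ^ 2 = τ := Real.sq_sqrt hτ0.le
    have hs0 : 0 < √τ := Real.sqrt_pos.2 hτ0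
    have hs1 : √τ ≤ 1 := Real.sqrt_le_one.2 hτ1
    have hball : ∀ l : ℂ, ‖l‖ < m * √τ → z + l • v ∈ Bl n := by
      intro l hl
      refine disc_in_ball g1 g2 hvV hv0 (by positivity) hl.le ?_
      have h1 : 2 * (m * √τ) * (n * (C₂ * τ * V₀)) + (m * √τ) ^ 2 * (n * V₀ ^ 2) ≤
          (m * A) * τ := by
        have h2 : 2 * (m * √τ) * (n * (C₂ * τ * V₀)) ≤ m * (2 * (n * (C₂ * V₀))) * τ := by
          have h3 : 0 ≤ 2 * m * (n * (C₂ * τ * V₀)) := by positivity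
          nlinarith
        have h3 : (m * √τ) ^ 2 * (n * V₀ ^ 2) ≤ m * (n * V₀ ^ 2) * τ := by
          rw [mul_pow, hsq]
          have h4 : m ^ 2 ≤ m := by nlinarith
          have h5 : 0 ≤ τ * (n * V₀ ^ 2) := by positivity
          nlinarith
        have h4 : 0 ≤ m * τ := by positivity
        rw [hA]
        nlinarith
      have h2 : (m * A) * τ ≤ c₁ / 4 * τ := mul_le_mul_of_nonneg_right hm2 hτ0.le
      have h3 : 0 < c₁ * τ := by positivity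
      linarith
    have hnear : ∀ l : ℂ, ‖l‖ < m * √τ → z + l • v ∈ ball z R := by
      intro l hl
      rw [mem_ball, dist_eq_norm, add_sub_cancel_left, norm_smul]
      calc ‖l‖ * ‖v‖ ≤ (m * √τ) * V₀ := mul_le_mul hl.le hvV (norm_nonneg _) (by positivity)
        _ ≤ (m * 1) * V₀ := by gcongr
        _ < R := by rw [mul_one]; exact hm3
    have hFd : DifferentiableOn ℂ F (ball z R) := fun z' hz' =>
      (hR z' (hin z hz z' hz')).1.differentiableWithinAt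
    have hFb : ∀ z' ∈ ball z R, ‖F z'‖ ≤ 2 := fun z' hz' => (hR z' (hin z hz z' hz')).2.1.le
    obtain ⟨-, hcau⟩ := Pool.Agent.K708.Hd.cauchy2 hR0 hFd hFb
    have hFlow : ∀ l : ℂ, ‖l‖ < m * √τ → 1 - C₃ * τ ≤ ‖F (z + l • v)‖ := by
      intro l hl
      have h1 := (hcau _ (hnear l hl)).2
      rw [add_sub_cancel_left] at h1
      have h2 : fderiv ℂ F z (l • v) = 0 := by
        rw [p6.2]
        have : ∑ j, Ψ z j * (l • v) j = l * ∑ j, Ψ z j * v j := by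
          rw [Finset.mul_sum]
          refine Finset.sum_congr rfl fun j _ => ?_
          rw [Pi.smul_apply, smul_eq_mul]
          ring
        rw [this, hv0, mul_zero, mul_zero]
      rw [h2, sub_zero] at h1
      have h3 : ‖l • v‖ ^ 2 ≤ τ * V₀ ^ 2 := by
        rw [norm_smul, mul_pow]
        have h4 : ‖l‖ ^ 2 ≤ τ := by
          have h5 : ‖l‖ ≤ √τ := hl.le.trans (by nlinarith)
          calc ‖l‖ ^ 2 ≤ √τ ^ 2 := pow_le_pow_left₀ (norm_nonneg _) h5 2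
            _ = τ := hsq
        exact mul_le_mul h4 (pow_le_pow_left₀ (norm_nonneg _) hvV 2) (by positivity) hτ0.le
      have h4 : ‖F z‖ - ‖F (z + l • v)‖ ≤ 8 * V₀ ^ 2 / R ^ 2 * τ := by
        have h5 := norm_sub_norm_le (F z) (F (z + l • v))
        rw [norm_sub_rev] at h5
        calc ‖F z‖ - ‖F (z + l • v)‖ ≤ 4 * 2 / R ^ 2 * ‖l • v‖ ^ 2 := h5.trans h1
          _ ≤ 4 * 2 / R ^ 2 * (τ * V₀ ^ 2) := mul_le_mul_of_nonneg_left h3 (by positivity)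
          _ = 8 * V₀ ^ 2 / R ^ 2 * τ := by ring
      rw [hC₃, add_mul]
      linarith
    have hre : ∀ l ∈ ball (0 : ℂ) (m * √τ), |(k (z + l • v)).re| ≤ C₄ * τ := by
      intro l hl
      rw [mem_ball_zero_iff] at hl
      have h1 := hball l hl
      refine (hkre _ h1).trans ?_
      have h2 := cayley_le (hlt _ h1) hκ0 (hR _ (hin z hz _ (hnear l hl))).2.2.1.le (hFlow l hl)
      refine h2.trans (le_of_eq ?_)
      rw [hC₄]
      ring
    have hd1 : DifferentiableOn ℂ (fun l : ℂ => k (z + l • v)) (ball 0 (m * √τ)) := by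
      intro l hl
      rw [mem_ball_zero_iff] at hl
      have h1 : DifferentiableAt ℂ k (z + l • v) :=
        (hk _ (hball l hl)).differentiableAt ((isOpen_Bl n).mem_nhds (hball l hl))
      have h2 : DifferentiableAt ℂ (fun l : ℂ => z + l • v) l := by fun_prop
      exact (h1.comp l h2).differentiableWithinAt
    have h1 := deriv_of_re (by positivity : 0 < m * √τ) (by positivity : 0 < C₄ * τ) hd1 hre
    have hz0 : z ∈ Bl n := by
      have := hball 0 (by rw [norm_zero]; positivity)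
      rwa [zero_smul, add_zero] at this
    have h2 : deriv (fun l : ℂ => k (z + l • v)) 0 = fderiv ℂ k z v := by
      have h3 : HasFDerivAt k (fderiv ℂ k z) (z + (0 : ℂ) • v) := by
        rw [zero_smul, add_zero]
        exact ((hk _ hz0).differentiableAt ((isOpen_Bl n).mem_nhds hz0)).hasFDerivAt
      have h4 : HasDerivAt (fun l : ℂ => z + l • v) v 0 := by
        have := ((hasDerivAt_id (0 : ℂ)).smul_const v).const_add z
        simpa using this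
      exact (h3.comp_hasDerivAt (0 : ℂ) h4).deriv
    rw [h2] at h1
    refine h1.trans (le_of_eq ?_)
    rw [hC₅]
    have : τ = √τ * √τ := by rw [← pow_two, hsq]
    nth_rewrite 1 [this]
    field_simp
  -- facts along the cone
  have m1 : ∀ᶠ y in 𝓝 (0 : Fin n → ℂ), c.Θ y ∈ ball ζ R := hΘt (ball_mem_nhds ζ hR0)
  have m2 : ∀ᶠ y in 𝓝 (0 : Fin n → ℂ), ∀ᶠ z in 𝓝 (c.Θ y), c.Θ (c.h z) = z :=
    hΘt.eventually c.left.eventually_nhds
  have m3 : ∀ᶠ y in 𝓝 (0 : Fin n → ℂ), DifferentiableAt ℂ c.h (c.Θ y) := hΘt.eventually c.hh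
  have m4 : ∀ᶠ y in 𝓝 (0 : Fin n → ℂ), ∀ᶠ z in 𝓝 (c.Θ y), N z :=
    hΘt.eventually hN.eventually_nhds
  obtain ⟨δ₁, hδ₁, hδ₁1, hn⟩ := near u (m1.and (m2.and (m3.and (c.hΘ.and (c.right.and m4)))))
  set δ : ℝ := min δ₀ δ₁ with hδ
  have hδ0 : 0 < δ := by positivity
  have d0 : δ ≤ δ₀ := min_le_left _ _
  have d1 : δ ≤ δ₁ := min_le_right _ _
  have hcone' : ∀ ξ w : Fin n → ℂ, star (c.L ξ) = ξ → star (c.L w) = w → ‖ξ‖ < δ →
      ‖w - u‖ < δ → ∀ τ : ℝ, 0 < τ → τ < δ → c.Θ (pt ξ w τ) ∈ Bl n ∧ ∀ i j : Fin n,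
        ‖fderiv ℂ k (c.Θ (pt ξ w τ)) (tf Ψ i j (c.Θ (pt ξ w τ)))‖ ≤ C₅ * √τ := by
    intro ξ w hξr hwr hξ hw τ hτ0 hτ
    obtain ⟨g1, g2, g3⟩ := hcone ξ w hξr hwr (hξ.trans_le d0) (hw.trans_le d0) τ hτ0
      (hτ.trans_le d0)
    have g4 := (hn ξ w (hξ.trans_le d1) (hw.trans_le d1) τ
      (by rw [abs_of_pos hτ0]; exact hτ.trans_le d1)).1
    refine ⟨?_, est _ g4 τ hτ0 ((hτ.trans_le d0).le.trans hδ₀1) g1 g2 g3⟩
    show ∑ i, ‖c.Θ (pt ξ w τ) i‖ ^ 2 < 1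
    have : 0 < c₁ * τ := by positivity
    linarith
  set δ' : ℝ := δ / (2 * (‖u‖ + 1)) with hδ'
  have hu1 : 0 < ‖u‖ + 1 := by positivity
  have hδ'0 : 0 < δ' := by positivity
  have hδ'e : δ' * (‖u‖ + 1) = δ / 2 := by rw [hδ']; field_simp
  have hδ'δ : δ' ≤ δ / 2 := by
    have : δ' * 1 ≤ δ' * (‖u‖ + 1) := mul_le_mul_of_nonneg_left (by
      have := norm_nonneg u
      linarith) hδ'0.le
    linarith
  have hδ1 : δ ≤ 1 := d0.trans hδ₀1
  have happ : ∀ (T : (Fin n → ℂ) →L[ℂ] ℂ) (i j : Fin n) (z : Fin n → ℂ),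
      T (tf Ψ i j z) = Ψ z j * T (Pi.single i 1) - Ψ z i * T (Pi.single j 1) := by
    intro T i j z
    have h1 : ∀ (a : Fin n) (x : ℂ), (Pi.single a x : Fin n → ℂ) = x • Pi.single a 1 := by
      intro a x
      rw [← Pi.single_smul, smul_eq_mul, mul_one]
    unfold tf
    rw [map_sub, h1 i, h1 j, map_smul, map_smul, smul_eq_mul, smul_eq_mul]
  have hrepr : ∀ (ξ w : Fin n → ℂ) (l : ℂ), ξ + l • w = pt (ξ + (l.re : ℂ) • w) w l.im := by
    intro ξ w l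
    unfold pt
    rw [add_assoc, ← add_smul, Complex.re_add_im]
  have key : ∀ ξ w : Fin n → ℂ, star (c.L ξ) = ξ → star (c.L w) = w → ‖ξ‖ < δ / 2 →
      ‖w - u‖ < δ → ∀ t : ℝ, 0 < t → t < δ' / 8 → ∀ i j : Fin n,
        fderiv ℂ k (c.Θ (pt ξ w t)) (tf Ψ i j (c.Θ (pt ξ w t))) = 0 := by
    intro ξ w hξr hwr hξ hw t ht0 ht i j
    have hwn : ‖w‖ ≤ ‖u‖ + 1 := by
      have := norm_add_le (w - u) u
      rw [sub_add_cancel] at this
      linarith
    have hin2 : ∀ l ∈ HD δ', ‖ξ + (l.re : ℂ) • w‖ < δ ∧ 0 < l.im ∧ l.im < δ := by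
      intro l hl
      obtain ⟨hl1, hl2⟩ := hl
      rw [mem_ball_zero_iff] at hl1
      have h1 : |l.re| ≤ ‖l‖ := Complex.abs_re_le_norm l
      have h2 : |l.im| ≤ ‖l‖ := Complex.abs_im_le_norm l
      refine ⟨?_, hl2, ?_⟩
      · refine (norm_add_le _ _).trans_lt ?_
        rw [norm_smul, Complex.norm_real, Real.norm_eq_abs]
        have h3 : |l.re| * ‖w‖ ≤ δ' * (‖u‖ + 1) :=
          mul_le_mul (h1.trans hl1.le) hwn (norm_nonneg _) hδ'0.le
        linarith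
      · have := le_abs_self l.im
        linarith
    have hH := half_disc hδ'0 (H := fun l : ℂ => fderiv ℂ k (c.Θ (ξ + l • w))
        (tf Ψ i j (c.Θ (ξ + l • w)))) (M := C₅) ?_ ?_ (ω := fun x => C₅ * √x) ?_ ?_ ht0 ht
    · have h1 : ξ + ((t : ℂ) * Complex.I) • w = pt ξ w t := rfl
      simp only [h1] at hH
      exact hH
    · intro l hl
      obtain ⟨h1, h2, h3⟩ := hin2 l hl
      have h4 := (hcone' _ w (real_add hξr (real_smul hwr l.re)) hwr h1 hw l.im h2 h3).1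
      obtain ⟨h5, -, -, h6, -, -⟩ := hn _ w (h1.trans_le d1) (hw.trans_le d1) l.im
        (by rw [abs_of_pos h2]; exact h3.trans_le d1)
      rw [← hrepr] at h4 h5 h6
      have h7 : DifferentiableAt ℂ Ψ (c.Θ (ξ + l • w)) := (hR _ (hself _ h5)).2.2.2.1
      have h8 : DifferentiableAt ℂ (fun l : ℂ => ξ + l • w) l := by fun_prop
      have h9 : DifferentiableAt ℂ (fun l : ℂ => c.Θ (ξ + l • w)) l := h6.comp l h8
      have h10 : ∀ a : Fin n, DifferentiableAt ℂ (fun l : ℂ => Ψ (c.Θ (ξ + l • w)) a) l :=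
        fun a => (differentiableAt_pi.1 (h7.comp l h9)) a
      have h11 : ∀ a : Fin n, DifferentiableAt ℂ
          (fun l : ℂ => fderiv ℂ k (c.Θ (ξ + l • w)) (Pi.single a 1)) l := by
        intro a
        have h12 := (Pool.Agent.K708.Hd.fderiv_holo (isOpen_Bl n) hk
          (Pi.single a 1 : Fin n → ℂ) _ h4).differentiableAt ((isOpen_Bl n).mem_nhds h4)
        exact h12.comp l h9
      have h13 := ((h10 j).mul (h11 i)).sub ((h10 i).mul (h11 j))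
      refine DifferentiableAt.differentiableWithinAt ?_
      refine h13.congr_of_eventuallyEq (Eventually.of_forall fun x => ?_)
      exact happ _ i j _
    · intro l hl
      obtain ⟨h1, h2, h3⟩ := hin2 l hl
      have h4 := (hcone' _ w (real_add hξr (real_smul hwr l.re)) hwr h1 hw l.im h2 h3).2 i j
      rw [← hrepr] at h4
      refine h4.trans ?_
      have : √l.im ≤ 1 := Real.sqrt_le_one.2 (h3.le.trans hδ1)
      nlinarith
    · have h1 : Tendsto (fun x : ℝ => C₅ * √x) (𝓝 0) (𝓝 (C₅ * √0)) :=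
        (Real.continuous_sqrt.tendsto 0).const_mul C₅
      rw [Real.sqrt_zero, mul_zero] at h1
      exact h1.mono_left nhdsWithin_le_nhds
    · intro l hl
      obtain ⟨h1, h2, h3⟩ := hin2 l hl
      have h4 := (hcone' _ w (real_add hξr (real_smul hwr l.re)) hwr h1 hw l.im h2 h3).2 i j
      rw [← hrepr] at h4
      exact h4
  -- the base point
  set t₀ : ℝ := δ' / 16 with ht₀
  have ht0 : 0 < t₀ := by positivity
  have ht8 : t₀ < δ' / 8 := by rw [ht₀]; linarith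
  have htδ : t₀ < δ := by linarith
  have hu0 : ‖u - u‖ < δ := by rw [sub_self, norm_zero]; exact hδ0
  have hzr : star (c.L (0 : Fin n → ℂ)) = 0 := by rw [map_zero, star_zero]
  have hbase := (hcone' 0 u hzr hu (by rw [norm_zero]; exact hδ0) hu0 t₀ ht0 htδ).1
  obtain ⟨-, q1, q2, -, q3, q4⟩ := hn 0 u (by rw [norm_zero]; exact hδ₁)
    (by rw [sub_self, norm_zero]; exact hδ₁) t₀ (by rw [abs_of_pos ht0]; exact htδ.trans_le d1)
  refine ⟨c.Θ (pt 0 u t₀), hbase, ?_⟩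
  have hstarL : Continuous fun y : Fin n → ℂ => star (c.L y) := c.L.continuous.star
  have hya : Tendsto (fun z => ‖(1 / 2 : ℂ) • (c.h z + star (c.L (c.h z)))‖)
      (𝓝 (c.Θ (pt 0 u t₀))) (𝓝 0) := by
    have h1 : ContinuousAt (fun z => ‖(1 / 2 : ℂ) • (c.h z + star (c.L (c.h z)))‖)
        (c.Θ (pt 0 u t₀)) :=
      ((q2.continuousAt.add (hstarL.continuousAt.comp q2.continuousAt)).const_smul
        (1 / 2 : ℂ)).norm
    have h2 := h1.tendsto
    simp only [q3] at h2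
    rw [star_pt hzr hu] at h2
    have h3 : pt 0 u t₀ + pt 0 u (-t₀) = 0 := by
      unfold pt
      rw [zero_add, zero_add, ← add_smul]
      have : ((t₀ : ℂ) * Complex.I + ((-t₀ : ℝ) : ℂ) * Complex.I) = 0 := by push_cast; ring
      rw [this, zero_smul]
    rw [h3, smul_zero, norm_zero] at h2
    exact h2
  have hyb : Tendsto (fun z => ‖((1 / t₀ : ℝ) : ℂ) • ((1 / (2 * Complex.I) : ℂ) •
      (c.h z - star (c.L (c.h z)))) - u‖) (𝓝 (c.Θ (pt 0 u t₀))) (𝓝 0) := by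
    have h1 : ContinuousAt (fun z => ‖((1 / t₀ : ℝ) : ℂ) • ((1 / (2 * Complex.I) : ℂ) •
      (c.h z - star (c.L (c.h z)))) - u‖) (c.Θ (pt 0 u t₀)) :=
      ((((q2.continuousAt.sub (hstarL.continuousAt.comp q2.continuousAt)).const_smul
        (1 / (2 * Complex.I) : ℂ)).const_smul ((1 / t₀ : ℝ) : ℂ)).sub continuousAt_const).norm
    have h2 := h1.tendsto
    simp only [q3] at h2
    rw [star_pt hzr hu] at h2
    have h3 : pt 0 u t₀ - pt 0 u (-t₀) = (2 * (t₀ : ℂ) * Complex.I) • u := by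
      unfold pt
      rw [zero_add, zero_add, ← sub_smul]
      congr 1
      push_cast
      ring
    have h4 : ((1 / t₀ : ℝ) : ℂ) • ((1 / (2 * Complex.I) : ℂ) •
        ((2 * (t₀ : ℂ) * Complex.I) • u)) = u := by
      rw [smul_smul, smul_smul]
      have ht0' : (t₀ : ℂ) ≠ 0 := by exact_mod_cast ht0.ne'
      have : ((1 / t₀ : ℝ) : ℂ) * (1 / (2 * Complex.I) : ℂ) * (2 * (t₀ : ℂ) * Complex.I) = 1 := by
        push_cast
        field_simp
      rw [this, one_smul]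
    rw [h3, h4, sub_self, norm_zero] at h2
    exact h2
  filter_upwards [q1, hya.eventually_lt_const (by positivity : 0 < δ / 2),
    hyb.eventually_lt_const hδ0, q4] with z hz1 hz2 hz3 hz4
  refine ⟨hz4, fun i j => ?_⟩
  obtain ⟨ra, rb, rab⟩ := real_parts c.invol (c.h z)
  set a := (1 / 2 : ℂ) • (c.h z + star (c.L (c.h z))) with ha
  set b := (1 / (2 * Complex.I) : ℂ) • (c.h z - star (c.L (c.h z))) with hb
  have hwr : star (c.L (((1 / t₀ : ℝ) : ℂ) • b)) = ((1 / t₀ : ℝ) : ℂ) • b := real_smul rb _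
  have h1 := key a (((1 / t₀ : ℝ) : ℂ) • b) ra hwr hz2 hz3 t₀ ht0 ht8 i j
  have h2 : pt a (((1 / t₀ : ℝ) : ℂ) • b) t₀ = c.h z := by
    unfold pt
    rw [smul_smul]
    have ht0' : (t₀ : ℂ) ≠ 0 := by exact_mod_cast ht0.ne'
    have : (t₀ : ℂ) * Complex.I * ((1 / t₀ : ℝ) : ℂ) = Complex.I := by
      push_cast
      field_simp
    rw [this]
    exact rab.symm
  rw [h2, hz1, happ] at h1
  exact sub_eq_zero.1 h1

end

end Pool.Agent.Lib.MP_6ff8d9_an.H99
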