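import Pool.Agent.Lib.MP_6ff8d9_an_h11.Perre

/-!
# MP_6ff8d9 UNIF, row PERRI: Perron's method for an open and closed relation

The infimum of ALL superfunctions above `u0` is locally a harmonic function of `F`.
-/

open Metric Filter Topology InnerProductSpace Real

namespace Pool.Agent.Lib.MP_6ff8d9_an.H99

open Pool.Agent.Lib.MP_6ff8d9_an Pool.Agent.Lib.MP_6ff8d9_an.H11
open Pool.Agent.Lib.MP_6ff8d9_an.H35 Pool.Agent.Lib.MP_6ff8d9_an.P69

noncomputable section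

/-- Perron's method: the infimum of all superfunctions above `u0` -/
def PERRI : Prop := ∀ (n : ℕ) (F : Cn n → ℂ) (O : Set (Cn n)) (E : Cn n → Cn n → Prop)
  (H u0 : Cn n → ℝ), Rel n F O E → SupE F O E H → SubE F O E u0 → (∀ z ∈ O, u0 z ≤ H z) →
  ∃ v : Cn n → ℝ, (∀ z ∈ O, u0 z ≤ v z) ∧
    (∀ w : Cn n → ℝ, SupE F O E w → (∀ z ∈ O, u0 z ≤ w z) → ∀ z ∈ O, v z ≤ w z) ∧
    (∀ z ∈ O, ∀ z' ∈ O, E z z' → v z = v z') ∧
    ∀ z0 ∈ O, ∃ ε : ℝ, 0 < ε ∧ ∃ U : ℂ → ℝ,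
      HarmonicOnNhd U (ball (F z0) ε) ∧ ∀ᶠ z in 𝓝 z0, v z = U (F z)

theorem ev_ci {U : ℂ → ℝ} {a c : ℂ} {ε : ℝ} (h : ContinuousOn U (ball a ε)) (hc : c ∈ ball a ε) :
    ∀ᶠ r : ℝ in 𝓝[>] 0, CircleIntegrable U c r := by
  obtain ⟨δ, hδ, hb⟩ := Metric.isOpen_iff.1 isOpen_ball c hc
  have h1 : ∀ᶠ r : ℝ in 𝓝[>] 0, r < δ := nhdsWithin_le_nhds (Iio_mem_nhds hδ)
  have h2 : ∀ᶠ r : ℝ in 𝓝[>] 0, (0 : ℝ) < r := self_mem_nhdsWithin
  filter_upwards [h1, h2] with r h3 h4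
  refine ContinuousOn.circleIntegrable h4.le (h.mono fun w hw => hb ?_)
  rw [mem_sphere] at hw
  rw [mem_ball, hw]
  exact h3

theorem supM_min2 {U V : ℂ → ℝ} {a : ℂ} {ε : ℝ} (hU : SupM U (ball a ε))
    (hV : SupM V (ball a ε)) : SupM (fun c => min (U c) (V c)) (ball a ε) := by
  have hc : ContinuousOn (fun c => min (U c) (V c)) (ball a ε) :=
    continuous_min.comp_continuousOn (hU.1.prodMk hV.1)
  refine ⟨hc, fun c hcb => ?_⟩
  filter_upwards [hU.2 c hcb, hV.2 c hcb, ev_ci hU.1 hcb, ev_ci hV.1 hcb, ev_ci hc hcb]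
    with r h1 h2 h3 h4 h5
  exact le_min ((circleAverage_mono h5 h3 fun x _ => min_le_left _ _).trans h1)
    ((circleAverage_mono h5 h4 fun x _ => min_le_right _ _).trans h2)

theorem supM_mono' {U : ℂ → ℝ} {s t : Set ℂ} (h : SupM U t) (hst : s ⊆ t) : SupM U s :=
  ⟨h.1.mono hst, fun c hc => h.2 c (hst hc)⟩

variable {n : ℕ} {F : Cn n → ℂ} {O : Set (Cn n)} {E : Cn n → Cn n → Prop}

theorem supE_min {w1 w2 : Cn n → ℝ} (h1 : SupE F O E w1) (h2 : SupE F O E w2) :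
    SupE F O E (fun z => min (w1 z) (w2 z)) := by
  refine ⟨?_, ?_⟩
  · intro z hz z' hz' hzz
    simp only [h1.1 z hz z' hz' hzz, h2.1 z hz z' hz' hzz]
  · intro z0 hz0
    obtain ⟨ε1, hε1, U1, hU1, e1⟩ := h1.2 z0 hz0
    obtain ⟨ε2, hε2, U2, hU2, e2⟩ := h2.2 z0 hz0
    refine ⟨min ε1 ε2, by positivity, fun c => min (U1 c) (U2 c), ?_, ?_⟩
    · exact supM_min2 (supM_mono' hU1 (ball_subset_ball (min_le_left _ _)))
        (supM_mono' hU2 (ball_subset_ball (min_le_right _ _)))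
    · filter_upwards [e1, e2] with z h3 h4
      rw [h3, h4]

/-- the sequence lemma -/
theorem seq_lemma (hP : PMOD) (hD : DECR) (hR : Rel n F O E) {u0 : Cn n → ℝ}
    (hu0 : SubE F O E u0) {a : ℂ} {ρ ρ' : ℝ} {σ : ℂ → Cn n} (hp : Pc F O a ρ ρ' σ)
    (w : ℕ → Cn n → ℝ) (hw : ∀ j, SupE F O E (w j) ∧ ∀ z ∈ O, u0 z ≤ w j z) :
    ∃ G : ℂ → ℝ, HarmonicOnNhd G (ball a ρ) ∧ (∀ c ∈ ball a ρ, ∀ j, G c ≤ w j (σ c)) ∧
      ∀ V : ℂ → ℝ, (∀ u : Cn n → ℝ, SupE F O E u → (∀ z ∈ O, u0 z ≤ u z) →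
        ∀ c ∈ ball a ρ, V c ≤ u (σ c)) → ∀ c ∈ ball a ρ, V c ≤ G c := by
  have hbb : ball a ρ ⊆ ball a ρ' := ball_subset_ball hp.lt.le
  let M : (Cn n → ℝ) → (Cn n → ℝ) := fun u => MdE F O E a ρ σ u
  let W : ℕ → Cn n → ℝ := fun j => Nat.rec (M (w 0))
    (fun j u => M (fun z => min (u z) (w (j + 1) z))) j
  have hWs : ∀ j, W (j + 1) = M (fun z => min (W j z) (w (j + 1) z)) := fun j => rfl
  have hM : ∀ u : Cn n → ℝ, SupE F O E u → (∀ z ∈ O, u0 z ≤ u z) →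
      SupE F O E (M u) ∧ (∀ z ∈ O, u0 z ≤ M u z) ∧ (∀ z ∈ O, M u z ≤ u z) ∧
      HarmonicOnNhd (fun c => M u (σ c)) (ball a ρ) := by
    intro u hu hle
    obtain ⟨m1, m2, m3, m4⟩ := mde hP hR hp hu
    exact ⟨m1, m3 u0 hu0 hle, m2, m4⟩
  have hind : ∀ j, SupE F O E (W j) ∧ ∀ z ∈ O, u0 z ≤ W j z := by
    intro j
    induction j with
    | zero =>
      have h1 := hM (w 0) (hw 0).1 (hw 0).2
      exact ⟨h1.1, h1.2.1⟩
    | succ j ih =>
      have h1 := hM _ (supE_min ih.1 (hw (j + 1)).1) fun z hz => le_min (ih.2 z hz)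
        ((hw (j + 1)).2 z hz)
      rw [hWs]
      exact ⟨h1.1, h1.2.1⟩
  have hstep : ∀ j, ∀ z ∈ O, W (j + 1) z ≤ min (W j z) (w (j + 1) z) := by
    intro j z hz
    have h1 := hM _ (supE_min (hind j).1 (hw (j + 1)).1) fun z hz => le_min ((hind j).2 z hz)
      ((hw (j + 1)).2 z hz)
    rw [hWs]
    exact h1.2.2.1 z hz
  have hleW : ∀ j, ∀ z ∈ O, W j z ≤ w j z := by
    intro j z hz
    cases j with
    | zero => exact (hM (w 0) (hw 0).1 (hw 0).2).2.2.1 z hz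
    | succ j => exact (hstep j z hz).trans (min_le_right _ _)
  have hhar : ∀ j, HarmonicOnNhd (fun c => W j (σ c)) (ball a ρ) := by
    intro j
    cases j with
    | zero => exact (hM (w 0) (hw 0).1 (hw 0).2).2.2.2
    | succ j =>
      have h1 := hM _ (supE_min (hind j).1 (hw (j + 1)).1) fun z hz => le_min ((hind j).2 z hz)
        ((hw (j + 1)).2 z hz)
      rw [hWs]
      exact h1.2.2.2
  have hmem : ∀ c ∈ ball a ρ, σ c ∈ O := fun c hc => (hp.mem c (hbb hc)).1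
  have hanti : ∀ z ∈ O, Antitone (fun j => W j z) := fun z hz =>
    antitone_nat_of_succ_le fun j => (hstep j z hz).trans (min_le_left _ _)
  have hbdd : ∀ z ∈ O, BddBelow (Set.range (fun j => W j z)) := by
    intro z hz
    exact ⟨u0 z, by rintro _ ⟨j, rfl⟩; exact (hind j).2 z hz⟩
  refine ⟨fun c => ⨅ j, W j (σ c), ?_, ?_, ?_⟩
  · refine hD a ρ (fun j c => W j (σ c)) (fun c => u0 (σ c)) _ hhar ?_ ?_ ?_ ?_
    · intro i c hc
      exact (hstep i _ (hmem c hc)).trans (min_le_left _ _)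
    · have hU0 : SubM (fun c => u0 (σ c)) (ball a ρ') :=
        subM_loc fun c hc => loc_sig hp SubM hu0.2 hc
      exact hU0.1.mono hbb
    · intro i c hc
      exact (hind i).2 _ (hmem c hc)
    · intro c hc
      exact tendsto_atTop_ciInf (hanti _ (hmem c hc)) (hbdd _ (hmem c hc))
  · intro c hc j
    exact (ciInf_le (hbdd _ (hmem c hc)) j).trans (hleW j _ (hmem c hc))
  · intro V hV c hc
    exact le_ciInf fun j => hV (W j) (hind j).1 (hind j).2 c hc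

theorem harm_cont {G : ℂ → ℝ} {s : Set ℂ} (h : HarmonicOnNhd G s) : ContinuousOn G s :=
  fun c hc => ((h c hc).1.continuousAt).continuousWithinAt

/-- row PERRI -/
theorem perri (hP : PMOD) (hD : DECR) (hS : SECT) : PERRI := by
  intro n F O E H u0 hR hH hu0 hle
  let 𝒮 : Set (Cn n → ℝ) := {w | SupE F O E w ∧ ∀ z ∈ O, u0 z ≤ w z}
  have hne : Nonempty 𝒮 := ⟨⟨H, hH, hle⟩⟩
  let v : Cn n → ℝ := fun z => ⨅ w : 𝒮, w.1 z
  have hbdd : ∀ z ∈ O, BddBelow (Set.range (fun w : 𝒮 => w.1 z)) := by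
    intro z hz
    exact ⟨u0 z, by rintro _ ⟨w, rfl⟩; exact w.2.2 z hz⟩
  have hinf : ∀ w : Cn n → ℝ, SupE F O E w → (∀ z ∈ O, u0 z ≤ w z) → ∀ z ∈ O, v z ≤ w z :=
    fun w h1 h2 z hz => ciInf_le (hbdd z hz) (⟨w, h1, h2⟩ : 𝒮)
  have hinv : ∀ z ∈ O, ∀ z' ∈ O, E z z' → v z = v z' := by
    intro z hz z' hz' hzz
    simp only [v]
    congr 1
    funext w
    exact w.2.1.1 z hz z' hz' hzz
  -- approximating sequences
  have hseq : ∀ z ∈ O, ∃ w : ℕ → Cn n → ℝ, (∀ j, SupE F O E (w j) ∧ ∀ z ∈ O, u0 z ≤ w j z) ∧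
      ∀ x : ℝ, (∀ j, x ≤ w j z) → x ≤ v z := by
    intro z hz
    have h1 : ∀ j : ℕ, ∃ w : 𝒮, w.1 z < v z + 1 / (j + 1) := fun j =>
      exists_lt_of_ciInf_lt (show v z < v z + 1 / ((j : ℝ) + 1) by
        have : (0 : ℝ) < 1 / ((j : ℝ) + 1) := by positivity
        linarith)
    choose w hw using h1
    refine ⟨fun j => (w j).1, fun j => (w j).2, fun x hx => ?_⟩
    refine le_of_forall_pos_le_add fun ε hε => ?_
    obtain ⟨j, hj⟩ := exists_nat_one_div_lt hε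
    exact (hx j).trans ((hw j).le.trans (by linarith))
  refine ⟨v, fun z hz => le_ciInf fun w => w.2.2 z hz, hinf, hinv, ?_⟩
  intro z0 hz0
  obtain ⟨ε, hε, σ, hσ0, hσd, hσm⟩ := hS n F O hR.op hR.an z0 hz0 (hR.sub z0 hz0)
  have hp : Pc F O (F z0) (ε / 2) ε σ :=
    ⟨half_pos hε, half_lt_self hε, hσm, hσd.continuousOn⟩
  have hbb : ball (F z0) (ε / 2) ⊆ ball (F z0) ε := ball_subset_ball hp.lt.le
  have hmem : ∀ c ∈ ball (F z0) (ε / 2), σ c ∈ O := fun c hc => (hp.mem c (hbb hc)).1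
  -- the countable family
  have hfam : ∀ i : ℕ, ∃ w : ℕ → Cn n → ℝ, (∀ j, SupE F O E (w j) ∧ ∀ z ∈ O, u0 z ≤ w j z) ∧
      (TopologicalSpace.denseSeq ℂ i ∈ ball (F z0) (ε / 2) →
        ∀ x : ℝ, (∀ j, x ≤ w j (σ (TopologicalSpace.denseSeq ℂ i))) →
          x ≤ v (σ (TopologicalSpace.denseSeq ℂ i))) := by
    intro i
    by_cases hi : TopologicalSpace.denseSeq ℂ i ∈ ball (F z0) (ε / 2)
    · obtain ⟨w, h1, h2⟩ := hseq _ (hmem _ hi)
      exact ⟨w, h1, fun _ => h2⟩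
    · exact ⟨fun _ => H, fun _ => ⟨hH, hle⟩, fun h => absurd h hi⟩
  choose w hw hwd using hfam
  have hVle : ∀ u : Cn n → ℝ, SupE F O E u → (∀ z ∈ O, u0 z ≤ u z) →
      ∀ c ∈ ball (F z0) (ε / 2), v (σ c) ≤ u (σ c) := fun u h1 h2 c hc => hinf u h1 h2 _ (hmem c hc)
  obtain ⟨G, hG, hG1, hG2⟩ := seq_lemma hP hD hR hu0 hp
    (fun j => w (Nat.unpair j).1 (Nat.unpair j).2) fun j => hw _ _
  have hG2' := hG2 (fun c => v (σ c)) hVle
  have hGd : ∀ i : ℕ, TopologicalSpace.denseSeq ℂ i ∈ ball (F z0) (ε / 2) →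
      G (TopologicalSpace.denseSeq ℂ i) = v (σ (TopologicalSpace.denseSeq ℂ i)) := by
    intro i hi
    refine le_antisymm (hwd i hi _ fun j => ?_) (hG2' _ hi)
    have h1 := hG1 _ hi (Nat.pair i j)
    simp only [Nat.unpair_pair] at h1
    exact h1
  have hEq : ∀ c ∈ ball (F z0) (ε / 2), v (σ c) = G c := by
    intro c hc
    obtain ⟨wc, h1, h2⟩ := hseq _ (hmem c hc)
    obtain ⟨G', hG', hG1', hG2''⟩ := seq_lemma hP hD hR hu0 hp
      (fun j => if Even j then wc (j / 2) else w (Nat.unpair (j / 2)).1 (Nat.unpair (j / 2)).2)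
      (fun j => by
        by_cases hj : Even j
        · simp only [hj, if_true]
          exact h1 _
        · simp only [hj, if_false]
          exact hw _ _)
    have hV' := hG2'' (fun c => v (σ c)) hVle
    have e1 : G' c = v (σ c) := by
      refine le_antisymm (h2 _ fun j => ?_) (hV' c hc)
      have h3 := hG1' c hc (2 * j)
      simp only [even_two_mul, if_true] at h3
      rwa [Nat.mul_div_cancel_left _ (by norm_num)] at h3
    have e2 : ∀ i : ℕ, TopologicalSpace.denseSeq ℂ i ∈ ball (F z0) (ε / 2) →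
        G' (TopologicalSpace.denseSeq ℂ i) = G (TopologicalSpace.denseSeq ℂ i) := by
      intro i hi
      rw [hGd i hi]
      refine le_antisymm (hwd i hi _ fun j => ?_) (hV' _ hi)
      have h3 := hG1' _ hi (2 * Nat.pair i j + 1)
      have h4 : ¬ Even (2 * Nat.pair i j + 1) := by
        rw [Nat.not_even_iff_odd]
        exact odd_two_mul_add_one _
      simp only [h4, if_false] at h3
      have h5 : (2 * Nat.pair i j + 1) / 2 = Nat.pair i j := by omega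
      rw [h5, Nat.unpair_pair] at h3
      exact h3
    have e3 : Set.EqOn G' G (ball (F z0) (ε / 2)) := by
      have hcl : closure ((ball (F z0) (ε / 2)) ∩ Set.range (TopologicalSpace.denseSeq ℂ)) ⊇
          ball (F z0) (ε / 2) := by
        have := (TopologicalSpace.denseRange_denseSeq ℂ).open_subset_closure_inter
          (isOpen_ball (x := F z0) (ε := ε / 2))
        exact this
      intro x hx
      have hx' := hcl hx
      have hxn : (𝓝[(ball (F z0) (ε / 2)) ∩ Set.range (TopologicalSpace.denseSeq ℂ)] x).NeBot :=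
        mem_closure_iff_nhdsWithin_neBot.1 hx'
      have t1 : Tendsto G' (𝓝[(ball (F z0) (ε / 2)) ∩
          Set.range (TopologicalSpace.denseSeq ℂ)] x) (𝓝 (G' x)) :=
        ((harm_cont hG').continuousAt (isOpen_ball.mem_nhds hx)).tendsto.mono_left
          nhdsWithin_le_nhds
      have t2 : Tendsto G (𝓝[(ball (F z0) (ε / 2)) ∩
          Set.range (TopologicalSpace.denseSeq ℂ)] x) (𝓝 (G x)) :=
        ((harm_cont hG).continuousAt (isOpen_ball.mem_nhds hx)).tendsto.mono_left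
          nhdsWithin_le_nhds
      refine tendsto_nhds_unique (t1.congr' ?_) t2
      filter_upwards [self_mem_nhdsWithin] with y hy
      obtain ⟨hy1, i, rfl⟩ := hy
      exact e2 i hy1
    rw [← e1]
    exact e3 hc
  refine ⟨ε / 2, half_pos hε, G, hG, ?_⟩
  have hev := ev_E hR hp hz0 (mem_ball_self hε) (by rw [hσ0]; exact hR.refl z0 hz0)
  filter_upwards [hev, (hR.contAt hz0).eventually (ball_mem_nhds (F z0) (half_pos hε))]
    with z h1 h2
  rw [hinv z h1.1 _ (hmem _ h2) h1.2.2, hEq _ h2]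

end

end Pool.Agent.Lib.MP_6ff8d9_an.H99
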