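import Pool.Agent.Lib.MP_6ff8d9_an_h99.SecLoc
import Pool.Agent.Lib.MP_6ff8d9_an_h22.Rows0

/-!
# MP_6ff8d9 RATIONAL, zeros of `Q` on the sphere allowed: LOCAL0, SEC0, LOC0
-/

open Metric Filter Topology MvPolynomial
open scoped ComplexConjugate

namespace Pool.Agent.Lib.MP_6ff8d9_an.H99

open Pool.Agent.Lib.MP_6ff8d9_an.H22

noncomputable section

variable {n : ℕ}

lemma Qne_of0 {P Q : MvPolynomial (Fin n) ℂ} (hA : Adm0 P Q) {z : Fin n → ℂ}
    (hz : ∑ i, ‖z i‖ ^ 2 < 1) : eval z Q ≠ 0 := by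
  have h := hA.lt z hz
  exact norm_pos_iff.1 ((norm_nonneg _).trans_lt h)

/-- contact facts for a rational function -/
theorem contact_of0 {P Q : MvPolynomial (Fin n) ℂ} (hD : Dual P Q) {m : Fin n → ℂ}
    (hm : m ∈ Ct0 P Q) (h1 : ∀ j, eval m (Wr P Q j) = conj (m j) * eval m (Rr P Q))
    {b : ℝ} (hb : 0 < b) (h2 : eval m (Rr P Q) = b * (eval m P * eval m Q)) :
    Contact (fr P Q) (Ps P Q) m ∧
      (∀ᶠ z in 𝓝 m, fr P Q z * conj (fr P Q (star (Ps P Q z))) = 1) := by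
  have hQ : eval m Q ≠ 0 := hm.2.1
  have hP : eval m P ≠ 0 := by
    rw [← norm_pos_iff, hm.2.2]
    exact norm_pos_iff.2 hQ
  have hR : eval m (Rr P Q) ≠ 0 := by
    rw [h2]
    exact mul_ne_zero (by exact_mod_cast hb.ne') (mul_ne_zero hP hQ)
  have nQ : ∀ᶠ z in 𝓝 m, eval z Q ≠ 0 := (continuous_eval' Q).continuousAt.eventually_ne hQ
  have nR : ∀ᶠ z in 𝓝 m, eval z (Rr P Q) ≠ 0 :=
    (continuous_eval' (Rr P Q)).continuousAt.eventually_ne hR
  have hcd : ∀ {N : WithTop ℕ∞}, ContDiffAt ℂ N (Ps P Q) m := by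
    intro N
    rw [contDiffAt_pi]
    intro j
    exact (contDiff_eval' _).contDiffAt.div (contDiff_eval' _).contDiffAt hR
  have hfix : star (Ps P Q m) = m := by
    funext j
    show conj (eval m (Wr P Q j) / eval m (Rr P Q)) = m j
    rw [h1, mul_div_assoc, div_self hR, mul_one, Complex.conj_conj]
  have hσt : Tendsto (fun z => star (Ps P Q z)) (𝓝 m) (𝓝 m) := by
    have h3 : ContinuousAt (fun z => star (Ps P Q z)) m := (hcd (N := 0)).continuousAt.star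
    have h4 := h3.tendsto
    rwa [hfix] at h4
  have nrefl : ∀ᶠ z in 𝓝 m, fr P Q z * conj (fr P Q (star (Ps P Q z))) = 1 := by
    filter_upwards [nQ, nR, hσt.eventually nQ] with z h3 h4 h5
    have h6 := (hD.2 z h4).1
    rw [← star_Ps] at h6
    unfold fr
    rw [map_div₀]
    have h7 : conj (eval (star (Ps P Q z)) Q) ≠ 0 := (map_ne_zero _).2 h5
    rw [div_mul_div_comm, h6, div_self (mul_ne_zero h3 h7)]
  refine ⟨⟨?_, ?_, hcd, hfix, ?_, ?_, ?_, ?_⟩, nrefl⟩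
  · unfold fr
    rw [norm_div, hm.2.2, div_self (norm_ne_zero_iff.2 hQ)]
  · exact (contDiff_eval' _).contDiffAt.div (contDiff_eval' _).contDiffAt hQ
  · filter_upwards [nR, hσt.eventually nR] with z h4 h5
    funext j
    show conj (eval (star (Ps P Q z)) (Wr P Q j) / eval (star (Ps P Q z)) (Rr P Q)) = z j
    have h6 := (hD.2 z h4).2 j
    rw [← star_Ps] at h6
    rw [h6, mul_div_assoc, div_self h5, mul_one, Complex.conj_conj]
  · filter_upwards [nR] with z h4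
    have h5 : ∑ j, z j * Ps P Q z j = (∑ j, z j * eval z (Wr P Q j)) / eval z (Rr P Q) := by
      rw [Finset.sum_div]
      refine Finset.sum_congr rfl fun j _ => ?_
      unfold Ps
      ring
    rw [h5, ← eval_Rr, div_self h4]
  · filter_upwards [nQ, nR] with z h3 h4
    have h5 : fderiv ℂ (fr P Q) z z = eval z (Rr P Q) / eval z Q ^ 2 := by
      rw [(fderiv_fr h3 z).2, eval_Rr]
      congr 1
      exact Finset.sum_congr rfl fun j _ => mul_comm _ _
    refine ⟨by rw [h5]; exact div_ne_zero h4 (pow_ne_zero 2 h3), fun v => ?_⟩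
    rw [h5, (fderiv_fr h3 v).2, div_mul_eq_mul_div, Finset.mul_sum]
    congr 1
    refine Finset.sum_congr rfl fun j _ => ?_
    unfold Ps
    field_simp
  · filter_upwards [nrefl] with z h3 h4
    rw [h4, Complex.mul_conj, Complex.normSq_eq_norm_sq] at h3
    have h5 : ‖fr P Q z‖ ^ 2 = 1 := by exact_mod_cast h3
    nlinarith [norm_nonneg (fr P Q z)]

/-- row LOCAL0 -/
theorem local_of0 (hCon : CONTACT0) : LOCAL0 := by
  intro n P Q hA hD m hm hne k hk hkre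
  obtain ⟨h1, b, hb, h2⟩ := hCon n P Q hA m hm
  obtain ⟨hC, -⟩ := contact_of0 hD hm h1 hb h2
  have hQ : eval m Q ≠ 0 := hm.2.1
  have hP : eval m P ≠ 0 := by
    rw [← norm_pos_iff, hm.2.2]
    exact norm_pos_iff.2 hQ
  have hR : eval m (Rr P Q) ≠ 0 := by
    rw [h2]
    exact mul_ne_zero (by exact_mod_cast hb.ne') (mul_ne_zero hP hQ)
  have hF1 : fr P Q m ≠ 1 := by
    intro h
    unfold fr at h
    rw [div_eq_one_iff_eq hQ] at h
    exact hne h
  have hlt : ∀ z : Fin n → ℂ, ∑ i, ‖z i‖ ^ 2 < 1 → ‖fr P Q z‖ < 1 := by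
    intro z hz
    have h3 := hA.lt z hz
    unfold fr
    rw [norm_div, div_lt_one ((norm_nonneg _).trans_lt h3)]
    exact h3
  have hkre' : ∀ z ∈ Bl n, |(k z).re| ≤ ((1 + fr P Q z) / (1 - fr P Q z)).re := by
    intro z hz
    have h3 := hkre z hz
    have h4 : eval z Q ≠ 0 := Qne_of0 hA hz
    have h5 : (1 + fr P Q z) / (1 - fr P Q z) =
        (eval z Q + eval z P) / (eval z Q - eval z P) := by
      unfold fr
      have h6 : 1 + eval z P / eval z Q = (eval z Q + eval z P) / eval z Q := by field_simp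
      have h7 : 1 - eval z P / eval z Q = (eval z Q - eval z P) / eval z Q := by field_simp
      rw [h6, h7, div_div_div_cancel_right₀ h4]
    rw [h5]
    exact h3
  obtain ⟨z₁, hz₁, hev⟩ := hC.local_step hF1 hlt hk hkre'
    ((continuous_eval' (Rr P Q)).continuousAt.eventually_ne hR)
  have hdir : ∀ i : Fin n, DifferentiableOn ℂ (fun z => fderiv ℂ k z (Pi.single i 1)) (Bn n) :=
    fun i => Pool.Agent.K708.Hd.fderiv_holo (isOpen_Bl n) hk (Pi.single i 1 : Fin n → ℂ)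
  intro z hz i j
  have h3 := ident (isOpen_Bl n) (convex_Bn n)
    (A := fun z => eval z (Wr P Q j) * fderiv ℂ k z (Pi.single i 1) -
      eval z (Wr P Q i) * fderiv ℂ k z (Pi.single j 1)) ?_ hz₁ ?_ z hz
  · exact sub_eq_zero.1 h3
  · have h4 : ∀ p : MvPolynomial (Fin n) ℂ, DifferentiableOn ℂ (fun z : Fin n → ℂ => eval z p)
        (Bn n) := fun p => ((contDiff_eval' p (N := 1)).differentiable (by norm_num)).differentiableOn
    exact ((h4 _).mul (hdir i)).sub ((h4 _).mul (hdir j))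
  · filter_upwards [hev] with x hx
    have h4 := hx.2 i j
    have h5 : eval x (Rr P Q) ≠ 0 := hx.1
    unfold Ps at h4
    rw [div_mul_eq_mul_div, div_mul_eq_mul_div, div_left_inj' h5] at h4
    exact sub_eq_zero.2 h4

/-- everything at a contact point of a rational function -/
lemma setup0 (hCon : CONTACT0) {P Q : MvPolynomial (Fin n) ℂ} (hA : Adm0 P Q) (hD : Dual P Q)
    {m : Fin n → ℂ} (hm : m ∈ Ct0 P Q) :
    Contact (fr P Q) (Ps P Q) m ∧ eval m Q ≠ 0 ∧ eval m (Rr P Q) ≠ 0 ∧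
      (∀ z : Fin n → ℂ, ∑ i, ‖z i‖ ^ 2 < 1 → ‖fr P Q z‖ < 1) ∧
      DifferentiableOn ℂ (fr P Q) (Bl n) ∧ Nonempty (AdChart (fr P Q) (Ps P Q) m) := by
  obtain ⟨h1, b, hb, h2⟩ := hCon n P Q hA m hm
  obtain ⟨hC, hrefl⟩ := contact_of0 hD hm h1 hb h2
  have hQ : eval m Q ≠ 0 := hm.2.1
  have hP : eval m P ≠ 0 := by
    rw [← norm_pos_iff, hm.2.2]
    exact norm_pos_iff.2 hQ
  have hR : eval m (Rr P Q) ≠ 0 := by
    rw [h2]
    exact mul_ne_zero (by exact_mod_cast hb.ne') (mul_ne_zero hP hQ)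
  have hlt : ∀ z : Fin n → ℂ, ∑ i, ‖z i‖ ^ 2 < 1 → ‖fr P Q z‖ < 1 := by
    intro z hz
    have h3 := hA.lt z hz
    unfold fr
    rw [norm_div, div_lt_one ((norm_nonneg _).trans_lt h3)]
    exact h3
  have hFd : DifferentiableOn ℂ (fr P Q) (Bl n) := fun z hz =>
    (fderiv_fr (Qne_of0 hA hz) 0).1.differentiableWithinAt
  exact ⟨hC, hQ, hR, hlt, hFd, hC.exists_adChart hrefl hlt⟩

/-- (Loc) in 82's form -/
theorem loc_of0 (hCon : CONTACT0) (P Q : MvPolynomial (Fin n) ℂ) (hA : Adm0 P Q) (hD : Dual P Q)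
    (k : (Fin n → ℂ) → ℂ) (hk : DifferentiableOn ℂ k (Bn n)) (hW : Wedge P Q k) {m : Fin n → ℂ}
    (hm : m ∈ Ct0 P Q) :
    ∃ δ > 0, ∃ L : ℂ → ℂ, DifferentiableOn ℂ L (ball (fr P Q m) δ ∩ ball 0 1) ∧
      (∃ δ' > 0, ∀ z ∈ Bn n, dist z m < δ' →
        fr P Q z ∈ ball (fr P Q m) δ ∧ k z = L (fr P Q z)) ∧
      (∀ w ∈ ball (fr P Q m) δ ∩ ball (0 : ℂ) 1, ∃ z ∈ Bn n, fr P Q z = w ∧ k z = L w) := by
  obtain ⟨hC, hQ, hR, hlt, hFd, ⟨a⟩⟩ := setup0 hCon hA hD hm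
  refine hC.leaf a hlt hFd hk ?_
  filter_upwards [(continuous_eval' Q).continuousAt.eventually_ne hQ,
    (continuous_eval' (Rr P Q)).continuousAt.eventually_ne hR] with z h1 h2 h3 v hv
  exact wedge_apply h1 h2 (fun i j => hW z h3 i j) hv

/-- row LIFT -/
theorem lift_of0 (hCon : CONTACT0) (P Q : MvPolynomial (Fin n) ℂ) (hA : Adm0 P Q)
    (hD : Dual P Q) (m : Fin n → ℂ) (hm : m ∈ Ct0 P Q) (ε : ℝ) (hε : 0 < ε) :
    ∃ δ : ℝ, 0 < δ ∧ ∀ c : ℂ, ‖c‖ = 1 → dist c (fr P Q m) < δ →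
      ∃ m' ∈ Ct0 P Q, dist m' m < ε ∧ fr P Q m' = c := by
  obtain ⟨hC, hQ, hR, hlt, hFd, ⟨a⟩⟩ := setup0 hCon hA hD hm
  have hF1 : ‖fr P Q m‖ = 1 := hC.norm1
  have hF0 : fr P Q m ≠ 0 := by
    intro h
    rw [h, norm_zero] at hF1
    exact zero_ne_one hF1
  have hΘt : Tendsto a.Θ (𝓝 0) (𝓝 m) := by
    have := a.dΘ.hasFDerivAt.continuousAt.tendsto
    rwa [a.Θ0] at this
  have hsu : Tendsto (fun s : ℂ => s • a.u) (𝓝 0) (𝓝 0) := by
    have h1 : Continuous fun s : ℂ => s • a.u := by fun_prop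
    have := h1.tendsto 0
    simpa using this
  have h1 := (hC.real_points a.toSymChart).and (a.expF.and ((hΘt.eventually
    (ball_mem_nhds m hε)).and (hΘt.eventually ((continuous_eval' Q).continuousAt.eventually_ne hQ))))
  have h2 := ((sc_tendsto hF0).eventually (hsu.eventually h1)).and (eventually_ne_nhds hF0)
  obtain ⟨δ, hδ, h3⟩ := Metric.eventually_nhds_iff_ball.1 h2
  refine ⟨δ, hδ, fun c hc hcd => ?_⟩
  obtain ⟨⟨e1, e2, e3, e4⟩, e5⟩ := h3 c hcd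
  -- the coordinate is real
  have hreal : ((sc (fr P Q m) c).re : ℂ) = sc (fr P Q m) c := by
    apply Complex.ext
    · simp
    · have h4 : (sc (fr P Q m) c).im = -Real.log ‖c‖ := by
        unfold sc
        rw [Complex.mul_im]
        simp [Complex.log_re, hF1]
      rw [h4, hc, Real.log_one, Complex.ofReal_im, neg_zero]
  have hr : star (a.L (sc (fr P Q m) c • a.u)) = sc (fr P Q m) c • a.u := by
    rw [← hreal]
    exact real_smul a.u_real _
  obtain ⟨e6, e7, -⟩ := e1 hr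
  refine ⟨_, ⟨e6, e4, ?_⟩, e3, ?_⟩
  · have e8 : ∀ z : Fin n → ℂ, fr P Q z = eval z P / eval z Q := fun _ => rfl
    rw [e8, norm_div, div_eq_one_iff_eq (norm_ne_zero_iff.2 e4)] at e7
    exact e7
  · rw [e2, map_smul, a.ℓu, smul_eq_mul, mul_one, exp_sc hF0 e5]

/-- row LOC0 -/
theorem loc_row0 (hCon : CONTACT0) : LOC0 := by
  intro n P Q hA hD k hk hW m hm
  obtain ⟨ε, hε, L, hL, ⟨δ, hδ, h1⟩, -⟩ := loc_of0 hCon P Q hA hD k hk hW hm
  exact ⟨δ, hδ, ε, hε, L, hL, h1⟩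

/-- row SEC0 -/
theorem sec_row0 (hCon : CONTACT0) : SEC0 := by
  intro n P Q hA hD m hm δ hδ
  obtain ⟨hC, hQ, hR, hlt, hFd, ⟨a⟩⟩ := setup0 hCon hA hD hm
  obtain ⟨ε₁, hε₁, h1⟩ := lift_of0 hCon P Q hA hD m hm δ hδ
  have hF0 : fr P Q m ≠ 0 := by
    intro h
    have := hC.norm1
    rw [h, norm_zero] at this
    exact zero_ne_one this
  have hΘt : Tendsto a.Θ (𝓝 0) (𝓝 m) := by
    have := a.dΘ.hasFDerivAt.continuousAt.tendsto
    rwa [a.Θ0] at this
  have hsu : Tendsto (fun s : ℂ => s • a.u) (𝓝 0) (𝓝 0) := by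
    have h1 : Continuous fun s : ℂ => s • a.u := by fun_prop
    have := h1.tendsto 0
    simpa using this
  obtain ⟨r, hr, hline⟩ := hC.line_in_ball a
  have hs1 : ∀ᶠ s : ℂ in 𝓝 0, ‖s‖ < r := by
    have := (continuous_norm.tendsto (0 : ℂ)).eventually_lt_const
      (show ‖(0 : ℂ)‖ < r by rw [norm_zero]; exact hr)
    exact this
  have h2 := ((sc_tendsto hF0).eventually (hs1.and ((hsu.eventually a.expF).and
    (hsu.eventually (hΘt.eventually (ball_mem_nhds m hδ)))))).and (eventually_ne_nhds hF0)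
  obtain ⟨ε₂, hε₂, h3⟩ := Metric.eventually_nhds_iff_ball.1 h2
  refine ⟨min ε₁ ε₂, by positivity, ?_, fun c hc hcd => h1 c hc (hcd.trans_le (min_le_left _ _))⟩
  intro w hw
  obtain ⟨⟨e1, e2, e3⟩, e4⟩ := h3 w (ball_subset_ball (min_le_right _ _) hw.1)
  refine ⟨_, hline _ e1 (sc_im_pos hC.norm1 e4 (by simpa using hw.2)), e3, ?_⟩
  rw [e2, map_smul, a.ℓu, smul_eq_mul, mul_one, exp_sc hF0 e4]

end

end Pool.Agent.Lib.MP_6ff8d9_an.H99
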